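import Pool.Agent.MP_855f4c_ag.LP.Defs

namespace Pool.Agent.MP_855f4c_ag.LP

open Polynomial

/-- Points in an algebraically closed field extend along integral maps. -/
lemma ext_int {A B Ω : Type*} [CommRing A] [CommRing B] [Field Ω] [IsAlgClosed Ω] (j : A →+* B)
    (hj : j.IsIntegral) (x : A →+* Ω) (h : RingHom.ker j ≤ RingHom.ker x) :
    ∃ y : B →+* Ω, ∀ a, y (j a) = x a := by
  let _ : Algebra A B := j.toAlgebra
  have : Algebra.IsIntegral A B := ⟨hj⟩
  have : (RingHom.ker x).IsPrime := RingHom.ker_isPrime x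
  obtain ⟨Q, -, hQ, hc⟩ := Ideal.exists_ideal_over_prime_of_isIntegral (RingHom.ker x)
    (⊥ : Ideal B) h
  have : Q.LiesOver (RingHom.ker x) := ⟨hc.symm⟩
  let _ : Algebra (A ⧸ RingHom.ker x) Ω := (RingHom.kerLift x).toAlgebra
  have : Module.IsTorsionFree (A ⧸ RingHom.ker x) (B ⧸ Q) :=
    Module.isTorsionFree_iff_algebraMap_injective.2 (FaithfulSMul.algebraMap_injective _ _)
  have : Module.IsTorsionFree (A ⧸ RingHom.ker x) Ω :=
    Module.isTorsionFree_iff_algebraMap_injective.2 (RingHom.kerLift_injective x)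
  have : Algebra.IsAlgebraic (A ⧸ RingHom.ker x) (B ⧸ Q) := Algebra.IsIntegral.isAlgebraic
  let f : (B ⧸ Q) →ₐ[A ⧸ RingHom.ker x] Ω := IsAlgClosed.lift
  refine ⟨f.toRingHom.comp (Ideal.Quotient.mk Q), fun a => ?_⟩
  exact f.commutes (Ideal.Quotient.mk _ a)

/-- Two maps from an unramified algebra to a domain that agree at one point are equal. -/
lemma uq {A B D E : Type*} [CommRing A] [CommRing B] [CommRing D] [IsDomain D] [CommRing E]
    [Nontrivial E] [Algebra A B] [Algebra A D] [Algebra.FormallyUnramified A B]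
    [Algebra.EssFiniteType A B] (s t : B →ₐ[A] D) (a : D →+* E) (h : ∀ b, a (s b) = a (t b)) :
    s = t := by
  obtain ⟨e, he, he1⟩ := (Algebra.FormallyUnramified.iff_exists_tensorProduct (R := A)
    (S := B)).1 inferInstance
  have key : ∀ w : TensorProduct A B B, a (Algebra.TensorProduct.productMap s t w) =
      a (s (Algebra.TensorProduct.lmul' A w)) := by
    intro w
    induction w using TensorProduct.induction_on with
    | zero => simp
    | tmul x y => simp [h y]
    | add x y hx hy => simp only [map_add, hx, hy]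
  have h0 : Algebra.TensorProduct.productMap s t e ≠ 0 := by
    intro h0
    have := key e
    rw [h0, he1] at this
    simp at this
  ext b
  have := congrArg (Algebra.TensorProduct.productMap s t) (he b)
  rw [map_mul, map_zero, mul_eq_zero] at this
  have h1 := this.resolve_right h0
  simp only [map_sub, Algebra.TensorProduct.productMap_apply_tmul, map_one, one_mul,
    mul_one] at h1
  exact (sub_eq_zero.1 h1).symm

lemma ba_surj {C T : Type*} [CommRing C] [IsDomain C] [CommRing T] [IsDomain T] [Algebra C T]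
    (hC : ∀ q : C[X], q.Monic → q.Splits) (z : T) (hz : IsIntegral C z) :
    ∃ c : C, algebraMap C T c = z := by
  obtain ⟨q, hq, h0⟩ := hz
  have h1 : aeval z q = 0 := h0
  rw [(hC q hq).eq_prod_roots_of_monic hq, map_multiset_prod, Multiset.map_map,
    Multiset.prod_eq_zero_iff, Multiset.mem_map] at h1
  obtain ⟨c, -, hc⟩ := h1
  refine ⟨c, ?_⟩
  simp only [Function.comp, map_sub, aeval_X, aeval_C] at hc
  exact (sub_eq_zero.1 hc).symm

/-- Sections: points of a flat integral algebra factor through a domain in which every monic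
polynomial splits. -/
lemma sec {A B C Ω : Type*} [CommRing A] [CommRing B] [CommRing C] [IsDomain C] [Field Ω]
    [Algebra A B] [Algebra A C] [Module.Flat A B] [Algebra.IsIntegral A B]
    (hC : ∀ q : C[X], q.Monic → q.Splits) (a : C →+* Ω) (b : B →+* Ω)
    (h : ∀ r : A, b (algebraMap A B r) = a (algebraMap A C r)) :
    ∃ s : B →ₐ[A] C, ∀ z, a (s z) = b z := by
  let _ : Algebra A Ω := (a.comp (algebraMap A C)).toAlgebra
  let a' : C →ₐ[A] Ω := { a with commutes' := fun _ => rfl }
  let b' : B →ₐ[A] Ω := { b with commutes' := h }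
  let m : TensorProduct A C B →ₐ[A] Ω := Algebra.TensorProduct.productMap a' b'
  have : (RingHom.ker m.toRingHom).IsPrime := RingHom.ker_isPrime _
  obtain ⟨P, hP, hp, hl⟩ := Ideal.exists_ideal_le_liesOver_of_le (R := C) (p := ⊥)
    (q := (RingHom.ker m.toRingHom).under C) (RingHom.ker m.toRingHom) bot_le
  have hinj : Function.Injective (algebraMap C (TensorProduct A C B ⧸ P)) := by
    rw [injective_iff_map_eq_zero]
    intro c hc
    have h1 : algebraMap C (TensorProduct A C B) c ∈ P := Ideal.Quotient.eq_zero_iff_mem.1 hc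
    have h2 : c ∈ P.under C := h1
    rw [← hl.over] at h2
    exact h2
  have hsurj : Function.Surjective (algebraMap C (TensorProduct A C B ⧸ P)) := fun z =>
    ba_surj hC z (Algebra.IsIntegral.isIntegral z)
  let e : C ≃ₐ[A] (TensorProduct A C B ⧸ P) :=
    AlgEquiv.ofBijective (IsScalarTower.toAlgHom A C _) ⟨hinj, hsurj⟩
  refine ⟨(e.symm : _ →ₐ[A] C).comp ((Ideal.Quotient.mkₐ A P).comp
    Algebra.TensorProduct.includeRight), fun z => ?_⟩
  obtain ⟨c, hc⟩ := hsurj (Ideal.Quotient.mk P (TensorProduct.tmul A 1 z))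
  have h1 : e.symm (Ideal.Quotient.mk P (TensorProduct.tmul A 1 z)) = c := by
    rw [AlgEquiv.symm_apply_eq]; exact hc.symm
  have h2 : TensorProduct.tmul A c 1 - TensorProduct.tmul A 1 z ∈ P :=
    Ideal.Quotient.eq.1 hc
  have h3 : m (TensorProduct.tmul A c 1 - TensorProduct.tmul A 1 z) = 0 := hP h2
  simp only [m, map_sub, Algebra.TensorProduct.productMap_apply_tmul, map_one, one_mul,
    mul_one] at h3
  change a (e.symm (Ideal.Quotient.mk P (TensorProduct.tmul A 1 z))) = b z
  rw [h1]
  exact sub_eq_zero.1 h3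

/-- Monic polynomials split in the absolute integral closure. -/
lemma splits_ic (A : Type*) [CommRing A] [IsDomain A]
    (q : (integralClosure A (AlgebraicClosure (FractionRing A)))[X]) (hq : q.Monic) :
    q.Splits := by
  refine Splits.of_splits_map_of_injective
    (i := algebraMap _ (AlgebraicClosure (FractionRing A))) Subtype.val_injective
    (IsAlgClosed.splits _) fun z hz => ?_
  have h1 : IsIntegral (integralClosure A (AlgebraicClosure (FractionRing A))) z :=
    ⟨q, hq, by rw [← eval_map]; exact (mem_roots'.1 hz).2⟩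
  exact ⟨⟨z, isIntegral_trans z h1⟩, rfl⟩

end Pool.Agent.MP_855f4c_ag.LP

namespace Pool.Agent.MP_855f4c_ag.LP

open Polynomial

/-- Adjoining a simple root is unramified. -/
lemma unr_adjoin {A C : Type*} [CommRing A] [CommRing C] [Algebra A C] (c : C) (h : A[X])
    (h0 : aeval c h = 0) (h1 : ∃ e ∈ Algebra.adjoin A {c}, aeval c (derivative h) * e = 1) :
    Algebra.FormallyUnramified A (Algebra.adjoin A {c}) := by
  obtain ⟨e, he, h1⟩ := h1
  let c' : Algebra.adjoin A {c} := ⟨c, Algebra.self_mem_adjoin_singleton A c⟩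
  have hv : ∀ g : A[X], ((aeval c' g : Algebra.adjoin A {c}) : C) = aeval c g := fun g =>
    (aeval_algHom_apply (Algebra.adjoin A {c}).val c' g).symm
  have h0' : aeval c' h = 0 := Subtype.ext (by rw [hv, h0]; rfl)
  have h1' : (⟨e, he⟩ : Algebra.adjoin A {c}) * aeval c' (derivative h) = 1 :=
    Subtype.ext (by rw [Subalgebra.coe_mul, hv, mul_comm, h1]; rfl)
  have hD : KaehlerDifferential.D A (Algebra.adjoin A {c}) c' = 0 := by
    have h2 := (KaehlerDifferential.D A (Algebra.adjoin A {c})).map_aeval h c'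
    rw [h0', map_zero] at h2
    rw [← one_smul (Algebra.adjoin A {c}) (KaehlerDifferential.D A _ c'), ← h1', mul_smul, ← h2,
      smul_zero]
  have hall : ∀ x, KaehlerDifferential.D A (Algebra.adjoin A {c}) x = 0 := by
    rintro ⟨x, hx⟩
    have hx' := hx
    rw [Algebra.adjoin_singleton_eq_range_aeval] at hx'
    obtain ⟨g, hg⟩ := hx'
    have h3 : (⟨x, hx⟩ : Algebra.adjoin A {c}) = aeval c' g := Subtype.ext (by
      rw [hv]; exact hg.symm)
    rw [h3, Derivation.map_aeval, hD, smul_zero]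
  refine ⟨subsingleton_of_forall_eq 0 fun w => ?_⟩
  have hw : w ∈ Submodule.span (Algebra.adjoin A {c})
      (Set.range (KaehlerDifferential.D A (Algebra.adjoin A {c}))) := by
    rw [KaehlerDifferential.span_range_derivation]; trivial
  have hb : Submodule.span (Algebra.adjoin A {c})
      (Set.range (KaehlerDifferential.D A (Algebra.adjoin A {c}))) ≤ ⊥ :=
    Submodule.span_le.2 (by rintro _ ⟨x, rfl⟩; exact hall x)
  exact hb hw

lemma bb_range {A T C : Type*} [CommRing A] [CommRing T] [CommRing C] [Algebra A T] [Algebra A C]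
    [Module.Finite A T] [Algebra.FormallyUnramified A T] (f : T →ₐ[A] C) (D : Subalgebra A C)
    (h : f.range = D) : Module.Finite A D ∧ Algebra.FormallyUnramified A D := by
  subst h
  exact ⟨Module.Finite.of_surjective f.rangeRestrict.toLinearMap f.rangeRestrict_surjective,
    Algebra.FormallyUnramified.of_surjective f.rangeRestrict f.rangeRestrict_surjective⟩

/-- The compositum of two finite unramified subalgebras. -/
lemma unr_sup {A C : Type*} [CommRing A] [CommRing C] [Algebra A C] (D E : Subalgebra A C)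
    [Module.Finite A D] [Algebra.FormallyUnramified A D] [Module.Finite A E]
    [Algebra.FormallyUnramified A E] :
    Module.Finite A (D ⊔ E : Subalgebra A C) ∧
      Algebra.FormallyUnramified A (D ⊔ E : Subalgebra A C) := by
  have := Algebra.FormallyUnramified.comp A D (TensorProduct A D E)
  refine bb_range (Algebra.TensorProduct.productMap D.val E.val) _ ?_
  rw [Algebra.TensorProduct.productMap_range, D.range_val, E.range_val]

/-- The image of a finite unramified `A`-algebra generates a finite unramified `B`-subalgebra. -/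
lemma unr_image {A B S C : Type*} [CommRing A] [CommRing B] [CommRing S] [CommRing C]
    [Algebra A B] [Algebra A S] [Algebra A C] [Algebra B C] [IsScalarTower A B C]
    [Module.Finite A S] [Algebra.FormallyUnramified A S] (s : S →ₐ[A] C) :
    Module.Finite B (Algebra.adjoin B (Set.range s)) ∧
      Algebra.FormallyUnramified B (Algebra.adjoin B (Set.range s)) := by
  refine bb_range (Algebra.TensorProduct.lift (Algebra.ofId B C) s fun _ _ => Commute.all _ _) _ ?_
  apply le_antisymm
  · rintro _ ⟨x, rfl⟩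
    induction x using TensorProduct.induction_on with
    | zero => rw [map_zero]; exact zero_mem _
    | tmul b x =>
      exact mul_mem (Subalgebra.algebraMap_mem _ b) (Algebra.subset_adjoin ⟨x, rfl⟩)
    | add x y hx hy => rw [map_add]; exact add_mem hx hy
  · refine Algebra.adjoin_le ?_
    rintro _ ⟨x, rfl⟩
    exact ⟨1 ⊗ₜ x, by simp⟩

/-- A finite algebra over a complete Noetherian ring is complete. -/
lemma complete_of_finite {R S : Type*} [CommRing R] [IsNoetherianRing R] [CommRing S]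
    [Algebra R S] [Module.Finite R S] (I : Ideal R) [IsAdicComplete I R] :
    IsAdicComplete (I.map (algebraMap R S)) S := by
  rw [IsAdicComplete.map_algebraMap_iff]
  have h1 : IsHausdorff I S :=
    IsHausdorff.of_le_jacobson I S (IsAdicComplete.le_jacobson_bot I)
  obtain ⟨n, f, hf⟩ := Module.Finite.exists_fin' R S
  have h2 : Function.Surjective (AdicCompletion.of I (Fin n → R)) := by
    intro y
    choose x hx using fun i =>
      AdicCompletion.of_surjective I R (AdicCompletion.piEquivFin I n y i)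
    refine ⟨x, (AdicCompletion.piEquivFin I n).injective ?_⟩
    funext i
    rw [← hx i, AdicCompletion.piEquivFin_apply]
    rfl
  have h3 : IsPrecomplete I S := by
    refine AdicCompletion.of_surjective_iff.1 fun y => ?_
    obtain ⟨z, rfl⟩ := AdicCompletion.map_surjective I hf y
    obtain ⟨x, rfl⟩ := h2 z
    exact ⟨f x, (AdicCompletion.map_of I f x).symm⟩
  exact ⟨⟩

end Pool.Agent.MP_855f4c_ag.LP

namespace Pool.Agent.MP_855f4c_ag.LP

open WithZero Polynomial

/-- A sum of terms with different values has the value of one term. -/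
lemma ab_sum {K ι : Type*} [Field K] (v : Valuation K ℤᵐ⁰) (s : Finset ι) (f : ι → K)
    (h : ∀ i ∈ s, ∀ j ∈ s, f i ≠ 0 → f j ≠ 0 → log (v (f i)) = log (v (f j)) → i = j) :
    (∀ i ∈ s, f i = 0) ∨ ∃ i ∈ s, f i ≠ 0 ∧ v (∑ j ∈ s, f j) = v (f i) := by
  classical
  refine or_iff_not_imp_left.2 fun hn => ?_
  push Not at hn
  obtain ⟨k, hk, hk0⟩ := hn
  obtain ⟨i, hi, hm⟩ := s.exists_max_image (fun j => v (f j)) ⟨k, hk⟩
  have h0 : v (f i) ≠ 0 := (lt_of_lt_of_le (zero_lt_iff.2 (v.ne_zero_iff.2 hk0)) (hm k hk)).ne'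
  refine ⟨i, hi, v.ne_zero_iff.1 h0, v.map_sum_eq_of_lt hi fun j hj => ?_⟩
  rw [Finset.mem_sdiff, Finset.mem_singleton] at hj
  refine lt_of_le_of_ne (hm j hj.1) fun e => hj.2 (h j hj.1 i hi ?_ (v.ne_zero_iff.1 h0) (by rw [e]))
  exact v.ne_zero_iff.1 (e ▸ h0)

section

variable {D K : Type*} [CommRing D] [Field K] [Algebra D K] {v : Valuation K ℤᵐ⁰}

lemma ab_le (hD : ∀ c : D, v (algebraMap D K c) ≤ 1) {w : K} (hw : v w ≤ 1) (p : D[X]) :
    v (aeval w p) ≤ 1 := by
  induction p using Polynomial.induction_on' with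
  | add p q hp hq => rw [map_add]; exact v.map_add_le hp hq
  | monomial n c =>
    rw [aeval_monomial, map_mul, map_pow]
    exact mul_le_one' (hD c) (pow_le_one' hw n)

/-- At a simple root the maximal ideal is generated by the uniformiser of the base. -/
lemma ab_step (hD : ∀ c : D, v (algebraMap D K c) ≤ 1) {w0 : D} (h0 : v (algebraMap D K w0) < 1)
    (hm : ∀ c : D, w0 ∣ c ∨ IsUnit c) {w : K} (hw : v w ≤ 1) {h : D[X]} (h1 : aeval w h = 0)
    (h2 : v (aeval w h.derivative) = 1) {p : D[X]} (hp : v (aeval w p) < 1) :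
    ∃ g p' : D[X], v (aeval w g) = 1 ∧
      aeval w p * aeval w g = algebraMap D K w0 * aeval w p' := by
  have hl : ∀ (x : K) (q : D[X]), v x < 1 → v (x * aeval w q) < 1 := fun x q hx => by
    rw [map_mul]
    exact mul_lt_one_of_lt_of_le hx (ab_le hD hw q)
  have hI : (Ideal.span {w0}).IsMaximal := Ideal.isMaximal_iff.2 ⟨fun e => by
    obtain ⟨c, hc⟩ := Ideal.mem_span_singleton.1 e
    have := hl _ (C c) h0
    rw [aeval_C, ← map_mul, ← hc, map_one, map_one] at this
    exact this.false, fun J x _ hx hJ => (Ideal.eq_top_iff_one J).1 (J.eq_top_of_isUnit_mem hJ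
      ((hm x).resolve_left fun e => hx (Ideal.mem_span_singleton.2 e)))⟩
  let := Ideal.Quotient.field (Ideal.span {w0})
  let P : Ideal D[X] :=
    { carrier := {q | v (aeval w q) < 1}
      add_mem' := fun {a b} ha hb => by
        change v (aeval w (a + b)) < 1
        rw [map_add]
        exact v.map_add_lt ha hb
      zero_mem' := by simp
      smul_mem' := fun c q hq => by
        change v (aeval w (c * q)) < 1
        rw [map_mul, mul_comm]
        exact hl _ c hq }
  let φ := mapRingHom (Ideal.Quotient.mk (Ideal.span {w0}))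
  have hφ : Function.Surjective φ := map_surjective _ Ideal.Quotient.mk_surjective
  obtain ⟨f, hf, e⟩ := (Ideal.mem_map_iff_of_surjective φ hφ).1
    (Submodule.IsPrincipal.generator_mem (P.map φ))
  have key : ∀ q ∈ P, ∃ r s, q = f * r + C w0 * s := fun q hq => by
    obtain ⟨r, hr⟩ := (Submodule.IsPrincipal.mem_iff_generator_dvd _).1 (Ideal.mem_map_of_mem φ hq)
    obtain ⟨r, rfl⟩ := hφ r
    have : q - f * r ∈ RingHom.ker φ := by rw [RingHom.mem_ker, map_sub, map_mul, hr, e, sub_self]
    rw [ker_mapRingHom, Ideal.mk_ker, Ideal.map_span, Set.image_singleton] at this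
    obtain ⟨s, hs⟩ := Ideal.mem_span_singleton.1 this
    exact ⟨r, s, by rw [← hs]; ring⟩
  obtain ⟨g, s, rfl⟩ := key h (by change v (aeval w h) < 1; rw [h1, map_zero]; exact zero_lt_one)
  obtain ⟨r, s', rfl⟩ := key p hp
  refine ⟨g, s' * g - s * r, (ab_le hD hw g).eq_of_not_lt fun hg => h2.not_lt ?_, ?_⟩
  · have e : aeval w (derivative (f * g + C w0 * s)) = aeval w g * aeval w (derivative f) +
        aeval w f * aeval w (derivative g) + algebraMap D K w0 * aeval w (derivative s) := by
      simp only [derivative_mul, derivative_C, map_add, map_mul, aeval_C, map_zero]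
      ring
    rw [e]
    exact v.map_add_lt (v.map_add_lt (hl _ _ hg) (hl _ _ hf)) (hl _ _ h0)
  · simp only [map_add, map_mul, map_sub, aeval_C] at h1 ⊢
    linear_combination aeval w r * h1

lemma ab_val (hD : ∀ c : D, v (algebraMap D K c) ≤ 1) {w0 : D} {a : ℕ} (ha : 0 < a)
    (h0 : v (algebraMap D K w0) = exp (-(a : ℤ))) (hm : ∀ c : D, w0 ∣ c ∨ IsUnit c) {w : K}
    (hw : v w ≤ 1) {h : D[X]} (h1 : aeval w h = 0) (h2 : v (aeval w h.derivative) = 1) (N : ℕ) :
    ∀ p : D[X], v (aeval w p) = exp (-(N : ℤ)) → a ∣ N := by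
  induction N using Nat.strong_induction_on with
  | _ N ih =>
    intro p hp
    rcases N.eq_zero_or_pos with rfl | hN
    · exact dvd_zero _
    obtain ⟨g, p', h3, h4⟩ := ab_step hD (w0 := w0)
      (by rw [h0, ← exp_zero, exp_lt_exp]; omega) hm hw h1 h2 (p := p)
      (by rw [hp, ← exp_zero, exp_lt_exp]; omega)
    have e := congrArg v h4
    rw [map_mul, map_mul, hp, h3, h0, mul_one] at e
    have e' : v (aeval w p') = exp (a - N : ℤ) := by
      rw [sub_eq_add_neg, exp_add, e, ← mul_assoc, ← exp_add, add_neg_cancel, exp_zero, one_mul]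
    have hle := ab_le hD hw p'
    rw [e', ← exp_zero, exp_le_exp] at hle
    have := ih (N - a) (by omega) p' (by rw [e']; congr 1; omega)
    exact (Nat.dvd_sub_iff_left (by omega) dvd_rfl).1 this

lemma ab_adj {E : Type*} [CommRing E] [Algebra E K] {τ : K} {t m : ℕ} (t0 : 0 < t) (m0 : m ≠ 0)
    (ht : v τ = exp (-(t : ℤ))) {b : E} (hb : τ ^ m = algebraMap E K b)
    (hE : ∀ x : E, algebraMap E K x ≠ 0 → (m * t : ℤ) ∣ log (v (algebraMap E K x))) :
    ∀ x ∈ Algebra.adjoin E {τ}, x ≠ 0 → (t : ℤ) ∣ log (v x) := fun x hx x0 => by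
  have := (algebraMap E K).domain_nontrivial
  rw [Algebra.adjoin_singleton_eq_range_aeval] at hx
  obtain ⟨p, rfl⟩ := hx
  change aeval τ p ≠ 0 at x0
  change _ ∣ log (v (aeval τ p))
  have hb : aeval τ (X ^ m - C b) = 0 := by rw [map_sub, map_pow, aeval_X, aeval_C, hb, sub_self]
  have hq := monic_X_pow_sub_C b m0
  have hd : (p %ₘ (X ^ m - C b)).natDegree < m := by
    have := natDegree_modByMonic_lt p hq fun h => by
      have := congrArg natDegree h
      rw [natDegree_X_pow_sub_C, natDegree_one] at this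
      exact m0 this
    rwa [natDegree_X_pow_sub_C] at this
  rw [← aeval_modByMonic_eq_self_of_root hb (p := p), aeval_eq_sum_range' hd] at x0 ⊢
  generalize p %ₘ (X ^ m - C b) = r at x0
  have hv : ∀ i, r.coeff i • τ ^ i ≠ 0 →
      ∃ k : ℤ, log (v (r.coeff i • τ ^ i)) = t * (m * k - i) := fun i hi => by
    rw [Algebra.smul_def] at hi ⊢
    have z := left_ne_zero_of_mul hi
    obtain ⟨k, hk⟩ := hE _ z
    refine ⟨k, ?_⟩
    rw [map_mul, map_pow, ht, ← exp_nsmul, log_mul (v.ne_zero_iff.2 z) exp_ne_zero, hk, log_exp,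
      nsmul_eq_mul]
    ring
  refine (ab_sum v (Finset.range m) (fun i => r.coeff i • τ ^ i) fun i hi j hj h1 h2 h => ?_).elim
    (fun h => (x0 (Finset.sum_eq_zero h)).elim) fun ⟨i, _, h, h'⟩ => ?_
  · obtain ⟨k, hk⟩ := hv i h1
    obtain ⟨l, hl⟩ := hv j h2
    rw [Finset.mem_range] at hi hj
    rw [hk, hl] at h
    have h2 := mul_left_cancel₀ (by omega : (t : ℤ) ≠ 0) h
    have h3 : (m : ℤ) ∣ (i : ℤ) - j := ⟨k - l, by linear_combination -h2⟩
    have := Int.eq_zero_of_abs_lt_dvd h3 (abs_lt.2 ⟨by omega, by omega⟩)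
    omega
  · obtain ⟨k, hk⟩ := hv i h
    exact ⟨_, by rw [h', hk]⟩

end

/-- Abhyankar's lemma in residue characteristic zero, in terms of one discrete valuation. -/
lemma abh {F L L1 : Type*} [Field F] [Field L] [Field L1] [Algebra F L] [Algebra L L1]
    [Algebra F L1] [IsScalarTower F L L1] [FiniteDimensional F L] (v : Valuation L1 ℤᵐ⁰)
    (hsurj : ∃ w, v w = exp (-1)) (τ : L1) (T : F) (n : ℕ) (hn0 : n ≠ 0)
    (hn : (Module.finrank F L).factorial ∣ n) (hT : algebraMap F L1 T = τ ^ n) (hτ0 : τ ≠ 0)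
    (hτ : v τ < 1) (hF : ∀ x : F, x ≠ 0 → ∃ k : ℤ, v (algebraMap F L1 x) = v τ ^ (n * k))
    (hgen : Algebra.adjoin L {τ} = ⊤) (hchar : ∀ j : ℕ, j ≠ 0 → v (j : L1) = 1) :
    v τ = exp (-1) := by
  classical
  obtain ⟨t, t0, ht⟩ : ∃ t : ℕ, 0 < t ∧ v τ = exp (-(t : ℤ)) := by
    have e := exp_log (v.ne_zero_iff.2 hτ0)
    rw [← e, ← exp_zero, exp_lt_exp] at hτ
    exact ⟨(-log (v τ)).toNat, by omega, by rw [← e, log_exp]; congr 1; omega⟩
  have hTL : algebraMap L L1 (algebraMap F L T) = τ ^ n := by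
    rw [← IsScalarTower.algebraMap_apply, hT]
  have hex : ∃ a : ℕ, 0 < a ∧ ∃ c : L, v (algebraMap L L1 c) = exp (-(a : ℤ)) :=
    ⟨n * t, Nat.mul_pos (Nat.pos_of_ne_zero hn0) t0, _, by
      rw [hTL, map_pow, ht, ← exp_nsmul]; congr 1; simp⟩
  obtain ⟨a0, c0, hc0⟩ := Nat.find_spec hex
  have hmin := fun {b : ℕ} => Nat.find_min hex (m := b)
  generalize Nat.find hex = a at a0 hc0 hmin
  have c0n : algebraMap L L1 c0 ≠ 0 := v.ne_zero_iff.1 (hc0 ▸ exp_ne_zero)
  have hL : ∀ c : L, c ≠ 0 → (a : ℤ) ∣ log (v (algebraMap L L1 c)) := fun c hc => by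
    have e := exp_log (v.ne_zero_iff.2 ((map_ne_zero (algebraMap L L1)).2 hc))
    generalize log (v (algebraMap L L1 c)) = k at e
    have h1 := Int.emod_nonneg (-k) (b := a) (by omega)
    have h2 := Int.emod_lt_of_pos (-k) (b := a) (by omega)
    refine (dvd_neg.1 (Int.dvd_of_emod_eq_zero (by_contra fun h3 => ?_)))
    refine hmin (b := (-k % a).toNat) (by omega) ⟨by omega, c * c0 ^ (-(-k / a)), ?_⟩
    rw [map_mul, map_mul, map_zpow₀, map_zpow₀, hc0, ← e, ← exp_zsmul, ← exp_add]
    congr 1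
    have := Int.mul_ediv_add_emod (-k) a
    rw [Int.toNat_of_nonneg h1, smul_eq_mul]
    linear_combination this
  obtain ⟨e, he⟩ : a ∣ n * t := by
    have := hL (algebraMap F L T) fun h => pow_ne_zero n hτ0 (by rw [← hTL, h, map_zero])
    rw [hTL, map_pow, ht, ← exp_nsmul, log_exp, nsmul_eq_mul, mul_neg, dvd_neg] at this
    exact_mod_cast this
  have he' : (n : ℤ) * t = a * e := by exact_mod_cast he
  have e0 : 0 < e := Nat.pos_of_ne_zero fun h => by
    rw [h, mul_zero] at he
    exact mul_ne_zero hn0 t0.ne' he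
  have hed : e ≤ Module.finrank F L := by
    have : LinearIndependent F fun i : Fin e => c0 ^ (i : ℕ) := by
      refine Fintype.linearIndependent_iff.2 fun g hg => ?_
      have h1 := congrArg (algebraMap L L1) hg
      simp only [map_sum, Algebra.smul_def, map_mul, map_pow, map_zero,
        ← IsScalarTower.algebraMap_apply] at h1
      refine (ab_sum v Finset.univ (fun i : Fin e => algebraMap F L1 (g i) *
        algebraMap L L1 c0 ^ (i : ℕ)) fun i _ j _ hi hj h => ?_).elim (fun h => ?_)
        fun ⟨i, _, h, h'⟩ => ?_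
      · obtain ⟨k, hk⟩ := hF (g i) fun z => hi (by rw [z, map_zero, zero_mul])
        obtain ⟨l, hl⟩ := hF (g j) fun z => hj (by rw [z, map_zero, zero_mul])
        simp only [map_mul, map_pow, hk, hl, hc0, ht, ← exp_zsmul, ← exp_nsmul, ← exp_add, log_exp,
          smul_eq_mul, nsmul_eq_mul] at h
        have h2 : (e : ℤ) * k + (i : ℕ) = e * l + (j : ℕ) :=
          mul_left_cancel₀ (a := (a : ℤ)) (by omega) (by linear_combination (l - k) * he' - h)
        have h3 : (e : ℤ) ∣ ((i : ℕ) : ℤ) - (j : ℕ) := ⟨l - k, by linear_combination h2⟩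
        have := Int.eq_zero_of_abs_lt_dvd h3 (abs_lt.2 ⟨by omega, by omega⟩)
        exact Fin.ext (by omega)
      · exact fun i => (map_eq_zero _).1
          ((mul_eq_zero.1 (h i (Finset.mem_univ i))).resolve_right (pow_ne_zero _ c0n))
      · rw [h1, map_zero] at h'
        exact (v.ne_zero_iff.2 h h'.symm).elim
    simpa using this.fintype_card_le_finrank
  obtain ⟨m, rfl⟩ := (Nat.dvd_factorial e0 hed).trans hn
  have ham : a = m * t := Nat.eq_of_mul_eq_mul_left e0 (by rw [← mul_assoc, he, mul_comm])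
  have m0 : m ≠ 0 := right_ne_zero_of_mul hn0
  let D := (v.comap (algebraMap L L1)).integer
  have hD : ∀ c : D, v (algebraMap D L1 c) ≤ 1 := fun c => c.2
  let w0 : D := ⟨c0, show v _ ≤ 1 by rw [hc0, ← exp_zero, exp_le_exp]; omega⟩
  have hc : c0 ≠ 0 := fun h => c0n (by rw [h, map_zero])
  have hm : ∀ c : D, w0 ∣ c ∨ IsUnit c := fun c => by
    by_cases z : c = 0
    · exact .inl (z ▸ dvd_zero _)
    have z' : c.1 ≠ 0 := fun h => z (Subtype.ext h)
    obtain ⟨k, hk⟩ := hL c z'
    have e1 := exp_log (v.ne_zero_iff.2 ((map_ne_zero (algebraMap L L1)).2 z'))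
    have e2 : v (algebraMap L L1 c) ≤ 1 := c.2
    rw [hk] at e1
    rw [← e1, ← exp_zero, exp_le_exp] at e2
    rcases lt_trichotomy k 0 with h | h | h
    · refine .inl ⟨⟨c / c0, show v _ ≤ 1 from ?_⟩, Subtype.ext (mul_div_cancel₀ _ hc).symm⟩
      rw [map_div₀, map_div₀, ← e1, hc0, ← exp_sub, ← exp_zero, exp_le_exp]
      nlinarith
    · refine .inr (.of_mul_eq_one ⟨c.1⁻¹, show v _ ≤ 1 from ?_⟩ (Subtype.ext (mul_inv_cancel₀ z')))
      rw [map_inv₀, map_inv₀, ← e1, h, mul_zero, exp_zero, inv_one]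
    · exact absurd e2 (not_le.2 (by positivity))
  obtain ⟨w, hw⟩ : ∃ w, w = τ ^ m / algebraMap L L1 c0 := ⟨_, rfl⟩
  have hw1 : v w = 1 := by
    rw [hw, map_div₀, map_pow, ht, hc0, ← exp_nsmul, ← exp_sub, ← exp_zero, ham]
    congr 1
    simp
  have hwe : algebraMap L L1 (algebraMap F L T / c0 ^ e) = w ^ e := by
    rw [map_div₀, hTL, map_pow, hw, div_pow, ← pow_mul, mul_comm]
  let u : D := ⟨algebraMap F L T / c0 ^ e, show v _ ≤ 1 by rw [hwe, map_pow, hw1, one_pow]⟩
  have hE : ∀ x ∈ Algebra.adjoin D {w}, x ≠ 0 → (a : ℤ) ∣ log (v x) := fun x hx x0 => by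
    rw [Algebra.adjoin_singleton_eq_range_aeval] at hx
    obtain ⟨p, rfl⟩ := hx
    have e1 := exp_log (v.ne_zero_iff.2 x0)
    have e2 := ab_le hD hw1.le p
    change aeval w p ≠ 0 at x0
    change exp (log (v (aeval w p))) = v (aeval w p) at e1
    change _ ∣ log (v (aeval w p))
    rw [← e1, ← exp_zero, exp_le_exp] at e2
    have := ab_val hD a0 (w0 := w0) hc0 hm hw1.le (h := X ^ e - C u)
      (by rw [map_sub, map_pow, aeval_X, aeval_C, ← hwe]; exact sub_self _)
      (by simp [derivative_X_pow, hchar e e0.ne', hw1]) (-log (v (aeval w p))).toNat p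
      (by rw [← e1, log_exp]; congr 1; omega)
    rw [← Int.natCast_dvd_natCast, Int.toNat_of_nonneg (by omega), dvd_neg] at this
    exact this
  let E := Algebra.adjoin D {w}
  have hA := ab_adj (E := E) t0 m0 ht
    (b := algebraMap D E w0 * ⟨w, Algebra.self_mem_adjoin_singleton D w⟩)
    ((mul_div_cancel₀ _ c0n).symm.trans (by rw [← hw]; rfl)) fun x hx => by
      rw [← Nat.cast_mul, ← ham]
      exact hE _ x.2 hx
  have hin : ∀ c : D, algebraMap D L1 c ∈ Algebra.adjoin E {τ} := fun c =>
    (Algebra.adjoin E {τ}).algebraMap_mem (algebraMap D E c)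
  have hall : ∀ x ∈ Algebra.adjoin L {τ}, ∃ c : D, c.1 ≠ 0 ∧
      algebraMap D L1 c * x ∈ Algebra.adjoin E {τ} := fun x hx => by
    induction hx using Algebra.adjoin_induction with
    | mem x hx => exact ⟨1, one_ne_zero, mul_mem (hin 1) (Algebra.subset_adjoin hx)⟩
    | algebraMap c =>
      by_cases h : v (algebraMap L L1 c) ≤ 1
      · exact ⟨1, one_ne_zero, mul_mem (hin 1) (hin ⟨c, h⟩)⟩
      · have z : c ≠ 0 := fun z => h (by rw [z, map_zero, map_zero]; exact zero_le_one)
        refine ⟨⟨c⁻¹, show v _ ≤ 1 from ?_⟩, inv_ne_zero z, ?_⟩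
        · rw [map_inv₀, map_inv₀]
          exact inv_le_one_of_one_le₀ (not_le.1 h).le
        · change algebraMap L L1 c⁻¹ * _ ∈ _
          rw [← map_mul, inv_mul_cancel₀ z, map_one]
          exact one_mem _
    | add x y _ _ hx hy =>
      obtain ⟨c, c1, c2⟩ := hx
      obtain ⟨d, d1, d2⟩ := hy
      refine ⟨c * d, mul_ne_zero c1 d1, ?_⟩
      rw [map_mul, mul_add, mul_assoc _ _ y, mul_comm (algebraMap D L1 c), mul_assoc _ _ x]
      exact add_mem (mul_mem (hin d) c2) (mul_mem (hin c) d2)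
    | mul x y _ _ hx hy =>
      obtain ⟨c, c1, c2⟩ := hx
      obtain ⟨d, d1, d2⟩ := hy
      refine ⟨c * d, mul_ne_zero c1 d1, ?_⟩
      rw [map_mul, mul_mul_mul_comm]
      exact mul_mem c2 d2
  obtain ⟨π, hπ⟩ := hsurj
  obtain ⟨c, c1, c2⟩ := hall π (hgen ▸ Algebra.mem_top)
  have cn : algebraMap D L1 c ≠ 0 := (map_ne_zero (algebraMap L L1)).2 c1
  have h1 := hA _ c2 (mul_ne_zero cn (v.ne_zero_iff.1 (hπ ▸ exp_ne_zero)))
  rw [map_mul, hπ, log_mul (v.ne_zero_iff.2 cn) exp_ne_zero, log_exp,
    dvd_add_right (hA _ (hin c) cn), dvd_neg] at h1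
  rw [ht, Int.eq_one_of_dvd_one (by omega) h1]

end Pool.Agent.MP_855f4c_ag.LP

namespace Pool.Agent.MP_855f4c_ag.LP

open WithZero

lemma fr_coeff {S F L : Type*} [CommRing S] [IsDomain S] [IsIntegrallyClosed S] [Field F]
    [Algebra S F] [IsFractionRing S F] [Field L] [Algebra F L] [Algebra S L] [IsScalarTower S F L]
    {x : L} (hx : IsIntegral F x) {r : S} (hr : r ≠ 0) (h : IsIntegral S (r • x)) (i : ℕ) :
    ∃ u : S, algebraMap S F u =
      (minpoly F x).coeff i * algebraMap S F r ^ ((minpoly F x).natDegree - i) := by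
  have h1 := minpoly.isIntegrallyClosed_eq_field_fractions' F h
  rw [← algebraMap_smul F r x, IsIntegrallyClosed.minpoly_smul
    ((map_ne_zero_iff _ (IsFractionRing.injective S F)).2 hr) hx] at h1
  exact ⟨_, by rw [← Polynomial.coeff_scaleRoots, h1, Polynomial.coeff_map]⟩

lemma fr_int {S F L : Type*} [CommRing S] [IsDomain S] [IsIntegrallyClosed S] [Field F]
    [Algebra S F] [IsFractionRing S F] [Field L] [Algebra F L] [Algebra S L] [IsScalarTower S F L]
    {x : L} (hx : IsIntegral F x) {τ r : S} (hτ : Prime τ) (hr : ¬ τ ∣ r)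
    (h1 : IsIntegral S (τ • x)) (h2 : IsIntegral S (r • x)) : IsIntegral S x := by
  have inj := IsFractionRing.injective S F
  have hl : minpoly F x ∈ Polynomial.lifts (algebraMap S F) := by
    refine (Polynomial.lifts_iff_coeff_lifts _).2 fun i => ?_
    obtain ⟨u, hu⟩ := fr_coeff hx hτ.ne_zero h1 i
    obtain ⟨v, hv⟩ := fr_coeff hx (fun h : r = 0 => hr (h.symm ▸ dvd_zero τ)) h2 i
    generalize (minpoly F x).natDegree - i = k at hu hv
    have e : u * r ^ k = τ ^ k * v := inj (by
      rw [map_mul, map_mul, map_pow, map_pow, hu, hv]; ring)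
    obtain ⟨w, rfl⟩ := hτ.pow_dvd_of_dvd_mul_right k (fun h => hr (hτ.dvd_of_dvd_pow h)) ⟨v, e⟩
    refine ⟨w, mul_right_cancel₀ (pow_ne_zero k ((map_ne_zero_iff _ inj).2 hτ.ne_zero)) ?_⟩
    rw [← hu, map_mul, map_pow, mul_comm]
  obtain ⟨q, hq, -, hm⟩ := Polynomial.lifts_and_natDegree_eq_and_monic hl (minpoly.monic hx)
  exact ⟨q, hm, by
    rw [← Polynomial.aeval_def, ← Polynomial.aeval_map_algebraMap F, hq, minpoly.aeval]⟩

/-- The integral closure of a two-dimensional regular local ring is free. -/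
lemma free_ic {S F L : Type*} [CommRing S] [IsDomain S] [IsNoetherianRing S] [IsIntegrallyClosed S]
    [IsLocalRing S] [Field F] [Algebra S F] [IsFractionRing S F] [CharZero F] [Field L]
    [Algebra F L] [Algebra S L] [IsScalarTower S F L] [FiniteDimensional F L] (τ : S)
    (hτ : Prime τ) [IsPrincipalIdealRing (S ⧸ Ideal.span {τ})] :
    Module.Free S (integralClosure S L) := by
  have := IsIntegralClosure.finite S F L (integralClosure S L)
  have := Module.finitePresentation_of_finite S (integralClosure S L)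
  have t0 : algebraMap S L τ ≠ 0 := by
    rw [IsScalarTower.algebraMap_apply S F L]
    exact (map_ne_zero _).2 ((map_ne_zero_iff _ (IsFractionRing.injective S F)).2 hτ.ne_zero)
  have : (Ideal.span {τ}).IsPrime := (Ideal.span_singleton_prime hτ.ne_zero).2 hτ
  refine (Module.free_quotSMulTop_iff_free (x := τ) S _ ?_ fun a b h => ?_).1 ?_
  · rw [IsLocalRing.jacobson_eq_maximalIdeal _ bot_ne_top]
    exact hτ.not_isUnit
  · have h' : τ • (a : L) = τ • (b : L) := congrArg Subtype.val h
    rw [Algebra.smul_def, Algebra.smul_def] at h'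
    exact Subtype.ext (mul_left_cancel₀ t0 h')
  have := Module.Finite.of_restrictScalars_finite S (S ⧸ Ideal.span {τ})
    (QuotSMulTop τ (integralClosure S L))
  have : Module.IsTorsionFree (S ⧸ Ideal.span {τ}) (QuotSMulTop τ (integralClosure S L)) := by
    refine .of_smul_eq_zero fun r b h => ?_
    obtain ⟨r, rfl⟩ := Ideal.Quotient.mk_surjective r
    obtain ⟨b, rfl⟩ := Submodule.Quotient.mk_surjective _ b
    refine or_iff_not_imp_left.2 fun hr => ?_
    rw [Ideal.Quotient.eq_zero_iff_mem, Ideal.mem_span_singleton] at hr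
    have h' : Submodule.Quotient.mk (r • b) = (0 : QuotSMulTop τ (integralClosure S L)) := h
    rw [Submodule.Quotient.mk_eq_zero, Submodule.mem_smul_pointwise_iff_exists] at h' ⊢
    obtain ⟨c, -, hc⟩ := h'
    have hc' : τ • (c : L) = r • (b : L) := congrArg Subtype.val hc
    have e1 : τ • ((b : L) / algebraMap S L τ) = b := by
      rw [Algebra.smul_def, mul_div_cancel₀ _ t0]
    have e2 : r • ((b : L) / algebraMap S L τ) = c := by
      rw [← smul_div_assoc, ← hc', Algebra.smul_def, mul_div_cancel_left₀ _ t0]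
    exact ⟨⟨_, fr_int (Algebra.IsIntegral.isIntegral (R := F) _) hτ hr (e1.symm ▸ b.2)
      (e2.symm ▸ c.2)⟩, trivial, Subtype.ext e1⟩
  infer_instance

end Pool.Agent.MP_855f4c_ag.LP

namespace Pool.Agent.MP_855f4c_ag.LP

open WithZero

/-- Ramification index one at every prime and residue characteristic zero give unramified. -/
lemma unr_dvr {O F L : Type*} [CommRing O] [IsDomain O] [IsDiscreteValuationRing O] [Field F]
    [Algebra O F] [IsFractionRing O F] [Field L] [Algebra F L] [Algebra O L] [IsScalarTower O F L]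
    [FiniteDimensional F L] (τ : O) (hτ : Irreducible τ)
    (hchar : ∀ j : ℕ, j ≠ 0 → IsUnit (j : O))
    (h : ∀ v : Valuation L ℤᵐ⁰, (∃ w, v w = exp (-1)) → (∀ o : O, v (algebraMap O L o) ≤ 1) →
      v (algebraMap O L τ) < 1 → v (algebraMap O L τ) = exp (-1)) :
    Algebra.FormallyUnramified O (integralClosure O L) ∧ Module.Finite O (integralClosure O L) := by
  have : CharZero O := charZero_of_inj_zero fun j hj => by
    by_contra h0
    exact (hchar j h0).ne_zero hj
  have : CharZero F := charZero_of_injective_algebraMap (IsFractionRing.injective O F)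
  have : IsDedekindDomain (integralClosure O L) := integralClosure.isDedekindDomain O F L
  have hfin : Module.Finite O (integralClosure O L) := IsIntegralClosure.finite O F L _
  have : IsFractionRing (integralClosure O L) L :=
    integralClosure.isFractionRing_of_finite_extension F L
  have hinj : Function.Injective (algebraMap O (integralClosure O L)) := by
    intro a b hab
    have h1 := congrArg (algebraMap (integralClosure O L) L) hab
    rw [← IsScalarTower.algebraMap_apply, ← IsScalarTower.algebraMap_apply,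
      IsScalarTower.algebraMap_apply O F L, IsScalarTower.algebraMap_apply O F L] at h1
    exact IsFractionRing.injective O F ((algebraMap F L).injective h1)
  have : FaithfulSMul O (integralClosure O L) :=
    (faithfulSMul_iff_algebraMap_injective _ _).mpr hinj
  refine ⟨Algebra.formallyUnramified_iff_forall.mpr fun q => ?_, hfin⟩
  by_cases hq : q.1 = ⊥
  · have := Algebra.isUnramifiedAt_bot (R := O) (S := integralClosure O L)
    convert this
  have hq2 := q.2
  let p₀ : Ideal O := q.1.under O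
  let := Localization.AtPrime.algebraOfLiesOver p₀ q.1
  have hp0 : p₀ ≠ ⊥ := fun h0 => hq (Ideal.eq_bot_of_comap_eq_bot h0)
  have hp1 : p₀ = IsLocalRing.maximalIdeal O :=
    IsLocalRing.eq_maximalIdeal (Ideal.IsPrime.isMaximal inferInstance hp0)
  have hτp : τ ∈ p₀ := by
    rw [hp1]; exact hτ.not_isUnit
  rw [Algebra.isUnramifiedAt_iff_map_eq O p₀ q.1]
  constructor
  · have : CharZero p₀.ResidueField := charZero_of_inj_zero fun j hj => by
      by_contra h0
      have := (hchar j h0).map (algebraMap O p₀.ResidueField)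
      rw [map_natCast] at this
      exact this.ne_zero hj
    have : Algebra.IsAlgebraic p₀.ResidueField q.1.ResidueField := inferInstance
    exact Algebra.IsAlgebraic.isSeparable_of_perfectField
  · rw [← Ideal.IsDedekindDomain.ramificationIdx'_eq_one_iff hq Ideal.map_comap_le,
      ← not_ne_iff, Ideal.ramificationIdx'_ne_one_iff Ideal.map_comap_le]
    intro H
    let w : IsDedekindDomain.HeightOneSpectrum (integralClosure O L) := ⟨q.1, hq2, hq⟩
    have e : ∀ o : O, w.valuation L (algebraMap O L o) =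
        w.intValuation (algebraMap O (integralClosure O L) o) := fun o => by
      rw [IsScalarTower.algebraMap_apply O (integralClosure O L) L]
      exact w.valuation_of_algebraMap _
    have h1 := h (w.valuation L) (w.valuation_exists_uniformizer L)
      (fun o => by rw [e]; exact w.intValuation_le_one _)
      (by rw [e]; exact (w.intValuation_lt_one_iff_mem _).mpr hτp)
    have h2 := (w.intValuation_le_pow_iff_mem _ 2).mpr (H (Ideal.mem_map_of_mem _ hτp))
    rw [← e, h1, exp_le_exp] at h2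
    norm_num at h2

end Pool.Agent.MP_855f4c_ag.LP

namespace Pool.Agent.MP_855f4c_ag.LP

open TensorProduct

/-- An unramified order over an intermediate ring gives an element of the Noether different. -/
lemma diff_elem {S S' F L : Type*} [CommRing S] [IsDomain S] [CommRing S'] [Field F] [Algebra S F]
    [IsFractionRing S F] [Field L] [Algebra F L] [Algebra S L] [IsScalarTower S F L]
    [FiniteDimensional F L] [Module.Free S (integralClosure S L)] [Algebra S' F] [Algebra S' L]
    [IsScalarTower S' F L] (C : Subalgebra S' L) [Module.Finite S' C]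
    [Algebra.FormallyUnramified S' C] (hC : Submodule.span F (C : Set L) = ⊤) (P : Submonoid S)
    (hP : ∀ c ∈ C, ∃ s ∈ P, IsIntegral S (algebraMap S L s * c)) :
    ∃ s ∈ P, ∃ m : integralClosure S L ⊗[S] integralClosure S L,
      (∀ b : integralClosure S L, ((1 : integralClosure S L) ⊗ₜ b - b ⊗ₜ 1) * m = 0) ∧
        Algebra.TensorProduct.lmul' S m = algebraMap S (integralClosure S L) s := by
  let B := integralClosure S L
  let iL : L →ₐ[F] L ⊗[F] L := Algebra.TensorProduct.includeLeft
  let iR : L →ₐ[F] L ⊗[F] L := Algebra.TensorProduct.includeRight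
  let ι : B ⊗[S] B →ₐ[S] L ⊗[F] L := Algebra.TensorProduct.lift
    ((iL.restrictScalars S).comp B.val) ((iR.restrictScalars S).comp B.val) fun _ _ => .all _ _
  let κ : C ⊗[S'] C →ₐ[S'] L ⊗[F] L := Algebra.TensorProduct.lift
    ((iL.restrictScalars S').comp C.val) ((iR.restrictScalars S').comp C.val) fun _ _ => .all _ _
  have hι : ∀ x y : B, ι (x ⊗ₜ y) = (x : L) ⊗ₜ (y : L) := fun x y => by simp [ι, iL, iR]
  have hκ : ∀ x y : C, κ (x ⊗ₜ y) = (x : L) ⊗ₜ (y : L) := fun x y => by simp [κ, iL, iR]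
  have inj : Function.Injective ι := by
    have h1 := TensorProduct.map_injective_of_flat_flat_of_isDomain B.val.toLinearMap
      B.val.toLinearMap Subtype.val_injective Subtype.val_injective
    have h2 : ∀ x, IsLocalization.moduleTensorEquiv (nonZeroDivisors S) F L L (ι x) =
        TensorProduct.map B.val.toLinearMap B.val.toLinearMap x := fun x => by
      induction x with
      | zero => simp
      | tmul x y => rw [hι]; rfl
      | add x y hx hy => simp only [map_add, hx, hy]
    intro x y h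
    exact h1 (by rw [← h2, ← h2, h])
  have mι : ∀ x, Algebra.TensorProduct.lmul' F (ι x) =
      (Algebra.TensorProduct.lmul' S x : B) := fun x => by
    induction x with
    | zero => simp
    | tmul x y => rw [hι]; simp
    | add x y hx hy => simp only [map_add, hx, hy, Subalgebra.coe_add]
  have mκ : ∀ x, Algebra.TensorProduct.lmul' F (κ x) =
      (Algebra.TensorProduct.lmul' S' x : C) := fun x => by
    induction x with
    | zero => simp
    | tmul x y => rw [hκ]; simp
    | add x y hx hy => simp only [map_add, hx, hy, Subalgebra.coe_add]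
  have cl : ∀ t, ∃ s ∈ P, ∃ m, ι m = algebraMap S F s • κ t := fun t => by
    induction t with
    | zero => exact ⟨1, P.one_mem, 0, by simp⟩
    | tmul x y =>
      obtain ⟨s, hs, h⟩ := hP x x.2
      obtain ⟨s', hs', h'⟩ := hP y y.2
      refine ⟨s * s', P.mul_mem hs hs', (⟨_, h⟩ : B) ⊗ₜ (⟨_, h'⟩ : B), ?_⟩
      rw [hι, hκ, map_mul, ← smul_tmul_smul]
      simp only [Algebra.smul_def, ← IsScalarTower.algebraMap_apply]
    | add x y hx hy =>
      obtain ⟨s, hs, m, h⟩ := hx
      obtain ⟨s', hs', m', h'⟩ := hy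
      refine ⟨s * s', P.mul_mem hs hs', s' • m + s • m', ?_⟩
      rw [map_add, map_smul, map_smul, h, h', map_add, smul_add, map_mul,
        ← algebraMap_smul F s', ← algebraMap_smul F s, smul_smul, smul_smul, mul_comm]
  obtain ⟨t, ht, ht1⟩ :=
    (Algebra.FormallyUnramified.iff_exists_tensorProduct (R := S') (S := C)).1 inferInstance
  have an : ∀ l : L, ((1 : L) ⊗ₜ[F] l - l ⊗ₜ[F] 1) * κ t = 0 := fun l => by
    have hl : l ∈ Submodule.span F (C : Set L) := hC ▸ Submodule.mem_top
    induction hl using Submodule.span_induction with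
    | mem c hc =>
      have := congrArg κ (ht ⟨c, hc⟩)
      rwa [map_mul, map_sub, hκ, hκ, map_zero] at this
    | zero => simp
    | add x y _ _ hx hy => rw [tmul_add, add_tmul, add_sub_add_comm, add_mul, hx, hy, add_zero]
    | smul a x _ hx => rw [tmul_smul, ← smul_tmul', ← smul_sub, smul_mul_assoc, hx, smul_zero]
  obtain ⟨s, hs, m, hm⟩ := cl t
  refine ⟨s, hs, m, fun b => inj ?_, Subtype.ext ?_⟩
  · rw [map_mul, map_sub, hι, hι, hm, mul_smul_comm, map_zero]
    exact (congrArg _ (an b)).trans (smul_zero _)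
  · rw [← mι, hm, map_smul, mκ, ht1, Subalgebra.coe_one, Algebra.smul_def, mul_one,
      ← IsScalarTower.algebraMap_apply]
    rfl

/-- If the Noether different contains `τ ^ k` and an element prime to `τ`, it is everything. -/
lemma unr_of_two {S B : Type*} [CommRing S] [IsDomain S] [CommRing B] [Algebra S B]
    [Module.Free S B] [Module.Finite S B] (τ s : S) (hτ : Prime τ) (hs : ¬ τ ∣ s) (k : ℕ)
    (m m' : B ⊗[S] B) (hm : ∀ b : B, ((1 : B) ⊗ₜ b - b ⊗ₜ 1) * m = 0)
    (hm' : ∀ b : B, ((1 : B) ⊗ₜ b - b ⊗ₜ 1) * m' = 0)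
    (h : Algebra.TensorProduct.lmul' S m = algebraMap S B (τ ^ k))
    (h' : Algebra.TensorProduct.lmul' S m' = algebraMap S B s) :
    Algebra.FormallyUnramified S B := by
  have key : ∀ n : B ⊗[S] B, (∀ b : B, ((1 : B) ⊗ₜ b - b ⊗ₜ 1) * n = 0) →
      ∀ x, x * n = (Algebra.TensorProduct.lmul' S x ⊗ₜ (1 : B)) * n := fun n hn x => by
    induction x with
    | zero => simp
    | tmul x y =>
      have := hn y
      rw [sub_mul, sub_eq_zero] at this
      rw [show x ⊗ₜ[S] y = (x ⊗ₜ (1 : B)) * ((1 : B) ⊗ₜ y) by simp, mul_assoc, this, ← mul_assoc]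
      simp
    | add x y hx hy => rw [add_mul, hx, hy, map_add, add_tmul, add_mul]
  have e : τ ^ k • m' = s • m := by
    have e1 := key m' hm' m
    have e2 := key m hm m'
    rw [h, ← Algebra.TensorProduct.algebraMap_apply, ← Algebra.smul_def] at e1
    rw [h', ← Algebra.TensorProduct.algebraMap_apply, ← Algebra.smul_def] at e2
    rw [← e1, ← e2, mul_comm]
  let b := Module.Free.chooseBasis S (B ⊗[S] B)
  have d : ∀ i, τ ^ k ∣ b.repr m i := fun i => by
    have := congrArg (fun x => b.repr x i) e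
    simp only [map_smul, Finsupp.smul_apply, smul_eq_mul] at this
    exact hτ.pow_dvd_of_dvd_mul_left k hs ⟨_, this.symm⟩
  choose c hc using d
  have hn : m = τ ^ k • ∑ i, c i • b i := by
    rw [Finset.smul_sum, ← b.sum_repr m]
    simp only [hc, mul_smul]
  have h0 : τ ^ k ≠ 0 := pow_ne_zero k hτ.ne_zero
  refine Algebra.FormallyUnramified.iff_exists_tensorProduct.2 ⟨∑ i, c i • b i, fun x => ?_, ?_⟩
  · have := hm x
    rw [hn, mul_smul_comm] at this
    exact (smul_eq_zero.1 this).resolve_left h0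
  · rw [hn, map_smul, Algebra.algebraMap_eq_smul_one] at h
    exact smul_right_injective B h0 h

end Pool.Agent.MP_855f4c_ag.LP

namespace Pool.Agent.MP_855f4c_ag.LP

open TensorProduct WithZero

lemma pu_hP {S S' L : Type*} [CommRing S] [CommRing S'] [CommRing L] [Algebra S S']
    (P : Submonoid S) [IsLocalization P S'] [Algebra S L] [Algebra S' L] [IsScalarTower S S' L]
    (c : L) (hc : IsIntegral S' c) : ∃ s ∈ P, IsIntegral S (algebraMap S L s * c) := by
  obtain ⟨m, hm⟩ := IsIntegral.exists_multiple_integral_of_isLocalization P c hc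
  refine ⟨m, m.2, ?_⟩
  rwa [Submonoid.smul_def, Algebra.smul_def] at hm

lemma pu_int {S' L : Type*} [CommRing S'] [CommRing L] [Algebra S' L] (C : Subalgebra S' L)
    [Module.Finite S' C] (c : L) (hc : c ∈ C) : IsIntegral S' c :=
  (Algebra.IsIntegral.isIntegral (R := S') (⟨c, hc⟩ : C)).map C.val

lemma pu_one {S Λ C S₁ F L : Type} [CommRing S] [CommRing Λ] [Algebra S Λ] (T : S)
    [IsLocalization.Away T Λ] [CommRing C] [Algebra Λ C] [Module.Finite Λ C]
    [Algebra.FormallyUnramified Λ C] [CommRing S₁] [IsDomain S₁] [Field F] [Algebra S₁ F]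
    [IsFractionRing S₁ F] [Field L] [Algebra F L] [Algebra S₁ L] [IsScalarTower S₁ F L]
    [FiniteDimensional F L] [Module.Free S₁ (integralClosure S₁ L)] (σ : S →+* S₁) (τ : S₁)
    (hτ : τ ≠ 0) (n : ℕ) (hT : σ T = τ ^ n) (s : C →+* L)
    (hs : ∀ x : S, s (algebraMap Λ C (algebraMap S Λ x)) = algebraMap S₁ L (σ x))
    (hspan : ∀ E : Subalgebra F L, (∀ c, s c ∈ E) → algebraMap S₁ L τ ∈ E → E = ⊤) :
    (∃ (k : ℕ) (m : integralClosure S₁ L ⊗[S₁] integralClosure S₁ L),
      (∀ b : integralClosure S₁ L, ((1 : integralClosure S₁ L) ⊗ₜ b - b ⊗ₜ 1) * m = 0) ∧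
        Algebra.TensorProduct.lmul' S₁ m = algebraMap S₁ (integralClosure S₁ L) (τ ^ k)) ∧
      ∀ c, ∃ k : ℕ, IsIntegral S₁ (algebraMap S₁ L (τ ^ k) * s c) := by
  let A := Localization.Away τ
  have hu : IsUnit (algebraMap S₁ F τ) :=
    IsUnit.mk0 _ ((map_ne_zero_iff _ (IsFractionRing.injective S₁ F)).2 hτ)
  let : Algebra A F := (IsLocalization.Away.lift τ hu).toAlgebra
  let : Algebra A L := ((algebraMap F L).comp (algebraMap A F)).toAlgebra
  have : IsScalarTower A F L := .of_algebraMap_eq fun _ => rfl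
  have hA : ∀ x : S₁, algebraMap A L (algebraMap S₁ A x) = algebraMap S₁ L x := fun x => by
    change algebraMap F L (IsLocalization.Away.lift τ hu (algebraMap S₁ A x)) = _
    rw [IsLocalization.Away.lift_eq, ← IsScalarTower.algebraMap_apply]
  have : IsScalarTower S₁ A L := .of_algebraMap_eq fun x => (hA x).symm
  have hu' : IsUnit (((algebraMap S₁ A).comp σ) T) := by
    rw [RingHom.comp_apply, hT, map_pow]
    exact (IsLocalization.Away.algebraMap_isUnit τ).pow n
  let : Algebra Λ A := (IsLocalization.Away.lift T hu').toAlgebra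
  let : Algebra Λ L := (s.comp (algebraMap Λ C)).toAlgebra
  have : IsScalarTower Λ A L := .of_algebraMap_eq' (by
    refine IsLocalization.ringHom_ext (Submonoid.powers T) (RingHom.ext fun x => ?_)
    change s (algebraMap Λ C (algebraMap S Λ x)) =
      algebraMap A L (IsLocalization.Away.lift T hu' (algebraMap S Λ x))
    rw [IsLocalization.Away.lift_eq, RingHom.comp_apply, hA, hs])
  let s' : C →ₐ[Λ] L := { s with commutes' := fun _ => rfl }
  obtain ⟨h1, h2⟩ := unr_image (B := A) s'
  have hP : ∀ c ∈ Algebra.adjoin A (Set.range s'), ∃ t ∈ Submonoid.powers τ,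
      IsIntegral S₁ (algebraMap S₁ L t * c) := fun c hc => pu_hP _ c (pu_int _ c hc)
  refine ⟨?_, fun c => ?_⟩
  · have hC : Submodule.span F (Algebra.adjoin A (Set.range s') : Set L) = ⊤ := by
      have h := hspan (Algebra.adjoin F (Set.range s')) (fun c => Algebra.subset_adjoin ⟨c, rfl⟩)
        (by rw [IsScalarTower.algebraMap_apply S₁ F L]; exact Subalgebra.algebraMap_mem _ _)
      have h' := Algebra.adjoin_eq_span F (Set.range s')
      rw [h, Algebra.top_toSubmodule] at h'
      refine top_le_iff.1 (h'.le.trans (Submodule.span_mono ?_))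
      exact (Submonoid.closure_le (S := (Algebra.adjoin A (Set.range s')).toSubmonoid)).2
        Algebra.subset_adjoin
    obtain ⟨_, ⟨k, rfl⟩, m, hm⟩ := diff_elem (F := F) _ hC (Submonoid.powers τ) hP
    exact ⟨k, m, hm⟩
  · obtain ⟨_, ⟨k, rfl⟩, h⟩ := hP (s c) (Algebra.subset_adjoin ⟨c, rfl⟩)
    exact ⟨k, h⟩

lemma pu_two {S₁ F L : Type} [CommRing S₁] [IsDomain S₁] [IsNoetherianRing S₁] [Field F]
    [Algebra S₁ F] [IsFractionRing S₁ F] [Field L] [Algebra F L] [Algebra S₁ L]
    [IsScalarTower S₁ F L] [FiniteDimensional F L] [Module.Free S₁ (integralClosure S₁ L)] (τ : S₁)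
    (hτ : Prime τ) (hchar : ∀ j : ℕ, j ≠ 0 → ¬ τ ∣ (j : S₁))
    (hval : ∀ v : Valuation L ℤᵐ⁰, (∃ w, v w = exp (-1)) →
      (∀ x : S₁, ¬ τ ∣ x → v (algebraMap S₁ L x) = 1) → v (algebraMap S₁ L τ) < 1 →
        v (algebraMap S₁ L τ) = exp (-1)) :
    ∃ (t : S₁) (m : integralClosure S₁ L ⊗[S₁] integralClosure S₁ L), ¬ τ ∣ t ∧
      (∀ b : integralClosure S₁ L, ((1 : integralClosure S₁ L) ⊗ₜ b - b ⊗ₜ 1) * m = 0) ∧
        Algebra.TensorProduct.lmul' S₁ m = algebraMap S₁ (integralClosure S₁ L) t := by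
  let P : Ideal S₁ := Ideal.span {τ}
  have : P.IsPrime := (Ideal.span_singleton_prime hτ.ne_zero).2 hτ
  have hmem : ∀ x : S₁, x ∈ P.primeCompl ↔ ¬ τ ∣ x := fun x =>
    not_congr Ideal.mem_span_singleton
  let O := Localization.AtPrime P
  have hu : ∀ y : P.primeCompl, IsUnit (algebraMap S₁ F y) := fun y =>
    IsUnit.mk0 _ ((map_ne_zero_iff _ (IsFractionRing.injective S₁ F)).2 fun h =>
      (hmem y).1 y.2 (h ▸ dvd_zero τ))
  let : Algebra O F := (IsLocalization.lift hu).toAlgebra
  have : IsScalarTower S₁ O F := .of_algebraMap_eq fun x => (IsLocalization.lift_eq hu x).symm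
  let : Algebra O L := ((algebraMap F L).comp (algebraMap O F)).toAlgebra
  have : IsScalarTower O F L := .of_algebraMap_eq fun _ => rfl
  have hO : ∀ x : S₁, algebraMap O L (algebraMap S₁ O x) = algebraMap S₁ L x := fun x => by
    rw [IsScalarTower.algebraMap_apply O F L, ← IsScalarTower.algebraMap_apply S₁ O F,
      ← IsScalarTower.algebraMap_apply]
  have : IsScalarTower S₁ O L := .of_algebraMap_eq fun x => (hO x).symm
  have : IsFractionRing O F :=
    IsFractionRing.isFractionRing_of_isDomain_of_isLocalization P.primeCompl O F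
  have : IsNoetherianRing O := IsLocalization.isNoetherianRing P.primeCompl O inferInstance
  have hmax : IsLocalRing.maximalIdeal O = Ideal.span {algebraMap S₁ O τ} := by
    rw [← Localization.AtPrime.map_eq_maximalIdeal, Ideal.map_span, Set.image_singleton]
  have hτO : algebraMap S₁ O τ ≠ 0 :=
    (map_ne_zero_iff _ (IsLocalization.injective O P.primeCompl_le_nonZeroDivisors)).2 hτ.ne_zero
  have hnf : ¬ IsField O := by
    rw [IsLocalRing.isField_iff_maximalIdeal_eq, hmax, Ideal.span_singleton_eq_bot]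
    exact hτO
  have : IsDiscreteValuationRing O :=
    ((IsDiscreteValuationRing.TFAE O hnf).out 0 4).2
      (show (IsLocalRing.maximalIdeal O).IsPrincipal from ⟨⟨_, hmax⟩⟩)
  have hun : ∀ x : S₁, ¬ τ ∣ x → IsUnit (algebraMap S₁ O x) := fun x hx =>
    IsLocalization.map_units O (⟨x, (hmem x).2 hx⟩ : P.primeCompl)
  obtain ⟨h1, h2⟩ := unr_dvr (F := F) (L := L) (algebraMap S₁ O τ)
    ((IsDiscreteValuationRing.irreducible_iff_uniformizer _).2 hmax)
    (fun j hj => by simpa using hun j (hchar j hj)) (fun v hv hle hlt => by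
      rw [hO] at hlt ⊢
      refine hval v hv (fun x hx => ?_) hlt
      obtain ⟨u, hu⟩ := (hun x hx).exists_right_inv
      have h : v (algebraMap O L (algebraMap S₁ O x)) * v (algebraMap O L u) = 1 := by
        rw [← map_mul, ← map_mul, hu, map_one, map_one]
      rw [← hO]
      refine le_antisymm (hle _) (h.ge.trans ?_)
      exact mul_le_of_le_one_right' (hle _))
  have hC : Submodule.span F (integralClosure O L : Set L) = ⊤ := by
    refine top_le_iff.1 fun x _ => ?_
    obtain ⟨t, ht, h⟩ := pu_hP (S' := F) (nonZeroDivisors O) x (Algebra.IsIntegral.isIntegral x)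
    have h0 : algebraMap O F t ≠ 0 := IsFractionRing.to_map_ne_zero_of_mem_nonZeroDivisors ht
    have hx : x = (algebraMap O F t)⁻¹ • (algebraMap O L t * x) := by
      rw [IsScalarTower.algebraMap_apply O F L, ← Algebra.smul_def, inv_smul_smul₀ h0]
    rw [hx]
    exact Submodule.smul_mem _ _ (Submodule.subset_span h)
  obtain ⟨t, ht, m, hm⟩ := diff_elem (F := F) (integralClosure O L) hC P.primeCompl
    fun c hc => pu_hP _ c hc
  exact ⟨t, m, (hmem t).1 ht, hm⟩

lemma pu_core {S Λ C S₁ F L : Type} [CommRing S] [CommRing Λ] [Algebra S Λ] (T : S)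
    [IsLocalization.Away T Λ] [CommRing C] [Algebra Λ C] [Module.Finite Λ C]
    [Algebra.FormallyUnramified Λ C] [CommRing S₁] [IsDomain S₁] [IsNoetherianRing S₁]
    [IsIntegrallyClosed S₁] [IsLocalRing S₁] [Field F] [Algebra S₁ F]
    [IsFractionRing S₁ F] [Field L] [Algebra F L] [Algebra S₁ L] [IsScalarTower S₁ F L]
    [FiniteDimensional F L] (σ : S →+* S₁) (τ : S₁)
    (hτ : Prime τ) (n : ℕ) (hT : σ T = τ ^ n) (hchar : ∀ j : ℕ, j ≠ 0 → ¬ τ ∣ (j : S₁))
    [IsPrincipalIdealRing (S₁ ⧸ Ideal.span {τ})] (s : C →+* L)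
    (hs : ∀ x : S, s (algebraMap Λ C (algebraMap S Λ x)) = algebraMap S₁ L (σ x))
    (hspan : ∀ E : Subalgebra F L, (∀ c, s c ∈ E) → algebraMap S₁ L τ ∈ E → E = ⊤)
    (hval : ∀ v : Valuation L ℤᵐ⁰, (∃ w, v w = exp (-1)) →
      (∀ x : S₁, ¬ τ ∣ x → v (algebraMap S₁ L x) = 1) → v (algebraMap S₁ L τ) < 1 →
        v (algebraMap S₁ L τ) = exp (-1)) :
    ∃ (B : Type) (_ : CommRing B) (_ : IsDomain B) (_ : Algebra S₁ B) (_ : Module.Finite S₁ B)
      (_ : Algebra.Etale S₁ B) (j : C →+* Localization.Away (algebraMap S₁ B τ)),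
      Function.Injective (algebraMap S₁ B) ∧ ∀ x : S,
        j (algebraMap Λ C (algebraMap S Λ x)) = algebraMap B _ (algebraMap S₁ B (σ x)) := by
  have : CharZero S₁ := charZero_of_inj_zero fun j hj => by
    by_contra h
    exact hchar j h (hj ▸ dvd_zero τ)
  have : CharZero F := IsFractionRing.charZero_of_isFractionRing S₁
  have := free_ic (F := F) (L := L) τ hτ
  let B := integralClosure S₁ L
  have : Module.Finite S₁ B := IsIntegralClosure.finite S₁ F L B
  obtain ⟨⟨k, m, hm, hk⟩, hint⟩ := pu_one (F := F) T σ τ hτ.ne_zero n hT s hs hspan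
  obtain ⟨t, m', ht, hm', hk'⟩ := pu_two (F := F) τ hτ hchar hval
  have : Algebra.FormallyUnramified S₁ B := unr_of_two τ t hτ ht k m m' hm hm' hk hk'
  have : Algebra.FinitePresentation S₁ B := Algebra.FinitePresentation.of_finiteType.1 inferInstance
  have hinj : Function.Injective (algebraMap S₁ L) := by
    rw [IsScalarTower.algebraMap_eq S₁ F L]
    exact (algebraMap F L).injective.comp (IsFractionRing.injective S₁ F)
  have h0 : algebraMap S₁ L τ ≠ 0 := (map_ne_zero_iff _ hinj).2 hτ.ne_zero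
  have hu : IsUnit (B.val.toRingHom (algebraMap S₁ B τ)) := IsUnit.mk0 _ h0
  let g : Localization.Away (algebraMap S₁ B τ) →+* L := IsLocalization.Away.lift _ hu
  have hg : ∀ b : B, g (algebraMap B _ b) = b := fun b => IsLocalization.Away.lift_eq _ hu b
  have hgi : Function.Injective g := by
    refine (injective_iff_map_eq_zero g).2 fun z hz => ?_
    obtain ⟨i, b, hb⟩ := IsLocalization.Away.surj (algebraMap S₁ B τ) z
    have hb' := congrArg g hb
    rw [map_mul, hz, zero_mul, hg] at hb'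
    have hb0 : b = 0 := Subtype.ext hb'.symm
    rw [hb0, map_zero] at hb
    exact (((IsLocalization.Away.algebraMap_isUnit (algebraMap S₁ B τ)).pow i).mul_left_eq_zero).1
      hb
  have hr : ∀ c, s c ∈ g.range := fun c => by
    obtain ⟨i, hi⟩ := hint c
    obtain ⟨u, hu⟩ := ((IsLocalization.Away.algebraMap_isUnit
      (S := Localization.Away (algebraMap S₁ B τ)) (algebraMap S₁ B τ)).pow i).exists_left_inv
    refine ⟨u * algebraMap B _ (⟨_, hi⟩ : B), ?_⟩
    have h := congrArg g hu
    rw [map_mul, map_pow, hg, map_one] at h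
    rw [map_mul, hg]
    change g u * (algebraMap S₁ L (τ ^ i) * s c) = _
    change g u * algebraMap S₁ L τ ^ i = 1 at h
    rw [map_pow, ← mul_assoc, h, one_mul]
  let e := RingEquiv.ofBijective g.rangeRestrict
    ⟨fun a b h => hgi (congrArg Subtype.val h), g.rangeRestrict_surjective⟩
  refine ⟨B, inferInstance, inferInstance, inferInstance, inferInstance,
    Algebra.Etale.of_formallyUnramified_of_flat,
    e.symm.toRingHom.comp (s.codRestrict g.range hr), fun a b h => hinj (congrArg Subtype.val h),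
    fun x => ?_⟩
  change e.symm _ = _
  rw [RingEquiv.symm_apply_eq]
  exact Subtype.ext ((hs x).trans (hg (algebraMap S₁ B (σ x))).symm)

/-- Purity after a Kummer base change, abstract form. -/
lemma pur {S Λ C : Type} [CommRing S] [IsDomain S] [CommRing Λ] [Algebra S Λ] (T : S) (hT : T ≠ 0)
    [IsLocalization.Away T Λ] [CommRing C] [IsDomain C] [Algebra Λ C] [Module.Finite Λ C]
    [Algebra.FormallyUnramified Λ C] (hinj : Function.Injective (algebraMap Λ C)) :
    ∃ n : ℕ, n ≠ 0 ∧ ∀ (S₁ : Type) [CommRing S₁] [IsDomain S₁] [IsNoetherianRing S₁]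
      [IsIntegrallyClosed S₁] [IsLocalRing S₁] (σ : S →+* S₁) (τ : S₁), Function.Injective σ →
      Prime τ → σ T = τ ^ n → (∀ f, f ∈ Subring.closure (Set.range σ ∪ {τ})) →
      (∀ f : S, f ≠ 0 → ∃ (i : ℕ) (f' : S), f = T ^ i * f' ∧ ¬ τ ∣ σ f') →
      (∀ j : ℕ, j ≠ 0 → ¬ τ ∣ (j : S₁)) → IsPrincipalIdealRing (S₁ ⧸ Ideal.span {τ}) →
      ∃ (B : Type) (_ : CommRing B) (_ : IsDomain B) (_ : Algebra S₁ B) (_ : Module.Finite S₁ B)
        (_ : Algebra.Etale S₁ B) (j : C →+* Localization.Away (algebraMap S₁ B τ)),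
        Function.Injective (algebraMap S₁ B) ∧ ∀ s : S,
          j (algebraMap Λ C (algebraMap S Λ s)) = algebraMap B _ (algebraMap S₁ B (σ s)) := by
  have hTS : Submonoid.powers T ≤ nonZeroDivisors S := powers_le_nonZeroDivisors_of_noZeroDivisors hT
  have : IsDomain Λ := hinj.isDomain _
  have : FaithfulSMul Λ C := (faithfulSMul_iff_algebraMap_injective Λ C).2 hinj
  let F := FractionRing Λ
  let L := FractionRing C
  let : Algebra F L := FractionRing.liftAlgebra Λ L
  have : FiniteDimensional F L := inferInstance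
  have : FaithfulSMul S F := (faithfulSMul_iff_algebraMap_injective S F).2 (by
    rw [IsScalarTower.algebraMap_eq S Λ F]
    exact (IsFractionRing.injective Λ F).comp (IsLocalization.injective Λ hTS))
  have : IsFractionRing S F := IsFractionRing.of_field S F fun z => by
    obtain ⟨a, b, -, rfl⟩ := IsFractionRing.div_surjective (A := Λ) z
    obtain ⟨i, a', ha⟩ := IsLocalization.Away.surj T a
    obtain ⟨i', b', hb⟩ := IsLocalization.Away.surj T b
    have h0 : algebraMap Λ F (algebraMap S Λ T) ≠ 0 :=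
      ((IsLocalization.Away.algebraMap_isUnit T).map _).ne_zero
    refine ⟨a' * T ^ i', b' * T ^ i, ?_⟩
    simp only [IsScalarTower.algebraMap_apply S Λ F, map_mul, map_pow, ← ha, ← hb]
    rw [mul_assoc, mul_assoc, mul_comm (_ ^ i') (_ ^ i),
      mul_div_mul_right _ _ (mul_ne_zero (pow_ne_zero _ h0) (pow_ne_zero _ h0))]
  have hFL : ∀ x : S, algebraMap F L (algebraMap S F x) =
      algebraMap C L (algebraMap Λ C (algebraMap S Λ x)) := fun x => by
    rw [IsScalarTower.algebraMap_apply S Λ F, ← IsScalarTower.algebraMap_apply Λ F L,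
      IsScalarTower.algebraMap_apply Λ C L]
  refine ⟨(Module.finrank F L).factorial, Nat.factorial_ne_zero _, ?_⟩
  generalize hn : (Module.finrank F L).factorial = n
  have hn0 : n ≠ 0 := hn ▸ Nat.factorial_ne_zero _
  intro S₁ _ _ _ _ _ σ τ hσ hτ hστ hcl hf hchar hpid
  let Ω := AlgebraicClosure L
  let x : S →+* Ω := (algebraMap L Ω).comp ((algebraMap F L).comp (algebraMap S F))
  have hx : Function.Injective x :=
    (algebraMap L Ω).injective.comp ((algebraMap F L).injective.comp (IsFractionRing.injective S F))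
  have hσi : σ.IsIntegral := fun f => by
    let := σ.toAlgebra
    refine (Subring.closure_le (t := (integralClosure S S₁).toSubring)).2 ?_ (hcl f)
    rintro _ (⟨a, rfl⟩ | rfl)
    · exact isIntegral_algebraMap (x := a)
    · refine IsIntegral.of_pow (Nat.pos_of_ne_zero hn0) ?_
      rw [← hστ]
      exact isIntegral_algebraMap (x := T)
  obtain ⟨y, hy⟩ := ext_int σ hσi x (by rw [(RingHom.injective_iff_ker_eq_bot σ).1 hσ]; exact bot_le)
  have hyi : Function.Injective y := by
    let := σ.toAlgebra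
    have : Algebra.IsIntegral S S₁ := ⟨hσi⟩
    refine (RingHom.injective_iff_ker_eq_bot y).2 (Ideal.eq_bot_of_comap_eq_bot (R := S) ?_)
    refine eq_bot_iff.2 fun a ha => hx ?_
    rw [map_zero, ← hy]
    exact ha
  let L₁ := IntermediateField.adjoin L {y τ}
  have hyL : ∀ f, y f ∈ L₁ := fun f => by
    refine (Subring.closure_le (t := L₁.toSubalgebra.toSubring.comap y)).2 ?_ (hcl f)
    rintro _ (⟨a, rfl⟩ | rfl)
    · change y (σ a) ∈ L₁
      rw [hy]
      exact L₁.algebraMap_mem _
    · exact IntermediateField.mem_adjoin_simple_self L _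
  let : Algebra S₁ L₁ := (y.codRestrict L₁ hyL).toAlgebra
  have hSL : Function.Injective (algebraMap S₁ L₁) := fun a b h => hyi (congrArg Subtype.val h)
  have : FaithfulSMul S₁ L₁ := (faithfulSMul_iff_algebraMap_injective S₁ L₁).2 hSL
  let F₁ := FractionRing S₁
  let : Algebra F₁ L₁ := FractionRing.liftAlgebra S₁ L₁
  have hint : IsIntegral L (y τ) := Algebra.IsIntegral.isIntegral _
  have : FiniteDimensional L L₁ := IntermediateField.adjoin.finiteDimensional hint
  have hgen : Algebra.adjoin L {algebraMap S₁ L₁ τ} = ⊤ :=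
    (IntermediateField.adjoin.powerBasis hint).adjoin_gen_eq_top
  have hc : ∀ a : S, algebraMap F L₁ (algebraMap S F a) = algebraMap S₁ L₁ (σ a) := fun a =>
    Subtype.ext (hy a).symm
  let : Algebra F F₁ := (IsFractionRing.lift (g := (algebraMap S₁ F₁).comp σ)
    ((IsFractionRing.injective S₁ F₁).comp hσ)).toAlgebra
  have : IsScalarTower F F₁ L₁ := .of_algebraMap_eq' (by
    refine IsLocalization.ringHom_ext (nonZeroDivisors S) (RingHom.ext fun a => ?_)
    change algebraMap F L₁ (algebraMap S F a) =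
      algebraMap F₁ L₁ (IsFractionRing.lift (g := (algebraMap S₁ F₁).comp σ)
        ((IsFractionRing.injective S₁ F₁).comp hσ) (algebraMap S F a))
    rw [IsFractionRing.lift_algebraMap, RingHom.comp_apply,
      ← IsScalarTower.algebraMap_apply S₁ F₁ L₁, hc])
  have : FiniteDimensional F L₁ := Module.Finite.trans L L₁
  have : FiniteDimensional F₁ L₁ := Module.Finite.of_restrictScalars_finite F F₁ L₁
  refine pu_core (F := F₁) (L := L₁) T σ τ hτ n hστ hchar
    ((algebraMap L L₁).comp (algebraMap C L)) (fun a => ?_) (fun E hE hEτ => ?_)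
    fun v hv h1 hlt => ?_
  · rw [RingHom.comp_apply, ← hFL, ← IsScalarTower.algebraMap_apply F L L₁, hc]
  · have hL : ∀ z : L, algebraMap L L₁ z ∈ E := fun z => by
      obtain ⟨a, b, -, rfl⟩ := IsFractionRing.div_surjective (A := C) z
      rw [map_div₀, div_eq_mul_inv]
      exact E.mul_mem (hE a) (E.inv_mem_of_algebraic (x := ⟨_, hE b⟩)
        (Algebra.IsAlgebraic.isAlgebraic _))
    refine top_le_iff.1 fun z _ => ?_
    have hz : z ∈ Algebra.adjoin L {algebraMap S₁ L₁ τ} := hgen ▸ Algebra.mem_top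
    induction hz using Algebra.adjoin_induction with
    | mem z hz => exact hz ▸ hEτ
    | algebraMap z => exact hL z
    | add _ _ _ _ ha hb => exact E.add_mem (ha trivial) (hb trivial)
    | mul _ _ _ _ ha hb => exact E.mul_mem (ha trivial) (hb trivial)
  · have h0 : algebraMap S₁ L₁ τ ≠ 0 := (map_ne_zero_iff _ hSL).2 hτ.ne_zero
    have hv0 : v (algebraMap S₁ L₁ τ) ≠ 0 := (v.ne_zero_iff).2 h0
    have hS : ∀ a : S, a ≠ 0 → ∃ i : ℕ, v (algebraMap F L₁ (algebraMap S F a)) =
        v (algebraMap S₁ L₁ τ) ^ ((n : ℤ) * i) := fun a ha => by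
      obtain ⟨i, a', rfl, h⟩ := hf a ha
      refine ⟨i, ?_⟩
      rw [hc, map_mul, map_pow, hστ, map_mul, map_mul, h1 _ h, mul_one, ← pow_mul, map_pow,
        map_pow, ← zpow_natCast, Nat.cast_mul]
    refine abh (F := F) (L := L) v hv _ (algebraMap S F T) n hn0 hn.dvd
      (by rw [hc, hστ, map_pow]) h0 hlt (fun z hz => ?_) hgen
      fun j hj => by simpa using h1 j (hchar j hj)
    obtain ⟨a, b, hb, rfl⟩ := IsFractionRing.div_surjective (A := S) z
    obtain ⟨i, hi⟩ := hS a fun h => hz (by rw [h, map_zero, zero_div])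
    obtain ⟨i', hi'⟩ := hS b (nonZeroDivisors.ne_zero hb)
    refine ⟨i - i', ?_⟩
    rw [map_div₀, map_div₀, hi, hi', mul_sub, zpow_sub₀ hv0]

end Pool.Agent.MP_855f4c_ag.LP

namespace Pool.Agent.MP_855f4c_ag.LP

lemma ge_unit {A B : Type*} [CommRing A] [CommRing B] [Algebra A B] {u : A} (hu : IsUnit u) {x : B}
    (h : IsIntegral A (algebraMap A B u * x)) : IsIntegral A x := by
  obtain ⟨v, hv⟩ := hu.exists_left_inv
  have := (isIntegral_algebraMap (R := A) (A := B) (x := v)).mul h
  rwa [← mul_assoc, ← map_mul, hv, map_one, one_mul] at this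

/-- Generic finiteness. -/
lemma gf {P E : Type*} [CommRing P] [IsDomain P] [CommRing E] [IsDomain E] [Algebra P E]
    [Algebra.FiniteType P E] [Algebra.IsAlgebraic P E] :
    ∃ g : P, g ≠ 0 ∧ ∀ g' : P, g ∣ g' → (Localization.awayMap (algebraMap P E) g').Finite := by
  obtain ⟨s, hs⟩ := (Algebra.FiniteType.out : (⊤ : Subalgebra P E).FG)
  obtain ⟨y, hy, h⟩ := Algebra.IsAlgebraic.exists_integral_multiples P s
  refine ⟨y, hy, fun g' hg => ?_⟩
  let := (Localization.awayMap (algebraMap P E) g').toAlgebra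
  have : IsScalarTower P (Localization.Away g') (Localization.Away (algebraMap P E g')) :=
    .of_algebraMap_eq' (IsLocalization.lift_comp _).symm
  have : Algebra.FiniteType P (Localization.Away (algebraMap P E g')) :=
    .trans (S := E) ‹_› inferInstance
  have : Algebra.FiniteType (Localization.Away g') (Localization.Away (algebraMap P E g')) :=
    .of_restrictScalars_finiteType P _ _
  have hu := IsLocalization.Away.algebraMap_isUnit (S := Localization.Away g') g'
  have h1 : ∀ e : E, IsIntegral (Localization.Away g')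
      (algebraMap E (Localization.Away (algebraMap P E g')) e) := fun e => by
    have he : e ∈ Algebra.adjoin P (s : Set E) := hs ▸ Algebra.mem_top
    induction he using Algebra.adjoin_induction with
    | mem z hz =>
      refine ge_unit (isUnit_of_dvd_unit (map_dvd _ hg) hu) ?_
      have := ((h z hz).map (IsScalarTower.toAlgHom P E
        (Localization.Away (algebraMap P E g')))).tower_top (A := Localization.Away g')
      rw [map_smul, Algebra.smul_def] at this
      rw [← IsScalarTower.algebraMap_apply]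
      exact this
    | algebraMap r =>
      rw [← IsScalarTower.algebraMap_apply, IsScalarTower.algebraMap_apply P (Localization.Away g')
        (Localization.Away (algebraMap P E g'))]
      exact isIntegral_algebraMap
    | add a b _ _ ha hb => rw [map_add]; exact ha.add hb
    | mul a b _ _ ha hb => rw [map_mul]; exact ha.mul hb
  have : Algebra.IsIntegral (Localization.Away g') (Localization.Away (algebraMap P E g')) :=
    ⟨fun x => by
      obtain ⟨⟨e, ⟨_, n, rfl⟩⟩, hx⟩ := IsLocalization.surj (Submonoid.powers (algebraMap P E g')) x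
      refine ge_unit (hu.pow n) ?_
      have := h1 e
      rw [← hx] at this
      rwa [map_pow, ← IsScalarTower.algebraMap_apply, IsScalarTower.algebraMap_apply P E
        (Localization.Away (algebraMap P E g')), ← map_pow, mul_comm]⟩
  exact Algebra.IsIntegral.finite

/-- Generic finite etaleness in characteristic zero. -/
lemma gen {P D : Type*} [CommRing P] [IsDomain P] [IsNoetherianRing P] [CharZero P] [CommRing D]
    [IsDomain D] [Algebra P D] [Algebra.FiniteType P D] [Algebra.IsAlgebraic P D]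
    (hinj : Function.Injective (algebraMap P D)) :
    ∃ g : P, g ≠ 0 ∧ ∀ g' : P, g ∣ g' → (Localization.awayMap (algebraMap P D) g').Finite ∧
      (Localization.awayMap (algebraMap P D) g').Etale := by
  have : FaithfulSMul P D := (faithfulSMul_iff_algebraMap_injective P D).2 hinj
  have : Algebra.FinitePresentation P D := Algebra.FinitePresentation.of_finiteType.1 ‹_›
  have : Algebra.IsEtaleAt P (⊥ : Ideal D) := by
    let := FractionRing.liftAlgebra P (FractionRing D)
    have := FractionRing.isScalarTower_liftAlgebra P (FractionRing D)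
    have := (IsFractionRing.isAlgebraic_iff' P D (FractionRing D)).1 inferInstance
    have : Algebra.IsAlgebraic (FractionRing P) (FractionRing D) :=
      (IsFractionRing.comap_isAlgebraic_iff (A := P)).1 this
    have := Algebra.FormallyEtale.of_isSeparable (FractionRing P) (FractionRing D)
    have : Algebra.FormallyEtale P (FractionRing P) := .of_isLocalization (nonZeroDivisors P)
    have := Algebra.FormallyEtale.comp P (FractionRing P) (FractionRing D)
    have : IsFractionRing D (Localization.AtPrime (⊥ : Ideal D)) := by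
      simpa [Ideal.primeCompl_bot] using
        Localization.isLocalization (M := (⊥ : Ideal D).primeCompl)
    exact .of_equiv ((FractionRing.algEquiv D _).restrictScalars P)
  obtain ⟨f, hf, he⟩ := Algebra.exists_etale_of_isEtaleAt (R := P) (⊥ : Ideal D)
  obtain ⟨r, hr, hd⟩ := (Algebra.IsAlgebraic.isAlgebraic (R := P) f).exists_nonzero_dvd
    (mem_nonZeroDivisors_of_ne_zero fun e => hf (Ideal.mem_bot.2 e))
  obtain ⟨g, hg, h⟩ := gf (P := P) (E := D)
  refine ⟨g * r, mul_ne_zero hg hr, fun g' hg' => ⟨h g' (dvd_of_mul_right_dvd hg'), ?_⟩⟩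
  have hf := h g' (dvd_of_mul_right_dvd hg')
  let := (Localization.awayMap (algebraMap P D) g').toAlgebra
  have : IsScalarTower P (Localization.Away g') (Localization.Away (algebraMap P D g')) :=
    .of_algebraMap_eq' (IsLocalization.lift_comp _).symm
  have : Module.Finite (Localization.Away g') (Localization.Away (algebraMap P D g')) := hf
  have : Algebra.FormallyEtale P (Localization.Away (algebraMap P D g')) := by
    refine Algebra.basicOpen_subset_etaleLocus_iff.1 (Set.Subset.trans ?_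
      (Algebra.basicOpen_subset_etaleLocus_iff_etale.2 he))
    obtain ⟨c, hc⟩ := hd.trans (map_dvd (algebraMap P D) (dvd_of_mul_left_dvd hg'))
    rw [hc]
    exact PrimeSpectrum.basicOpen_mul_le_left f c
  exact ⟨.localization_base (Submonoid.powers g'),
    Algebra.FinitePresentation.of_finiteType.1 inferInstance⟩

end Pool.Agent.MP_855f4c_ag.LP

namespace Pool.Agent.MP_855f4c_ag.LP

open Polynomial

lemma ro_split {K : Type} [Field K] [IsAlgClosed K] (f : K[X]) (n : ℕ) (hn : f.natDegree = n) :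
    ∃ a : Fin n → K, f = C f.leadingCoeff * ∏ i, (X - C (a i)) := by
  have hs : f.Splits := IsAlgClosed.splits f
  have hc : f.roots.toList.length = n := by
    rw [Multiset.length_toList, ← hn]
    exact hs.natDegree_eq_card_roots.symm
  subst hc
  refine ⟨fun i => f.roots.toList.get i, ?_⟩
  have h1 : ∏ i : Fin f.roots.toList.length, (X - C (f.roots.toList.get i)) =
      (f.roots.map fun a => X - C a).prod := by
    conv_rhs => rw [← Multiset.coe_toList f.roots, Multiset.map_coe, Multiset.prod_coe]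
    rw [← List.prod_ofFn]
    congr 1
    conv_rhs => rw [← List.ofFn_get f.roots.toList, List.map_ofFn]
    rfl
  rw [h1]
  exact hs.eq_prod_roots

lemma ro_unit {P K : Type} [CommRing P] [Field K] [Algebra P K] (E : Subalgebra P K) (x : E)
    (hx : (x : K) ≠ 0) (hi : (x : K)⁻¹ ∈ E) : IsUnit x :=
  IsUnit.of_mul_eq_one ⟨_, hi⟩ (Subtype.ext (mul_inv_cancel₀ hx))

lemma ro_map {E R : Type} [CommRing E] [CommRing R] (f : E →+* R) {n : ℕ} (c : E)
    (a : Fin n → E) :
    (C c * ∏ i, (X - C (a i))).map f = C (f c) * ∏ i, (X - C (f (a i))) := by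
  simp only [Polynomial.map_mul, Polynomial.map_prod, Polynomial.map_sub, map_X, map_C]

lemma ro_loc {P E : Type} [CommRing P] [IsDomain P] [CommRing E] [IsDomain E] [Algebra P E]
    [Algebra.FiniteType P E] [Algebra.IsAlgebraic P E]
    (hPE : Function.Injective (algebraMap P E)) (g : P[X]) {n : ℕ} (a : Fin n → E) (c : E)
    (hc : IsUnit c) (hE : g.map (algebraMap P E) = C c * ∏ i, (X - C (a i)))
    (hd : ∀ i k, a i = a k ∨ IsUnit (a i - a k)) :
    ∃ (g0 : P) (_ : g0 ≠ 0) (R : Type) (_ : CommRing R) (j : Localization.Away g0 →+* R)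
      (α : Fin n → R) (c : R), Function.Injective j ∧ j.Finite ∧ IsUnit c ∧
      g.map (j.comp (algebraMap P _)) = C c * ∏ i, (X - C (α i)) ∧
      ∀ i k, α i = α k ∨ IsUnit (α i - α k) := by
  obtain ⟨g0, hg0, hfin⟩ := gf (P := P) (E := E)
  have hj : (Localization.awayMap (algebraMap P E) g0).comp (algebraMap P _) =
      (algebraMap E (Localization.Away (algebraMap P E g0))).comp (algebraMap P E) :=
    IsLocalization.map_comp _
  refine ⟨g0, hg0, Localization.Away (algebraMap P E g0), inferInstance,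
    Localization.awayMap (algebraMap P E) g0, fun i => algebraMap E _ (a i), algebraMap E _ c, ?_,
    hfin g0 dvd_rfl, hc.map _, ?_, fun i k => ?_⟩
  · rw [Localization.awayMap_injective_iff]
    intro x hx
    exact ⟨0, by rw [hPE (hx.trans (map_zero _).symm), mul_zero]⟩
  · rw [hj, ← Polynomial.map_map, hE, ro_map]
  · rcases hd i k with h | h
    · exact Or.inl (congrArg _ h)
    · exact Or.inr (by rw [← map_sub]; exact h.map _)

lemma ro_clos {P K : Type} [CommRing P] [IsDomain P] [Field K] [IsAlgClosed K] [Algebra P K]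
    [Algebra.IsAlgebraic P K] (hinj : Function.Injective (algebraMap P K)) (g : P[X])
    (hg : g ≠ 0) :
    ∃ (g0 : P) (_ : g0 ≠ 0) (R : Type) (_ : CommRing R) (j : Localization.Away g0 →+* R)
      (α : Fin g.natDegree → R) (c : R), Function.Injective j ∧ j.Finite ∧ IsUnit c ∧
      g.map (j.comp (algebraMap P _)) = C c * ∏ i, (X - C (α i)) ∧
      ∀ i k, α i = α k ∨ IsUnit (α i - α k) := by
  classical
  obtain ⟨a, ha⟩ := ro_split (g.map (algebraMap P K)) g.natDegree
    (natDegree_map_eq_of_injective hinj g)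
  rw [leadingCoeff_map_of_injective hinj] at ha
  have hlc : algebraMap P K g.leadingCoeff ≠ 0 :=
    (map_ne_zero_iff _ hinj).2 (leadingCoeff_ne_zero.2 hg)
  let S : Set K := insert (algebraMap P K g.leadingCoeff)⁻¹
    (Set.range a ∪ Set.range fun x : Fin g.natDegree × Fin g.natDegree => (a x.1 - a x.2)⁻¹)
  have hS : ∀ x ∈ S, x ∈ Algebra.adjoin P S := fun x hx => Algebra.subset_adjoin hx
  have hft : Algebra.FiniteType P (Algebra.adjoin P S) := Algebra.FiniteType.adjoin_of_finite
    (((Set.finite_range _).union (Set.finite_range _)).insert _)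
  generalize Algebra.adjoin P S = E at hS hft
  have ha' : ∀ i, a i ∈ E := fun i => hS _ (Or.inr (Or.inl ⟨i, rfl⟩))
  have hal : Algebra.IsAlgebraic P E := Algebra.IsAlgebraic.of_injective E.val Subtype.val_injective
  refine ro_loc (E := E) (fun x y h => hinj (congrArg Subtype.val h)) g (fun i => ⟨a i, ha' i⟩)
    (algebraMap P E g.leadingCoeff) (ro_unit E _ hlc (hS _ (Or.inl rfl))) ?_ fun i k => ?_
  · apply Polynomial.map_injective (algebraMap E K) Subtype.val_injective
    rw [Polynomial.map_map, ← IsScalarTower.algebraMap_eq, ha, ro_map]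
    rfl
  · by_cases h : a i = a k
    · exact Or.inl (Subtype.ext h)
    · exact Or.inr (ro_unit E _ (sub_ne_zero.2 h) (hS _ (Or.inr (Or.inr ⟨(i, k), rfl⟩))))

/-- A generically finite cover over which a polynomial splits with separated roots. -/
lemma root {P : Type} [CommRing P] [IsDomain P] (g : P[X]) (hg : g ≠ 0) :
    ∃ (g0 : P) (_ : g0 ≠ 0) (R : Type) (_ : CommRing R) (j : Localization.Away g0 →+* R)
      (α : Fin g.natDegree → R) (c : R), Function.Injective j ∧ j.Finite ∧ IsUnit c ∧
      g.map (j.comp (algebraMap P _)) = C c * ∏ i, (X - C (α i)) ∧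
      ∀ i k, α i = α k ∨ IsUnit (α i - α k) := by
  have halg : Algebra.IsAlgebraic P (AlgebraicClosure (FractionRing P)) :=
    (IsFractionRing.comap_isAlgebraic_iff (K := FractionRing P)).2 inferInstance
  refine ro_clos (K := AlgebraicClosure (FractionRing P)) ?_ g hg
  rw [IsScalarTower.algebraMap_eq P (FractionRing P)]
  exact (algebraMap (FractionRing P) _).injective.comp (IsFractionRing.injective P _)

end Pool.Agent.MP_855f4c_ag.LP

namespace Pool.Agent.MP_855f4c_ag.LP

open Polynomial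

variable {A F : Type} [CommRing A] [Field F] [CharZero F]

section

open CategoryTheory CommAlgCat

omit [CharZero F] in
lemma pa_sq {Ω Ω' : Type} [Field Ω] [Algebra A Ω] [Field Ω'] [Algebra A Ω'] (L : LocSys A F)
    (α : FiniteEtale.fiber.{0} A Ω ≅ FiniteEtale.fiber.{0} A Ω') (g : Ω ≃ₐ[A] Ω) (g' : Ω' ≃ₐ[A] Ω')
    (h : act g ≪≫ α = α ≪≫ act g') (v : L.obj ⟨FiniteEtale.fiber.{0} A Ω⟩) :
    (L.map ⟨α⟩).hom (rho L g v) = rho L g' ((L.map ⟨α⟩).hom v) := by
  have e : L.map ⟨act g⟩ ≫ L.map ⟨α⟩ = L.map ⟨α⟩ ≫ L.map ⟨act g'⟩ := by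
    rw [← L.map_comp, ← L.map_comp]
    exact congrArg L.map (CoreHom.ext h)
  exact congrArg (fun f => f.hom v) e

omit [CharZero F] in
lemma pa_one {Ω : Type} [Field Ω] [Algebra A Ω] (L : LocSys A F) :
    rho L (1 : Ω ≃ₐ[A] Ω) = 1 := by
  have e : L.map (⟨act (1 : Ω ≃ₐ[A] Ω)⟩ : (⟨FiniteEtale.fiber.{0} A Ω⟩ : Core _) ⟶ ⟨_⟩) = 𝟙 _ := by
    rw [← L.map_id]
    refine congrArg L.map (CoreHom.ext ?_)
    ext S s
    rfl
  exact congrArg ModuleCat.Hom.hom e

omit [CharZero F] in
lemma pa_mul {Ω : Type} [Field Ω] [Algebra A Ω] (L : LocSys A F) (g h : Ω ≃ₐ[A] Ω) :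
    rho L (g * h) = rho L g * rho L h := by
  have e : L.map (⟨act (g * h)⟩ : (⟨FiniteEtale.fiber.{0} A Ω⟩ : Core _) ⟶ ⟨_⟩) =
      L.map ⟨act h⟩ ≫ L.map ⟨act g⟩ := by
    rw [← L.map_comp]
    refine congrArg L.map (CoreHom.ext ?_)
    ext S s
    rfl
  exact congrArg ModuleCat.Hom.hom e

lemma pa_bij {C Ω : Type} [CommRing C] [IsDomain C] [Algebra A C] [Field Ω] [Algebra A Ω]
    (hC : ∀ q : C[X], q.Monic → q.Splits) (a : C →ₐ[A] Ω) (S : FiniteEtale.{0} A) :
    Function.Bijective fun s : S →ₐ[A] C => a.comp s := by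
  refine ⟨fun s t h => uq s t a.toRingHom fun b => DFunLike.congr_fun h b, fun b => ?_⟩
  obtain ⟨s, hs⟩ := sec (A := A) hC a.toRingHom b.toRingHom fun r =>
    (b.commutes r).trans (a.commutes r).symm
  exact ⟨s, AlgHom.ext hs⟩

lemma pa_path {C Ω Ω' : Type} [CommRing C] [IsDomain C] [Algebra A C] [Field Ω]
    [Algebra A Ω] [Field Ω'] [Algebra A Ω'] (hC : ∀ q : C[X], q.Monic → q.Splits)
    (a : C →ₐ[A] Ω) (a' : C →ₐ[A] Ω') :
    ∃ α : FiniteEtale.fiber.{0} A Ω ≅ FiniteEtale.fiber.{0} A Ω',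
      ∀ (S : (FiniteEtale.{0} A)ᵒᵖ) (s : S.unop →ₐ[A] C), α.hom.app S (a.comp s) = a'.comp s := by
  let e : ∀ S : FiniteEtale.{0} A, (S →ₐ[A] Ω) ≃ (S →ₐ[A] Ω') := fun S =>
    (Equiv.ofBijective _ (pa_bij hC a S)).symm.trans (Equiv.ofBijective _ (pa_bij hC a' S))
  have he : ∀ (S : FiniteEtale.{0} A) (s : S →ₐ[A] C), e S (a.comp s) = a'.comp s := fun S s =>
    congrArg a'.comp ((Equiv.ofBijective _ (pa_bij hC a S)).symm_apply_apply s)
  refine ⟨NatIso.ofComponents (fun S => FintypeCat.equivEquivIso (e S.unop)) fun {S T} f => ?_,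
    fun S s => he S.unop s⟩
  ext b
  obtain ⟨s, rfl⟩ := (pa_bij hC a S.unop).2 b
  exact (he T.unop (s.comp f.unop.hom.hom)).trans
    (congrArg (fun t : S.unop →ₐ[A] Ω' => t.comp f.unop.hom.hom) (he S.unop s).symm)

end

lemma pa_tr {H H' : Type} [AddCommGroup H] [Module F H] [AddCommGroup H'] [Module F H']
    (E : H ≃ₗ[F] H') {φ u : Module.End F H} {φ' u' : Module.End F H'}
    (h1 : ∀ v, E (φ v) = φ' (E v)) (h2 : ∀ v, E (u v) = u' (E v)) {q : ℕ} {i : ℤ}
    (h : MwPure q i φ' u') : MwPure q i φ u := by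
  have hc : ∀ (f : Module.End F H) v, E (f v) = E.conjAlgEquiv F f (E v) := fun f v => by
    simp [LinearEquiv.conjAlgEquiv_apply]
  have he : ∀ {f f'}, (∀ v, E (f v) = f' (E v)) → f' = E.conjAlgEquiv F f := fun h =>
    LinearMap.ext fun w => by rw [← E.apply_symm_apply w, ← h, hc]
  obtain rfl := he h1
  obtain rfl := he h2
  obtain ⟨m, hm, M, a1, ⟨b, a2⟩, ⟨c, a3⟩, a4, a5, a6⟩ := h
  have e1 : E.conjAlgEquiv F u ^ m - 1 = E.conjAlgEquiv F (u ^ m - 1) := by
    rw [map_sub, map_pow, map_one]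
  simp only [e1] at a4 a5
  simp only [← map_pow] at a5
  simp only [aeval_algHom_apply] at a6
  refine ⟨m, hm, fun a => (M a).comap E.toLinearMap, fun _ _ h => Submodule.comap_mono (a1 h),
    ⟨b, by simp [a2]⟩, ⟨c, by simp [a3]⟩, fun a v hv => ?_, fun r => ⟨fun v hv h => ?_,
      fun w hw => ?_⟩, fun a => ⟨fun v hv => ?_, ?_⟩⟩
  · exact Submodule.mem_comap.2 ((hc _ v).symm ▸ a4 a _ hv)
  · exact (a5 r).1 (E v) hv (hc _ v ▸ h)
  · obtain ⟨v, h1, h2⟩ := (a5 r).2 (E w) hw
    obtain ⟨v, rfl⟩ := E.surjective v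
    exact ⟨v, h1, by rwa [← hc, ← map_sub] at h2⟩
  · exact Submodule.mem_comap.2 ((hc _ v).symm ▸ (a6 a).1 _ hv)
  · obtain ⟨P, h1, h2, h3⟩ := (a6 a).2
    exact ⟨P, h1, h2, fun v hv => Submodule.mem_comap.2 ((hc _ v).symm ▸ h3 _ hv)⟩

lemma rho_pow {Ω : Type} [Field Ω] [Algebra A Ω] (L : LocSys A F) (g : Ω ≃ₐ[A] Ω) (m : ℕ) :
    rho L (g ^ m) = rho L g ^ m := by
  induction m with
  | zero => rw [pow_zero, pow_zero, pa_one]
  | succ m ih => rw [pow_succ, pow_succ, pa_mul, ih]

/-- Transport of purity along the path given by a common cover. -/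
lemma path_pure (L : LocSys A F) {C Ω Ω' : Type} [CommRing C] [IsDomain C] [Algebra A C] [Field Ω]
    [Algebra A Ω] [Field Ω'] [Algebra A Ω'] (hC : ∀ q : C[X], q.Monic → q.Splits)
    (a : C →ₐ[A] Ω) (a' : C →ₐ[A] Ω') (φ u : Ω ≃ₐ[A] Ω) (φ' u' : Ω' ≃ₐ[A] Ω')
    (γ δ : C →ₐ[A] C) (h1 : ∀ c, a (γ c) = φ (a c)) (h2 : ∀ c, a (δ c) = u (a c))
    (h3 : ∀ (S : Type) [CommRing S] [Algebra A S] [Module.Finite A S] [Algebra.Etale A S]
      (s : S →ₐ[A] C) (z : S), a' (γ (s z)) = φ' (a' (s z)) ∧ a' (δ (s z)) = u' (a' (s z)))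
    (q : ℕ) (i : ℤ) (h : MwPure q i (rho L φ') (rho L u')) : MwPure q i (rho L φ) (rho L u) := by
  obtain ⟨α, hα⟩ := pa_path hC a a'
  have key : ∀ (g : Ω ≃ₐ[A] Ω) (g' : Ω' ≃ₐ[A] Ω') (c : C →ₐ[A] C), (∀ z, a (c z) = g (a z)) →
      (∀ (S : CommAlgCat.FiniteEtale.{0} A) (s : S →ₐ[A] C) (z : S),
        a' (c (s z)) = g' (a' (s z))) → (act g).trans α = α.trans (act g') := by
    intro g g' c e1 e2
    ext S b
    obtain ⟨s, rfl⟩ := (pa_bij hC a S.unop).2 b
    have e3 : (g : Ω →ₐ[A] Ω).comp (a.comp s) = a.comp (c.comp s) :=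
      AlgHom.ext fun z => (e1 _).symm
    refine (congrArg (α.hom.app S) e3).trans ((hα S _).trans ?_)
    exact (AlgHom.ext fun z => e2 _ s z).trans
      (congrArg (g' : Ω' →ₐ[A] Ω').comp (hα S s).symm)
  exact pa_tr (L.mapIso (CategoryTheory.Core.isoMk α)).toLinearEquiv
    (pa_sq L α φ φ' (key φ φ' γ h1 fun S s z => (h3 S s z).1))
    (pa_sq L α u u' (key u u' δ h2 fun S s z => (h3 S s z).2)) h

end Pool.Agent.MP_855f4c_ag.LP

namespace Pool.Agent.MP_855f4c_ag.LP

open Polynomial in
lemma de_drop {F H : Type} [Field F] [CharZero F] [AddCommGroup H] [Module F H] (q : ℝ) (i : ℤ)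
    (ψ : Module.End F H) (M : ℤ → Submodule F H)
    (h : ∀ a, ∃ P : ℚ[X], (∀ z : ℂ, aeval z P = 0 → ‖z‖ ^ 2 = q ^ (a + i)) ∧
      ∀ v ∈ M a, aeval ψ (P.map (algebraMap ℚ F)) v ∈ M (a - 1)) (a : ℤ) (n : ℕ) :
    ∃ G : ℚ[X], (∀ z : ℂ, aeval z G = 0 → ∃ k, a - n < k ∧ k ≤ a ∧ ‖z‖ ^ 2 = q ^ (k + i)) ∧
      ∀ v ∈ M a, aeval ψ (G.map (algebraMap ℚ F)) v ∈ M (a - n) := by
  induction n with
  | zero => exact ⟨1, by simp, by simp⟩
  | succ n ih =>
    obtain ⟨G, h1, h2⟩ := ih
    obtain ⟨P, h3, h4⟩ := h (a - n)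
    refine ⟨P * G, fun z hz => ?_, fun v hv => ?_⟩
    · rw [map_mul, mul_eq_zero] at hz
      rcases hz with hz | hz
      · exact ⟨a - n, by push_cast; omega, by omega, h3 z hz⟩
      · obtain ⟨k, k1, k2, k3⟩ := h1 z hz
        exact ⟨k, by push_cast; omega, k2, k3⟩
    · rw [Polynomial.map_mul, map_mul, Module.End.mul_apply, Nat.cast_succ, ← sub_sub]
      exact h4 _ (h2 v hv)

open Polynomial in
lemma de_stab {F H : Type} [Field F] [CharZero F] [AddCommGroup H] [Module F H] (q : ℝ)
    (hq : 1 < q) (i : ℤ) (φ ψ : Module.End F H) (hc : Commute φ ψ) (M : ℤ → Submodule F H)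
    (hM : Monotone M) (b c : ℤ) (hb : M b = ⊥) (ht : M c = ⊤) (hs : ∀ a, ∀ v ∈ M a, ψ v ∈ M a)
    (h : ∀ a, ∃ P : ℚ[X], (∀ z : ℂ, aeval z P = 0 → ‖z‖ ^ 2 = q ^ (a + i)) ∧
      ∀ v ∈ M a, aeval ψ (P.map (algebraMap ℚ F)) v ∈ M (a - 1)) (a : ℤ) :
    ∀ v ∈ M a, φ v ∈ M a := by
  intro v hv
  obtain ⟨G, g1, g2⟩ := de_drop q i ψ M h a (a - b).toNat
  obtain ⟨K, k1, k2⟩ := de_drop q i ψ M h (a + (c - a).toNat) (c - a).toNat
  have hG : aeval ψ (G.map (algebraMap ℚ F)) v = 0 := by
    have := hM (show a - (a - b).toNat ≤ b by omega) (g2 v hv)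
    rwa [hb, Submodule.mem_bot] at this
  have hK : aeval ψ (K.map (algebraMap ℚ F)) (φ v) ∈ M a := by
    have := k2 (φ v) (hM (show c ≤ a + (c - a).toNat by omega) (ht ▸ Submodule.mem_top))
    rwa [add_sub_cancel_right] at this
  obtain ⟨x, y, e⟩ : IsCoprime G K := by
    refine (isCoprime_iff_aeval_ne_zero_of_isAlgClosed ℚ ℂ G K).2 fun z => ?_
    by_contra hz
    push Not at hz
    obtain ⟨r, -, r2, r3⟩ := g1 z hz.1
    obtain ⟨s, s1, -, s3⟩ := k1 z hz.2
    have := (zpow_right_strictMono₀ hq).injective (r3.symm.trans s3)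
    omega
  have hcG : ∀ P : F[X], Commute φ (aeval ψ P) := fun P => by
    induction P using Polynomial.induction_on' with
    | add p r hp hr => rw [map_add]; exact hp.add_right hr
    | monomial n t =>
      rw [aeval_monomial]
      exact (Algebra.commute_algebraMap_right t φ).mul_right (hc.pow_right n)
  have e1 : φ v = aeval ψ (y.map (algebraMap ℚ F)) (aeval ψ (K.map (algebraMap ℚ F)) (φ v)) := by
    have e2 := congrArg (fun P : ℚ[X] => aeval ψ (P.map (algebraMap ℚ F)) (φ v)) e
    simp only [Polynomial.map_add, Polynomial.map_mul, map_add, map_mul, Polynomial.map_one,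
      map_one, LinearMap.add_apply, Module.End.mul_apply, Module.End.one_apply] at e2
    rw [← Module.End.mul_apply _ φ v, ← (hcG _).eq, Module.End.mul_apply, hG, map_zero, map_zero,
      zero_add] at e2
    exact e2.symm
  rw [e1]
  exact aeval_apply_smul_mem_of_le_comap hK _ ψ (hs a)

/-- Purity descends from powers. -/
lemma MwPure.of_pow {F H : Type} [Field F] [CharZero F] [AddCommGroup H] [Module F H] (Q : ℕ)
    (hQ : 1 < Q) (i : ℤ) (φ u : Module.End F H) (m : ℕ) (hm : m ≠ 0)
    (h : MwPure (Q ^ m) i (φ ^ m) (u ^ m)) : MwPure Q i φ u := by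
  obtain ⟨n, hn, M, a1, ⟨b, a2⟩, ⟨c, a3⟩, a4, a5, a6⟩ := h
  rw [← pow_mul] at a4 a5
  refine ⟨m * n, by positivity, M, a1, ⟨b, a2⟩, ⟨c, a3⟩, a4, a5, fun a => ⟨?_, ?_⟩⟩
  · refine de_stab ((Q ^ m : ℕ) : ℝ) (by exact_mod_cast Nat.one_lt_pow hm hQ) i φ (φ ^ m)
      (Commute.self_pow φ m) M a1 b c a2 a3 (fun a => (a6 a).1) (fun a => ?_) a
    obtain ⟨P, -, h⟩ := (a6 a).2
    exact ⟨P, h⟩
  · obtain ⟨P, h1, h2, h3⟩ := (a6 a).2
    refine ⟨Polynomial.expand ℚ m P, (Polynomial.expand_ne_zero (Nat.pos_of_ne_zero hm)).2 h1,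
      fun z hz => ?_, fun v hv => ?_⟩
    · rw [Polynomial.expand_aeval] at hz
      have := h2 _ hz
      rw [norm_pow, ← pow_mul, mul_comm, pow_mul, Nat.cast_pow, ← zpow_natCast (Q : ℝ),
        ← zpow_mul, mul_comm, zpow_mul, zpow_natCast] at this
      exact (pow_left_inj₀ (by positivity) (by positivity) hm).1 this
    · rw [Polynomial.map_expand, Polynomial.expand_aeval]
      exact h3 v hv

end Pool.Agent.MP_855f4c_ag.LP
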