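import Pool.Agent.MP_855f4c_ag.LP.Defs

namespace Pool.Agent.MP_855f4c_ag.LP

open CategoryTheory CommAlgCat

/-- `L` is a lisse `ℚ_l`-system: the stalks have finite bases in which the automorphisms of the
fibre functor act by matrices over `ℤ_l`, and for each `n` there is one finite etale cover `S` such
that an automorphism that is trivial on the fibre of `S` acts by a matrix `≡ 1 mod l ^ n`. -/
def Lisse {A : Type} [CommRing A] {l : ℕ} [Fact l.Prime] (L : LocSys A ℚ_[l]) : Prop :=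
  ∃ (d : ((FiniteEtale.{0} A)ᵒᵖ ⥤ FintypeCat.{0}) → ℕ)
    (e : ∀ Φ, Module.Basis (Fin (d Φ)) ℚ_[l] (L.obj ⟨Φ⟩)),
    (∀ Φ (g : Φ ≅ Φ) a b, ‖LinearMap.toMatrix (e Φ) (e Φ) (L.map ⟨g⟩).hom a b‖ ≤ 1) ∧
    ∀ n : ℕ, ∃ S : (FiniteEtale.{0} A)ᵒᵖ, ∀ Φ (g : Φ ≅ Φ), NatTrans.app g.hom S = 𝟙 _ →
      ∀ a b, ‖(LinearMap.toMatrix (e Φ) (e Φ) (L.map ⟨g⟩).hom - 1) a b‖ ≤ ‖(l : ℚ_[l]) ^ n‖

/-- The stalk of `L` at the point `A → Ω` is pure of weight `i` for every geometric Frobenius. -/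
def Pure {A F : Type} [CommRing A] [Field F] [CharZero F] (L : LocSys A F) (i : ℤ) (Ω : Type)
    [Field Ω] [Algebra A Ω] : Prop :=
  ∀ (φ : Ω ≃ₐ[A] Ω) (Q : ℕ), 1 < Q → (∀ z, φ z ^ Q = z) → ∃ P : Polynomial ℚ, P ≠ 0 ∧
    (∀ z : ℂ, Polynomial.aeval z P = 0 → ‖z‖ ^ 2 = (Q : ℝ) ^ i) ∧
      Polynomial.aeval (rho L φ) (P.map (algebraMap ℚ F)) = 0

end Pool.Agent.MP_855f4c_ag.LP
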