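import Pool.Agent.MP_855f4c_ag.LP.Lift

namespace Pool.Agent.MP_855f4c_ag.LP

open PowerSeries

variable {p : ℕ} [Fact p.Prime]

lemma fp_core {D : Type} [CommRing D] [Nontrivial D] [CharP D p] (J : Ideal D) [HenselianRing D J]
    [Finite (D ⧸ J)] (z : D) :
    ∃ (f a : ℕ) (w : D), f ≠ 0 ∧ w ^ p ^ f = w ∧ (z - w) ^ p ^ a ∈ J := by
  have hp : 1 < p := (Fact.out : p.Prime).one_lt
  obtain ⟨a, f, hf, e⟩ : ∃ a f : ℕ, f ≠ 0 ∧ (z ^ p ^ a) ^ p ^ f - z ^ p ^ a ∈ J := by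
    obtain ⟨a, b, hne, e⟩ := Finite.exists_ne_map_eq_of_infinite
      fun n : ℕ => Ideal.Quotient.mk J (z ^ p ^ n)
    wlog hab : a < b generalizing a b
    · exact this b a hne.symm e.symm (by omega)
    refine ⟨a, b - a, by omega, ?_⟩
    rw [← pow_mul, ← pow_add, Nat.add_sub_cancel' hab.le]
    exact Ideal.Quotient.eq.1 e.symm
  have hq : 1 < p ^ f := Nat.one_lt_pow hf hp
  have hz : ((p ^ f : ℕ) : D) = 0 := by
    rw [Nat.cast_pow, CharP.cast_eq_zero D p, zero_pow hf]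
  obtain ⟨v, hv, hv'⟩ := HenselianRing.is_henselian (R := D) (I := J)
    (Polynomial.X ^ p ^ f - Polynomial.X)
    (Polynomial.monic_X_pow_sub (by rw [Polynomial.degree_X]; exact_mod_cast hq)) (z ^ p ^ a)
    (by simpa using e) (by
      rw [Polynomial.derivative_sub, Polynomial.derivative_X_pow, hz]
      simp)
  have h1 : v ^ p ^ f = v := by
    have : v ^ p ^ f - v = 0 := by simpa using hv
    exact sub_eq_zero.1 this
  have h2 : ∀ k, v ^ p ^ (f * k) = v := fun k => by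
    induction k with
    | zero => simp
    | succ k ih => rw [Nat.mul_succ, pow_add, pow_mul, ih, h1]
  have ha : a ≤ f * a := Nat.le_mul_of_pos_left a (Nat.pos_of_ne_zero hf)
  refine ⟨f, a, v ^ p ^ (f * a - a), hf, ?_, ?_⟩
  · rw [← pow_mul, mul_comm, pow_mul, h1]
  · rw [sub_pow_char_pow, ← pow_mul v, ← pow_add, Nat.sub_add_cancel ha, h2]
    simpa using J.neg_mem hv'

lemma fp_near {Ω : Type} [Field Ω] [Algebra (ZMod p)⟦X⟧ Ω] {z : Ω}
    (hz : IsIntegral (ZMod p)⟦X⟧ z) :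
    ∃ (f n : ℕ) (w c : Ω), f ≠ 0 ∧ w ^ p ^ f = w ∧ IsIntegral (ZMod p)⟦X⟧ w ∧
      IsIntegral (ZMod p)⟦X⟧ c ∧ (z - w) ^ n = algebraMap (ZMod p)⟦X⟧ Ω X * c := by
  let D := Algebra.adjoin (ZMod p)⟦X⟧ {z}
  have : Module.Finite (ZMod p)⟦X⟧ D := Algebra.finite_adjoin_simple_of_isIntegral hz
  have : CharP D p :=
    charP_of_injective_ringHom ((algebraMap (ZMod p)⟦X⟧ D).comp C).injective p
  let I : Ideal (ZMod p)⟦X⟧ := Ideal.span {X}
  have := complete_of_finite (S := D) I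
  have : Finite ((ZMod p)⟦X⟧ ⧸ I) := by
    refine Finite.of_surjective (fun a : ZMod p => Ideal.Quotient.mk I (C a)) fun x => ?_
    obtain ⟨x, rfl⟩ := Ideal.Quotient.mk_surjective x
    refine ⟨constantCoeff x, Ideal.Quotient.eq.2 (Ideal.mem_span_singleton.2 ?_)⟩
    rw [X_dvd_iff]
    simp
  have : Module.Finite ((ZMod p)⟦X⟧ ⧸ I) (D ⧸ I.map (algebraMap _ D)) :=
    Module.Finite.of_restrictScalars_finite (ZMod p)⟦X⟧ _ _
  have : Finite (D ⧸ I.map (algebraMap _ D)) := Module.finite_of_finite ((ZMod p)⟦X⟧ ⧸ I)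
  obtain ⟨f, a, w, hf, hw, h⟩ := fp_core (p := p) (I.map (algebraMap _ D))
    ⟨z, Algebra.self_mem_adjoin_singleton _ z⟩
  rw [Ideal.map_span, Set.image_singleton, Ideal.mem_span_singleton] at h
  obtain ⟨c, hc⟩ := h
  exact ⟨f, p ^ a, w, c, hf, congrArg Subtype.val hw,
    (Algebra.IsIntegral.isIntegral w).map D.val, (Algebra.IsIntegral.isIntegral c).map D.val,
    congrArg Subtype.val hc⟩

/-- In characteristic `p` the Frobenius condition can be tested on the algebraic closure of the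
prime field. -/
lemma frob_p (g : Omp p →+* Omp p)
    (hfix : ∀ o : (ZMod p)⟦X⟧, g (algebraMap _ (Omp p) o) = algebraMap _ (Omp p) o) (Q : ℕ)
    (h : ∀ f : ℕ, f ≠ 0 → ∀ w : Omp p, w ^ p ^ f = w → g w ^ Q = w) :
    Frob (ZMod p)⟦X⟧ Q g := by
  refine ⟨hfix, fun z hz => ?_⟩
  obtain ⟨f, n, w, c, hf, hw, iw, ic, e⟩ := fp_near hz
  let G : Omp p →ₐ[(ZMod p)⟦X⟧] Omp p := { g with commutes' := hfix }
  let B := integralClosure (ZMod p)⟦X⟧ (Omp p)
  let I : Ideal B := (Ideal.span {algebraMap (ZMod p)⟦X⟧ B X}).radical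
  have h1 : (⟨z, hz⟩ : B) - ⟨w, iw⟩ ∈ I :=
    ⟨n, Ideal.mem_span_singleton.2 ⟨⟨c, ic⟩, Subtype.ext e⟩⟩
  have e' : (g z - g w) ^ n = algebraMap (ZMod p)⟦X⟧ (Omp p) X * g c := by
    rw [← map_sub, ← map_pow, e, map_mul, hfix]
  have h2 : (⟨g z, hz.map G⟩ : B) - ⟨g w, iw.map G⟩ ∈ I :=
    ⟨n, Ideal.mem_span_singleton.2 ⟨⟨g c, ic.map G⟩, Subtype.ext e'⟩⟩
  obtain ⟨m, hm⟩ := I.sub_mem (I.mem_of_dvd (sub_dvd_pow_sub_pow _ _ Q) h2) h1
  obtain ⟨d, hd⟩ := Ideal.mem_span_singleton.1 hm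
  refine ⟨m, X, d, X_prime.not_isUnit, d.2, ?_⟩
  have k : (g z ^ Q - g w ^ Q - (z - w)) ^ m = algebraMap (ZMod p)⟦X⟧ (Omp p) X * d :=
    congrArg Subtype.val hd
  rw [← k, h f hf w hw]
  congr 1
  ring

end Pool.Agent.MP_855f4c_ag.LP

namespace Pool.Agent.MP_855f4c_ag.LP

open PowerSeries

variable {p : ℕ} [Fact p.Prime]

lemma norm_le_iff (z : PadicAlgCl p) : ‖z‖ ≤ 1 ↔ IsIntegral ℤ_[p] z := by
  have hz : IsIntegral ℚ_[p] z := (Algebra.IsAlgebraic.isAlgebraic z).isIntegral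
  rw [← PadicAlgCl.spectralNorm_eq, spectralNorm, spectralValue_le_one_iff (minpoly.monic hz)]
  constructor
  · intro h
    have hl : minpoly ℚ_[p] z ∈ Polynomial.lifts (algebraMap ℤ_[p] ℚ_[p]) := by
      rw [Polynomial.lifts_iff_coeff_lifts]
      intro n
      exact ⟨⟨_, h n⟩, rfl⟩
    obtain ⟨q, hq, -, hm⟩ := Polynomial.lifts_and_natDegree_eq_and_monic hl (minpoly.monic hz)
    refine ⟨q, hm, ?_⟩
    have := minpoly.aeval ℚ_[p] z
    rw [← hq, Polynomial.aeval_map_algebraMap] at this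
    exact this
  · intro h n
    rw [minpoly.isIntegrallyClosed_eq_field_fractions' ℚ_[p] h, Polynomial.coeff_map]
    exact PadicInt.norm_le_one _

/-- A ring map that fixes `ℤ_[p]` is `ℚ_[p]`-linear. -/
noncomputable def f0_alg (g : PadicAlgCl p →+* PadicAlgCl p)
    (hg : ∀ o : ℤ_[p], g (algebraMap _ _ o) = algebraMap _ _ o) :
    PadicAlgCl p →ₐ[ℚ_[p]] PadicAlgCl p :=
  { g with
    commutes' := fun x => by
      have h : g.comp (algebraMap ℚ_[p] (PadicAlgCl p)) = algebraMap ℚ_[p] (PadicAlgCl p) := by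
        apply IsLocalization.ringHom_ext (nonZeroDivisors ℤ_[p])
        ext o
        have := hg o
        rw [IsScalarTower.algebraMap_apply ℤ_[p] ℚ_[p] (PadicAlgCl p)] at this
        exact this
      exact RingHom.congr_fun h x }

lemma norm_map (g : PadicAlgCl p →+* PadicAlgCl p)
    (hg : ∀ o : ℤ_[p], g (algebraMap _ _ o) = algebraMap _ _ o) (z : PadicAlgCl p) :
    ‖g z‖ = ‖z‖ := by
  rw [← PadicAlgCl.spectralNorm_eq, ← PadicAlgCl.spectralNorm_eq, spectralNorm, spectralNorm]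
  congr 1
  exact minpoly.algHom_eq (f0_alg g hg) g.injective z

lemma f0_norm_alg (o : ℤ_[p]) : ‖algebraMap ℤ_[p] (PadicAlgCl p) o‖ = ‖o‖ := by
  rw [IsScalarTower.algebraMap_apply ℤ_[p] ℚ_[p] (PadicAlgCl p)]
  exact PadicAlgCl.norm_extends _ _

lemma Frob.fr0 {Q : ℕ} {g : PadicAlgCl p → PadicAlgCl p} (h : Frob ℤ_[p] Q g) : Fr0 Q g := by
  intro z hz
  obtain ⟨n, o, c, ho, hc, e⟩ := h.2 z ((norm_le_iff z).1 hz)
  have h1 : ‖o‖ < 1 := PadicInt.not_isUnit_iff.1 ho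
  have h2 : ‖c‖ ≤ 1 := (norm_le_iff c).2 hc
  have h3 : ‖g z ^ Q - z‖ ^ n < 1 := by
    rw [← norm_pow, e, norm_mul, f0_norm_alg]
    exact mul_lt_one_of_nonneg_of_lt_one_left (norm_nonneg _) h1 h2
  by_contra hn
  exact absurd h3 (not_lt.2 (one_le_pow₀ (not_lt.1 hn)))

lemma f0_add {a b : PadicAlgCl p} (ha : ‖a‖ < 1) (hb : ‖b‖ < 1) : ‖a + b‖ < 1 :=
  (IsUltrametricDist.norm_add_le_max a b).trans_lt (max_lt ha hb)

lemma f0_mul {a b : PadicAlgCl p} (ha : ‖a‖ ≤ 1) (hb : ‖b‖ < 1) : ‖a * b‖ < 1 := by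
  rw [norm_mul]
  exact mul_lt_one_of_nonneg_of_lt_one_right ha (norm_nonneg _) hb

lemma f0_powle {a : PadicAlgCl p} (ha : ‖a‖ ≤ 1) (n : ℕ) : ‖a ^ n‖ ≤ 1 := by
  rw [norm_pow]
  exact pow_le_one₀ (norm_nonneg _) ha

lemma f0_pow {a b : PadicAlgCl p} (ha : ‖a‖ ≤ 1) (hb : ‖b‖ ≤ 1) (h : ‖a - b‖ < 1) (n : ℕ) :
    ‖a ^ n - b ^ n‖ < 1 := by
  induction n with
  | zero => simp
  | succ n ih =>
    have : a ^ (n + 1) - b ^ (n + 1) = a * (a ^ n - b ^ n) + b ^ n * (a - b) := by ring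
    rw [this]
    exact f0_add (f0_mul ha ih) (f0_mul (f0_powle hb n) h)

lemma f0_sum {ι : Type*} (s : Finset ι) (f : ι → PadicAlgCl p) (h : ∀ i ∈ s, ‖f i‖ < 1) :
    ‖∑ i ∈ s, f i‖ < 1 := by
  classical
  induction s using Finset.induction_on with
  | empty => simp
  | insert a s ha ih =>
    rw [Finset.sum_insert ha]
    exact f0_add (h a (Finset.mem_insert_self a s))
      (ih fun i hi => h i (Finset.mem_insert_of_mem hi))

lemma f0_norm_iter (g : PadicAlgCl p →+* PadicAlgCl p)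
    (hg : ∀ o : ℤ_[p], g (algebraMap _ _ o) = algebraMap _ _ o) (m : ℕ) (z : PadicAlgCl p) :
    ‖g^[m] z‖ = ‖z‖ := by
  induction m with
  | zero => rfl
  | succ m ih => rw [Function.iterate_succ_apply', norm_map g hg, ih]

lemma Fr0.iterate {Q : ℕ} (g : PadicAlgCl p →+* PadicAlgCl p)
    (hg : ∀ o : ℤ_[p], g (algebraMap _ _ o) = algebraMap _ _ o) (h : Fr0 Q g) (m : ℕ) :
    Fr0 (Q ^ m) g^[m] := by
  intro z hz
  induction m with
  | zero => simp
  | succ m ih =>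
    have hy : ‖g^[m] z‖ ≤ 1 := by rw [f0_norm_iter g hg]; exact hz
    have h1 := f0_pow (f0_powle (by rw [norm_map g hg]; exact hy) Q) hy (h _ hy) (Q ^ m)
    have := f0_add h1 ih
    rw [sub_add_sub_cancel, ← pow_mul, ← pow_succ'] at this
    rw [Function.iterate_succ_apply']
    exact this

lemma f0_per (g : PadicAlgCl p →+* PadicAlgCl p)
    (hg : ∀ o : ℤ_[p], g (algebraMap _ _ o) = algebraMap _ _ o) (z : PadicAlgCl p) :
    ∃ m : ℕ, m ≠ 0 ∧ g^[m] z = z := by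
  have hz : IsIntegral ℚ_[p] z := (Algebra.IsAlgebraic.isAlgebraic z).isIntegral
  have hm : ∀ k : ℕ, g^[k] z ∈ (minpoly ℚ_[p] z).rootSet (PadicAlgCl p) := by
    intro k
    rw [Polynomial.mem_rootSet]
    refine ⟨minpoly.ne_zero hz, ?_⟩
    induction k with
    | zero => exact minpoly.aeval _ _
    | succ k ih =>
      rw [Function.iterate_succ_apply']
      have := Polynomial.aeval_algHom_apply (f0_alg g hg) (g^[k] z) (minpoly ℚ_[p] z)
      rw [ih, map_zero] at this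
      exact this
  obtain ⟨a, b, hab, e⟩ := Set.Finite.exists_lt_map_eq_of_forall_mem hm
    (Polynomial.rootSet_finite _ _)
  obtain ⟨c, rfl⟩ := Nat.exists_eq_add_of_lt hab
  refine ⟨c + 1, Nat.succ_ne_zero c, ?_⟩
  rw [add_assoc, Function.iterate_add_apply] at e
  exact ((g.injective.iterate a) e).symm

/-- A power of an automorphism fixes the image of a frame. -/
lemma fix_pow (Φ : Frame p) (g : PadicAlgCl p →+* PadicAlgCl p)
    (hg : ∀ o : ℤ_[p], g (algebraMap _ _ o) = algebraMap _ _ o) :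
    ∃ m : ℕ, m ≠ 0 ∧ ∀ a, g^[m] (Φ.ev a) = Φ.ev a := by
  classical
  choose per hper hfix using f0_per g hg
  obtain ⟨s, hs⟩ := Module.Finite.fg_top (R := ℤ_[p]) (M := Φ.U.W)
  have hd : ∀ (z : PadicAlgCl p) (m : ℕ), per z ∣ m → g^[m] z = z := by
    rintro z m ⟨k, rfl⟩
    rw [Function.iterate_mul]
    exact Function.iterate_fixed (hfix z) k
  obtain ⟨m, hm, hX, hC⟩ : ∃ m : ℕ, m ≠ 0 ∧ per (Φ.ι X) ∣ m ∧ ∀ w ∈ s, per (Φ.ι (C w)) ∣ m :=
    ⟨per (Φ.ι X) * ∏ w ∈ s, per (Φ.ι (C w)),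
      mul_ne_zero (hper _) (Finset.prod_ne_zero_iff.2 fun w _ => hper _), dvd_mul_right _ _,
      fun w hw => (Finset.dvd_prod_of_mem (fun w => per (Φ.ι (C w))) hw).mul_left _⟩
  refine ⟨m, hm, ?_⟩
  have hco : ∀ z, (g ^ m) z = g^[m] z := fun z => by rw [RingHom.coe_pow]
  have hZ : ∀ o : ℤ_[p], (g ^ m) (algebraMap _ _ o) = algebraMap _ _ o := fun o => by
    rw [hco]
    exact Function.iterate_fixed (hg o) m
  have hW : ∀ w : Φ.U.W, (g ^ m) (Φ.ι (C w)) = Φ.ι (C w) := by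
    intro w
    have hw : w ∈ Submodule.span ℤ_[p] (s : Set Φ.U.W) := hs ▸ Submodule.mem_top
    induction hw using Submodule.span_induction with
    | mem w hw => rw [hco]; exact hd _ _ (hC w hw)
    | zero => simp
    | add x y _ _ hx hy => rw [map_add, map_add, map_add, hx, hy]
    | smul o x _ hx => rw [Algebra.smul_def, map_mul, map_mul, map_mul, hx, Φ.hZ, hZ]
  have h1 : (g ^ m).comp Φ.ι = Φ.ι := by
    refine hom_ext_norm _ _ (fun f => ?_) Φ.le ?_ hW ?_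
    · rw [RingHom.comp_apply, norm_map _ hZ]; exact Φ.le f
    · rw [RingHom.comp_apply, norm_map _ hZ]; exact Φ.lt
    · rw [RingHom.comp_apply, hco]; exact hd _ _ hX
  have h2 : (g ^ m).comp Φ.ev = Φ.ev := by
    apply IsLocalization.ringHom_ext (Submonoid.powers (X : Φ.U.W⟦X⟧))
    refine RingHom.ext fun f => ?_
    rw [RingHom.comp_apply, RingHom.comp_apply, RingHom.comp_apply, Frame.ev_algebraMap]
    exact RingHom.congr_fun h1 f
  intro a
  rw [← hco]
  exact RingHom.congr_fun h2 a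

lemma f0_le_of_pow {x : PadicAlgCl p} {q : ℕ} (hq : 1 < q) (h : x ^ q = x) : ‖x‖ ≤ 1 := by
  by_contra hn
  have h1 : ‖x‖ ^ 1 < ‖x‖ ^ q := pow_lt_pow_right₀ (not_le.1 hn) hq
  rw [← norm_pow, ← norm_pow, h, pow_one] at h1
  exact lt_irrefl _ h1

/-- Two congruent solutions of `c ^ p ^ f = c` in a domain are equal. -/
lemma teich_eq {C : Type*} [CommRing C] [IsDomain C] (a : C →+* PadicAlgCl p) (f : ℕ) (hf : f ≠ 0)
    (c d : C) (hc : c ^ p ^ f = c) (hd : d ^ p ^ f = d) (h : ‖a c - a d‖ < 1) : c = d := by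
  by_contra hne
  have hq : 1 < p ^ f := Nat.one_lt_pow hf (Fact.out : p.Prime).one_lt
  have hx : ‖a c‖ ≤ 1 := f0_le_of_pow hq (by rw [← map_pow, hc])
  have hy : ‖a d‖ ≤ 1 := f0_le_of_pow hq (by rw [← map_pow, hd])
  have h1 := geom_sum₂_mul c d (p ^ f)
  rw [hc, hd] at h1
  have h2 : ∑ i ∈ Finset.range (p ^ f), c ^ i * d ^ (p ^ f - 1 - i) = 1 :=
    mul_right_cancel₀ (sub_ne_zero.2 hne) (by rw [h1, one_mul])
  have h3 := congrArg a h2
  simp only [map_sum, map_mul, map_pow, map_one] at h3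
  have h4 : ‖∑ i ∈ Finset.range (p ^ f),
      (a c ^ i * a d ^ (p ^ f - 1 - i) - a d ^ (p ^ f - 1))‖ < 1 := by
    refine f0_sum _ _ fun i hi => ?_
    have hi' : p ^ f - 1 = i + (p ^ f - 1 - i) := by
      have := Finset.mem_range.1 hi
      omega
    have : a c ^ i * a d ^ (p ^ f - 1 - i) - a d ^ (p ^ f - 1) =
        a d ^ (p ^ f - 1 - i) * (a c ^ i - a d ^ i) := by
      conv_lhs => rw [hi', pow_add, ← hi']
      ring
    rw [this]
    exact f0_mul (f0_powle hy _) (f0_pow hx hy h i)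
  rw [Finset.sum_sub_distrib, h3, Finset.sum_const, Finset.card_range, nsmul_eq_mul] at h4
  have h5 : ‖((p ^ f : ℕ) : PadicAlgCl p)‖ < 1 := by
    have : ‖(p : PadicAlgCl p)‖ < 1 := by
      have e := f0_norm_alg (p := p) (p : ℤ_[p])
      rw [map_natCast] at e
      rw [e]
      exact PadicInt.norm_natCast_lt_one_iff.2 dvd_rfl
    rw [Nat.cast_pow, norm_pow]
    exact pow_lt_one₀ (norm_nonneg _) this hf
  have h6 := f0_add h4 (mul_comm (a d ^ (p ^ f - 1)) _ ▸ f0_mul (f0_powle hy (p ^ f - 1)) h5)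
  rw [sub_add_cancel, norm_one] at h6
  exact lt_irrefl _ h6

end Pool.Agent.MP_855f4c_ag.LP

namespace Pool.Agent.MP_855f4c_ag.LP

variable {p : ℕ} [Fact p.Prime]

lemma mv_norm_nat (n : ℕ) (hn : p.Coprime n) : ‖(n : PadicAlgCl p)‖ = 1 := by
  have h := PadicAlgCl.norm_extends p (n : ℚ_[p])
  rw [map_natCast] at h
  rw [h, Padic.norm_natCast_eq_one_iff]
  exact hn

lemma mv_root (N : ℕ) (hN : p.Coprime N) (z : PadicAlgCl p) (hz : z ^ N = 1) (h0 : N ≠ 0)
    (h : ‖z - 1‖ < 1) : z = 1 := by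
  by_contra hne
  have hn : ‖z‖ = 1 := by
    have : ‖z‖ ^ N = 1 := by rw [← norm_pow, hz, norm_one]
    exact (pow_eq_one_iff_of_nonneg (norm_nonneg _) h0).1 this
  have hs : ∑ i ∈ Finset.range N, z ^ i = 0 := by
    have := mul_geom_sum z N
    rw [hz, sub_self] at this
    exact (mul_eq_zero.1 this).resolve_left (sub_ne_zero.2 hne)
  have hi : ∀ i : ℕ, ‖z ^ i - 1‖ ≤ ‖z - 1‖ := by
    intro i
    induction i with
    | zero => simp
    | succ i ih =>
      have e : z ^ (i + 1) - 1 = z * (z ^ i - 1) + (z - 1) := by ring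
      rw [e]
      refine (IsUltrametricDist.norm_add_le_max _ _).trans (max_le ?_ le_rfl)
      rw [norm_mul, hn, one_mul]
      exact ih
  have hle : ‖∑ i ∈ Finset.range N, (z ^ i - 1)‖ ≤ ‖z - 1‖ :=
    IsUltrametricDist.norm_sum_le_of_forall_le_of_nonneg (norm_nonneg _) (fun i _ => hi i)
  rw [Finset.sum_sub_distrib, hs] at hle
  simp only [Finset.sum_const, Finset.card_range, nsmul_eq_mul, mul_one, zero_sub,
    norm_neg] at hle
  rw [mv_norm_nat N hN] at hle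
  linarith

lemma mv_fix (N : ℕ) (hN : p.Coprime N) (h0 : N ≠ 0) (g : PadicAlgCl p →+* PadicAlgCl p)
    (hu : Fr0 1 g) (r : PadicAlgCl p) (hr : ‖r ^ N‖ = 1) (hw : g (r ^ N) = r ^ N) : g r = r := by
  have hn : ‖r‖ = 1 := by
    rw [norm_pow] at hr
    exact (pow_eq_one_iff_of_nonneg (norm_nonneg _) h0).1 hr
  have hr0 : r ≠ 0 := by
    intro h
    rw [h, norm_zero] at hn
    exact zero_ne_one hn
  have h1 := hu r hn.le
  rw [pow_one] at h1
  have h2 : g r / r = 1 := by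
    apply mv_root N hN _ _ h0
    · have e : g r / r - 1 = (g r - r) / r := by field_simp
      rw [e, norm_div, hn, div_one]
      exact h1
    · rw [div_pow, ← map_pow, hw, div_self (pow_ne_zero _ hr0)]
  exact (div_eq_one_iff_eq hr0).1 h2

lemma mv_norm_rel (π : PadicAlgCl p) (h0 : π ≠ 0) (h1 : ‖π‖ < 1) (o : ℤ_[p]) (ho : o ≠ 0) :
    ∃ a b : ℕ, a ≠ 0 ∧ ‖algebraMap ℤ_[p] (PadicAlgCl p) o‖ ^ a = ‖π‖ ^ b := by
  have hint : IsIntegral ℚ_[p] π := (Algebra.IsAlgebraic.isAlgebraic π).isIntegral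
  have hd := minpoly.natDegree_pos hint
  have hc := minpoly.coeff_zero_ne_zero hint h0
  have hs := spectralNorm.spectralNorm_eq_norm_coeff_zero_rpow ℚ_[p] (PadicAlgCl p) π
  rw [PadicAlgCl.spectralNorm_eq] at hs
  set d := (minpoly ℚ_[p] π).natDegree
  set c := (minpoly ℚ_[p] π).coeff 0
  have hp1 : (1 : ℝ) < p := by exact_mod_cast (Fact.out : p.Prime).one_lt
  have hπd : ‖π‖ ^ d = (p : ℝ) ^ (-c.valuation) := by
    rw [hs, one_div, Real.rpow_inv_natCast_pow (norm_nonneg _) hd.ne',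
      Padic.norm_eq_zpow_neg_valuation hc]
  have hlt : (p : ℝ) ^ (-c.valuation) < 1 := by
    rw [← hπd]
    exact pow_lt_one₀ (norm_nonneg _) h1 hd.ne'
  have hk : 0 < c.valuation := by
    have := (zpow_lt_one_iff_right₀ hp1).1 hlt
    omega
  obtain ⟨k, hk'⟩ := Int.eq_ofNat_of_zero_le hk.le
  have hno : ‖algebraMap ℤ_[p] (PadicAlgCl p) o‖ = (p : ℝ) ^ (-(o.valuation : ℤ)) := by
    rw [IsScalarTower.algebraMap_apply ℤ_[p] ℚ_[p] (PadicAlgCl p), PadicAlgCl.norm_extends,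
      ← PadicInt.norm_eq_zpow_neg_valuation ho]
    rfl
  refine ⟨k, d * o.valuation, by omega, ?_⟩
  rw [hno, pow_mul, hπd, hk', ← zpow_natCast, ← zpow_natCast, ← zpow_mul, ← zpow_mul]
  congr 1
  ring

/-- The tame character of an inertia element is non-trivial on one base iff on another. -/
lemma mv (l : ℕ) (hl : l.Prime) (hlp : l ≠ p) (u : PadicAlgCl p →+* PadicAlgCl p)
    (hg : ∀ o : ℤ_[p], u (algebraMap _ _ o) = algebraMap _ _ o) (hu : Fr0 1 u) (m : ℕ)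
    (hm : m ≠ 0) (π : PadicAlgCl p) (h0 : π ≠ 0) (h1 : ‖π‖ < 1) (hπ : u^[m] π = π)
    (h : ∃ (n : ℕ) (r : PadicAlgCl p) (o : ℤ_[p]), r ^ l ^ n = algebraMap _ _ o ∧ u r ≠ r) :
    ∃ (n : ℕ) (r : PadicAlgCl p), r ^ l ^ n = π ∧ u^[m] r ≠ r := by
  by_contra hcon
  push Not at hcon
  obtain ⟨n, r, o, hr, hur⟩ := h
  have hcop : ∀ k : ℕ, p.Coprime (l ^ k) := fun k =>
    Nat.Coprime.pow_right k ((Nat.coprime_primes Fact.out hl).2 (Ne.symm hlp))
  have hl0 : ∀ k : ℕ, l ^ k ≠ 0 := fun k => pow_ne_zero k hl.ne_zero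
  have hr0 : r ≠ 0 := by
    rintro rfl
    exact hur (map_zero u)
  have ho' : algebraMap ℤ_[p] (PadicAlgCl p) o ≠ 0 := hr ▸ pow_ne_zero _ hr0
  have ho : o ≠ 0 := by
    rintro rfl
    exact ho' (map_zero _)
  obtain ⟨a, b, ha, hab⟩ := mv_norm_rel π h0 h1 o ho
  obtain ⟨s, a', ha', hs⟩ := Nat.exists_eq_pow_mul_and_not_dvd (mul_ne_zero hm ha) l hl.ne_one
  obtain ⟨r2, hr2⟩ := IsAlgClosed.exists_pow_nat_eq r (Nat.pos_of_ne_zero (hl0 s))
  obtain ⟨ρ, hρ⟩ := IsAlgClosed.exists_pow_nat_eq π (Nat.pos_of_ne_zero (hl0 (s + n)))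
  have hr20 : r2 ≠ 0 := by
    rintro rfl
    rw [zero_pow (hl0 s)] at hr2
    exact hr0 hr2.symm
  have hρ0 : ρ ≠ 0 := by
    rintro rfl
    rw [zero_pow (hl0 _)] at hρ
    exact h0 hρ.symm
  have hro : r2 ^ l ^ (s + n) = algebraMap ℤ_[p] (PadicAlgCl p) o := by
    rw [pow_add, pow_mul, hr2, hr]
  have hG : ∀ z, (u ^ m) z = u^[m] z := fun z => by rw [RingHom.coe_pow]
  have hGu : Fr0 1 (u ^ m : PadicAlgCl p →+* PadicAlgCl p) := by
    have := Fr0.iterate u hg hu m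
    rw [one_pow] at this
    rw [RingHom.coe_pow]
    exact this
  have hGo : (u ^ m) (algebraMap ℤ_[p] (PadicAlgCl p) o) = algebraMap _ _ o := by
    rw [hG]
    exact Function.iterate_fixed (hg o) m
  have hGρ : (u ^ m) ρ = ρ := by rw [hG]; exact hcon _ _ hρ
  have hq : (r2 ^ a / ρ ^ b) ^ l ^ (s + n) = algebraMap ℤ_[p] (PadicAlgCl p) o ^ a / π ^ b := by
    rw [div_pow, ← pow_mul, ← pow_mul, mul_comm a, mul_comm b, pow_mul, pow_mul, hro, hρ]
  have hfix : (u ^ m) (r2 ^ a / ρ ^ b) = r2 ^ a / ρ ^ b := by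
    apply mv_fix _ (hcop (s + n)) (hl0 _) _ hGu
    · rw [hq, norm_div, norm_pow, norm_pow, hab, div_self (pow_ne_zero _ (norm_ne_zero_iff.2 h0))]
    · rw [hq, map_div₀, map_pow, map_pow, hGo, hG, hπ]
  rw [map_div₀, map_pow, map_pow, hGρ, div_left_inj' (pow_ne_zero _ hρ0)] at hfix
  set ξ := u r2 / r2 with hξ
  have hξ1 : ξ ^ l ^ (s + n) = 1 := by
    rw [hξ, div_pow, ← map_pow, hro, hg, div_self ho']
  have huξ : u ξ = ξ := by
    apply mv_fix _ (hcop (s + n)) (hl0 _) _ hu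
    · rw [hξ1, norm_one]
    · rw [hξ1, map_one]
  have hur2 : u r2 = ξ * r2 := by rw [hξ, div_mul_cancel₀ _ hr20]
  have hit : ∀ k : ℕ, u^[k] r2 = ξ ^ k * r2 := by
    intro k
    induction k with
    | zero => simp
    | succ k ih =>
      rw [Function.iterate_succ_apply', ih, map_mul, map_pow, huξ, hur2]
      ring
  have hξ2 : ξ ^ (m * a) = 1 := by
    rw [hG, hit, mul_pow, ← pow_mul] at hfix
    exact mul_right_cancel₀ (pow_ne_zero a hr20) (by rw [hfix, one_mul])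
  have hξ3 : ξ ^ l ^ s = 1 := by
    rw [← orderOf_dvd_iff_pow_eq_one] at hξ1 hξ2 ⊢
    rw [hs] at hξ2
    refine Nat.Coprime.dvd_of_dvd_mul_right ?_ hξ2
    exact Nat.Coprime.coprime_dvd_left hξ1
      (Nat.Coprime.pow_left _ ((Nat.Prime.coprime_iff_not_dvd hl).2 ha'))
  apply hur
  rw [← hr2, map_pow, hur2, mul_pow, hξ3, one_mul]

end Pool.Agent.MP_855f4c_ag.LP

namespace Pool.Agent.MP_855f4c_ag.LP

open PowerSeries

variable {p : ℕ} [Fact p.Prime]

lemma gp_inj : Function.Injective (algebraMap (ZMod p)⟦X⟧ (Omp p)) := by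
  rw [IsScalarTower.algebraMap_eq (ZMod p)⟦X⟧ (FractionRing (ZMod p)⟦X⟧) (Omp p)]
  exact (algebraMap (FractionRing (ZMod p)⟦X⟧) (Omp p)).injective.comp
    (IsFractionRing.injective _ _)

lemma gp_X : algebraMap (ZMod p)⟦X⟧ (Omp p) X ≠ 0 := fun h =>
  X_ne_zero (gp_inj (h.trans (map_zero _).symm))

lemma gp_char : CharP (Omp p) p :=
  charP_of_injective_ringHom (f := (algebraMap (ZMod p)⟦X⟧ (Omp p)).comp (C (R := ZMod p)))
    (RingHom.injective _) p

/-- The reduction modulo `p`. -/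
lemma exists_red (U : Unr p) : ∃ r : Lam U.W →+* Omp p, ∀ f : ℤ_[p]⟦X⟧,
    r (algebraMap U.W⟦X⟧ _ (PowerSeries.map (algebraMap ℤ_[p] U.W) f)) =
      algebraMap (ZMod p)⟦X⟧ (Omp p) (PowerSeries.map PadicInt.toZMod f) := by
  obtain ⟨y, hy⟩ := ext_int (PowerSeries.map (algebraMap ℤ_[p] U.W))
    (map_isIntegral _ (RingHom.finite_algebraMap.2 inferInstance))
    ((algebraMap (ZMod p)⟦X⟧ (Omp p)).comp (PowerSeries.map PadicInt.toZMod)) (by
      rw [(RingHom.injective_iff_ker_eq_bot _).1 (PowerSeries.map_injective _ U.inj)]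
      exact bot_le)
  have hX : y X ≠ 0 := by
    have := hy X
    rw [PowerSeries.map_X, RingHom.comp_apply, PowerSeries.map_X] at this
    rw [this]
    exact gp_X
  exact ⟨IsLocalization.Away.lift (X : U.W⟦X⟧) (IsUnit.mk0 _ hX), fun f =>
    (IsLocalization.Away.lift_eq _ _ _).trans (hy f)⟩

lemma gp_range (U : Unr p) (e : Lam U.W →+* Omp p) (he : ∀ f : ℤ_[p]⟦X⟧,
    e (algebraMap U.W⟦X⟧ _ (PowerSeries.map (algebraMap ℤ_[p] U.W) f)) =
      algebraMap (ZMod p)⟦X⟧ (Omp p) (PowerSeries.map PadicInt.toZMod f))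
    (y : FractionRing (ZMod p)⟦X⟧) : ∃ b, e b = algebraMap _ (Omp p) y := by
  obtain ⟨f, g, hg, rfl⟩ := IsFractionRing.div_surjective (A := (ZMod p)⟦X⟧) y
  obtain ⟨n, u, rfl⟩ := IsDiscreteValuationRing.eq_unit_mul_pow_irreducible
    (nonZeroDivisors.ne_zero hg) (X_irreducible (R := ZMod p))
  obtain ⟨f', hf'⟩ := PowerSeries.map_surjective (PadicInt.toZMod (p := p))
    (ZMod.ringHom_surjective _) (f * ↑u⁻¹)
  obtain ⟨v, hv⟩ := (IsLocalization.Away.algebraMap_isUnit (S := Lam U.W)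
    (X : U.W⟦X⟧)).exists_right_inv
  have hX := he X
  rw [PowerSeries.map_X, PowerSeries.map_X] at hX
  have h1 : e v = (algebraMap (ZMod p)⟦X⟧ (Omp p) X)⁻¹ := by
    rw [← hX]
    exact eq_inv_of_mul_eq_one_right (by rw [← map_mul, hv, map_one])
  refine ⟨algebraMap U.W⟦X⟧ _ (PowerSeries.map (algebraMap ℤ_[p] U.W) f') * v ^ n, ?_⟩
  rw [map_mul, he, hf', map_pow, h1, map_div₀, ← IsScalarTower.algebraMap_apply,
    ← IsScalarTower.algebraMap_apply, map_mul, map_mul, map_pow, map_units_inv, div_eq_mul_inv,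
    mul_inv, inv_pow, mul_assoc]

lemma gp_int (U : Unr p) (e : Lam U.W →+* Omp p)
    (he : ∀ y : FractionRing (ZMod p)⟦X⟧, ∃ b, e b = algebraMap _ (Omp p) y) : e.IsIntegral := by
  intro z
  obtain ⟨q, hq, hz⟩ : IsIntegral (FractionRing (ZMod p)⟦X⟧) z := Algebra.IsIntegral.isIntegral z
  obtain ⟨q', h1, -, h2⟩ := Polynomial.lifts_and_natDegree_eq_and_monic (f := e)
    (p := q.map (algebraMap _ (Omp p))) ((Polynomial.lifts_iff_coeff_lifts _).2 fun n => by
      rw [Polynomial.coeff_map]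
      exact he _) (hq.map _)
  refine ⟨q', h2, ?_⟩
  rw [Polynomial.eval₂_eq_eval_map, h1, ← Polynomial.eval₂_eq_eval_map, hz]

lemma gp_bot {A C : Type*} [CommRing A] [CommRing C] [Algebra A C] :
    Module.Finite A (⊥ : Subalgebra A C) ∧ Algebra.FormallyUnramified A (⊥ : Subalgebra A C) := by
  have h : Function.Surjective (Algebra.ofId A (⊥ : Subalgebra A C)) := by
    rintro ⟨c, hc⟩
    obtain ⟨r, rfl⟩ := Algebra.mem_bot.1 hc
    exact ⟨r, rfl⟩
  exact ⟨Module.Finite.of_surjective (Algebra.ofId A _).toLinearMap h,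
    Algebra.FormallyUnramified.of_surjective _ h⟩

/-- The union of the finite unramified subalgebras. -/
def gp_max (A C : Type*) [CommRing A] [CommRing C] [Algebra A C] : Subalgebra A C where
  carrier := {c | ∃ D : Subalgebra A C, Module.Finite A D ∧ Algebra.FormallyUnramified A D ∧ c ∈ D}
  mul_mem' := fun ⟨D, _, _, h⟩ ⟨E, _, _, k⟩ => ⟨D ⊔ E, (unr_sup D E).1, (unr_sup D E).2,
    mul_mem (le_sup_left (a := D) h) (le_sup_right (a := D) k)⟩
  add_mem' := fun ⟨D, _, _, h⟩ ⟨E, _, _, k⟩ => ⟨D ⊔ E, (unr_sup D E).1, (unr_sup D E).2,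
    add_mem (le_sup_left (a := D) h) (le_sup_right (a := D) k)⟩
  algebraMap_mem' := fun r => ⟨⊥, gp_bot.1, gp_bot.2, Subalgebra.algebraMap_mem _ r⟩

/-- An endomorphism of the cover is induced, on its unramified part, by an automorphism of the
characteristic `p` point. -/
lemma gprime (U : Unr p) (C : Type) [CommRing C] [IsDomain C] [Algebra (Lam U.W) C]
    (hinj : Function.Injective (algebraMap (Lam U.W) C)) (a : C →+* Omp p)
    (ha : ∀ f : ℤ_[p]⟦X⟧, a (algebraMap (Lam U.W) C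
      (algebraMap U.W⟦X⟧ _ (PowerSeries.map (algebraMap ℤ_[p] U.W) f))) =
        algebraMap (ZMod p)⟦X⟧ (Omp p) (PowerSeries.map PadicInt.toZMod f))
    (γ : C →ₐ[Lam U.W] C) :
    ∃ g : Omp p ≃+* Omp p, (∀ b, g (a (algebraMap (Lam U.W) C b)) = a (algebraMap _ C b)) ∧
      ∀ D : Subalgebra (Lam U.W) C, Module.Finite (Lam U.W) D →
        Algebra.FormallyUnramified (Lam U.W) D → ∀ c ∈ D, g (a c) = a (γ c) := by
  have := gp_char (p := p)
  have hr := gp_range U (a.comp (algebraMap _ C)) ha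
  obtain ⟨y, hy⟩ := ext_int (a.comp (gp_max (Lam U.W) C).val.toRingHom)
    (RingHom.IsIntegral.tower_top (algebraMap (Lam U.W) (gp_max (Lam U.W) C)) _
      (gp_int U (a.comp (algebraMap _ C)) hr))
    ((a.comp γ.toRingHom).comp (gp_max (Lam U.W) C).val.toRingHom) (by
      rintro ⟨c, D, h1, h2, hc⟩ h
      exact ns U D (fun x y e => hinj (congrArg Subtype.val e)) (a.comp D.val.toRingHom)
        ((a.comp γ.toRingHom).comp D.val.toRingHom) ⟨c, hc⟩ h)
  have h0 : ∀ b, y (a (algebraMap (Lam U.W) C b)) = a (algebraMap _ C b) := fun b =>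
    (hy (algebraMap _ _ b)).trans (congrArg a (γ.commutes b))
  let y' : Omp p →ₐ[FractionRing (ZMod p)⟦X⟧] Omp p := { y with
    commutes' := fun t => by
      obtain ⟨b, hb⟩ := hr t
      rw [← hb]
      exact h0 b }
  exact ⟨RingEquiv.ofBijective y (Algebra.IsAlgebraic.algHom_bijective y'), h0,
    fun D h1 h2 c hc => hy ⟨c, D, h1, h2, hc⟩⟩

end Pool.Agent.MP_855f4c_ag.LP

namespace Pool.Agent.MP_855f4c_ag.LP

open PowerSeries

lemma mn_root {C Ω : Type*} [CommRing C] [IsDomain C] [Field Ω]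
    (hC : ∀ q : Polynomial C, q.Monic → q.Splits) (a : C →+* Ω) (q : Polynomial C) (hq : q.Monic)
    (w : Ω) (hw : q.eval₂ a w = 0) : ∃ c, q.eval c = 0 ∧ a c = w := by
  obtain ⟨m, hm⟩ := Polynomial.splits_iff_exists_multiset.1 (hC q hq)
  rw [hq.leadingCoeff, Polynomial.C_1, one_mul] at hm
  have h1 : (m.map fun c => w - a c).prod = 0 := by
    have := hw
    rw [hm, ← Polynomial.coe_eval₂RingHom, map_multiset_prod, Multiset.map_map] at this
    simpa using this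
  obtain ⟨c, hc, h0⟩ := Multiset.mem_map.1 (Multiset.prod_eq_zero_iff.1 h1)
  refine ⟨c, ?_, (sub_eq_zero.1 h0).symm⟩
  rw [hm, ← Polynomial.coe_evalRingHom, map_multiset_prod, Multiset.map_map]
  exact Multiset.prod_eq_zero (Multiset.mem_map.2 ⟨c, hc, by simp⟩)

variable {p : ℕ} [Fact p.Prime]

lemma mn_unit (U : Unr p) (n : ℤ) (h : IsUnit (n : ℤ_[p])) : IsUnit (n : Lam U.W) := by
  have := h.map ((algebraMap U.W⟦X⟧ (Lam U.W)).comp ((C (R := U.W)).comp (algebraMap ℤ_[p] U.W)))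
  rwa [map_intCast] at this

lemma mn_step (Φ : Frame p) (C : Type) [CommRing C] [IsDomain C] [Algebra (Lam Φ.U.W) C]
    [Algebra.IsIntegral (Lam Φ.U.W) C] (hinj : Function.Injective (algebraMap (Lam Φ.U.W) C))
    (hC : ∀ q : Polynomial C, q.Monic → q.Splits) (a0 : C →+* PadicAlgCl p)
    (ha0 : ∀ b, a0 (algebraMap _ C b) = Φ.ev b) (ap : C →+* Omp p)
    (hap : ∀ f : ℤ_[p]⟦X⟧, ap (algebraMap (Lam Φ.U.W) C
      (algebraMap Φ.U.W⟦X⟧ _ (PowerSeries.map (algebraMap ℤ_[p] Φ.U.W) f))) =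
        algebraMap (ZMod p)⟦X⟧ (Omp p) (PowerSeries.map PadicInt.toZMod f))
    (g : PadicAlgCl p →+* PadicAlgCl p) (hg : ∀ b, g (Φ.ev b) = Φ.ev b) (Q : ℕ) (hQ : Fr0 Q g) :
    ∃ (γ : C →ₐ[Lam Φ.U.W] C) (g' : Omp p ≃+* Omp p), (∀ c, a0 (γ c) = g (a0 c)) ∧
      (∀ b, g' (ap (algebraMap (Lam Φ.U.W) C b)) = ap (algebraMap _ C b)) ∧
      (∀ D : Subalgebra (Lam Φ.U.W) C, Module.Finite (Lam Φ.U.W) D →
        Algebra.FormallyUnramified (Lam Φ.U.W) D → ∀ c ∈ D, g' (ap c) = ap (γ c)) ∧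
      Frob (ZMod p)⟦X⟧ Q g' := by
  have : FaithfulSMul (Lam Φ.U.W) C := (faithfulSMul_iff_algebraMap_injective _ _).2 hinj
  have : Module.Flat (Lam Φ.U.W) C := inferInstance
  obtain ⟨γ, hγ⟩ := sec (A := Lam Φ.U.W) (B := C) hC a0 (g.comp a0)
    (fun r => by simp only [RingHom.comp_apply, ha0, hg])
  obtain ⟨g', h1, h2⟩ := gprime Φ.U C hinj ap hap γ
  refine ⟨γ, g', hγ, h1, h2, frob_p g'.toRingHom (fun o => ?_) Q (fun f hf w hw => ?_)⟩
  · obtain ⟨f, rfl⟩ := PowerSeries.map_surjective (PadicInt.toZMod (p := p))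
      (ZMod.ringHom_surjective _) o
    rw [← hap]; exact h1 _
  · have hq : 1 < p ^ f := Nat.one_lt_pow hf (Fact.out : p.Prime).one_lt
    have hmon : (Polynomial.X ^ p ^ f - Polynomial.X : Polynomial C).Monic :=
      Polynomial.monic_X_pow_sub (by rw [Polynomial.degree_X]; exact_mod_cast hq)
    obtain ⟨c, hc, rfl⟩ := mn_root hC ap _ hmon w (by simp [Polynomial.eval₂_sub, hw])
    have hc' : c ^ p ^ f = c := by simpa [sub_eq_zero] using hc
    have hu : Algebra.FormallyUnramified (Lam Φ.U.W) (Algebra.adjoin (Lam Φ.U.W) {c}) := by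
      refine unr_adjoin c (Polynomial.X ^ p ^ f - Polynomial.X) (by simp [hc']) ?_
      simp only [Polynomial.derivative_X_pow, Polynomial.derivative_X,
        map_sub, map_mul, map_pow, Polynomial.aeval_X, map_one, map_natCast]
      by_cases h0 : c = 0
      · refine ⟨-1, neg_mem (one_mem _), ?_⟩
        rw [h0, zero_pow (by omega)]; simp
      · have h3 : c ^ (p ^ f - 1) = 1 := by
          apply mul_right_cancel₀ h0
          rw [← pow_succ, Nat.sub_add_cancel hq.le, hc', one_mul]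
        have h4 : IsUnit (((p ^ f : ℕ) - 1 : ℤ) : ℤ_[p]) := by
          rw [← IsUnit.neg_iff]
          push_cast
          rw [neg_sub]
          apply IsLocalRing.isUnit_one_sub_self_of_mem_nonunits
          rw [mem_nonunits_iff, isUnit_pow_iff hf]
          exact PadicInt.irreducible_p.not_isUnit
        obtain ⟨e, he⟩ := (mn_unit Φ.U _ h4).exists_right_inv
        refine ⟨algebraMap _ C e, Subalgebra.algebraMap_mem _ _, ?_⟩
        have := congrArg (algebraMap _ C) he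
        rw [map_mul, map_intCast, map_one] at this
        rw [h3, mul_one]; push_cast at this ⊢; exact this
    have hf' : Module.Finite (Lam Φ.U.W) (Algebra.adjoin (Lam Φ.U.W) {c}) :=
      Algebra.finite_adjoin_simple_of_isIntegral (Algebra.IsIntegral.isIntegral c)
    have h5 := h2 _ hf' hu c (Algebra.self_mem_adjoin_singleton _ c)
    have h6 : γ c ^ Q = c := by
      refine teich_eq a0 f hf _ _ ?_ hc' ?_
      · rw [← pow_mul, mul_comm, pow_mul, ← map_pow γ c, hc']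
      · rw [map_pow, hγ]
        refine hQ _ ?_
        have h7 : ‖a0 c‖ ^ p ^ f = ‖a0 c‖ := by rw [← norm_pow, ← map_pow, hc']
        by_contra h8
        push Not at h8
        have := pow_lt_pow_right₀ h8 hq
        rw [pow_one, h7] at this
        exact lt_irrefl _ this
    change g' (ap c) ^ Q = ap c
    rw [h5, ← map_pow, h6]

theorem mn_core (l : ℕ) (hl : l.Prime) (hlp : l ≠ p) {A F : Type}
    [CommRing A] [Field F] [CharZero F] (L : LocSys A F) (i : ℤ)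
    (H : ∀ [Algebra A (Omp p)], (∀ a, IsAlgebraic (Polynomial (ZMod p)) (algebraMap A (Omp p) a)) →
      WM L l i (ZMod p)⟦X⟧ (Omp p)) [Algebra A (PadicAlgCl p)]
    (Φ : Frame p) (x : A →+* Lam Φ.U.W) (hx : ∀ r, Φ.ev (x r) = algebraMap A (PadicAlgCl p) r)
    (hal : ∀ r, Al Φ.U (x r))
    (C : Type) [CommRing C] [IsDomain C] [Algebra (Lam Φ.U.W) C]
    [Algebra.IsIntegral (Lam Φ.U.W) C] (hinj : Function.Injective (algebraMap (Lam Φ.U.W) C))
    (hC : ∀ q : Polynomial C, q.Monic → q.Splits) :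
    WM L l i ℤ_[p] (PadicAlgCl p) := by
  intro φ u Q hQ hφ hu hmv
  have hint : (algebraMap (Lam Φ.U.W) C).IsIntegral := Algebra.IsIntegral.isIntegral
  have hker := (RingHom.injective_iff_ker_eq_bot _).1 hinj
  obtain ⟨a0, ha0⟩ := ext_int _ hint Φ.ev (by rw [hker]; exact bot_le)
  obtain ⟨r, hr⟩ := exists_red Φ.U
  obtain ⟨ap, hap⟩ := ext_int _ hint r (by rw [hker]; exact bot_le)
  have hap' := fun f => (hap _).trans (hr f)
  obtain ⟨m1, hm1, h1⟩ := fix_pow Φ φ.toRingEquiv.toRingHom hφ.1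
  obtain ⟨m2, hm2, h2⟩ := fix_pow Φ u.toRingEquiv.toRingHom hu.1
  have hm : m1 * m2 ≠ 0 := mul_ne_zero hm1 hm2
  have c1 : ∀ g : PadicAlgCl p ≃ₐ[A] PadicAlgCl p,
      ⇑(g ^ (m1 * m2)).toRingEquiv.toRingHom = (⇑g.toRingEquiv.toRingHom)^[m1 * m2] :=
    fun g => AlgEquiv.coe_pow g _
  have f1 : ∀ b, (φ ^ (m1 * m2)).toRingEquiv.toRingHom (Φ.ev b) = Φ.ev b := fun b => by
    rw [c1]; exact Function.IsPeriodicPt.mul_const (h1 b) m2
  have f2 : ∀ b, (u ^ (m1 * m2)).toRingEquiv.toRingHom (Φ.ev b) = Φ.ev b := fun b => by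
    rw [c1]; exact Function.IsPeriodicPt.const_mul (h2 b) m1
  obtain ⟨γ, φ', g1, g2, g3, g4⟩ := mn_step Φ C hinj hC a0 ha0 ap hap' _ f1 (Q ^ (m1 * m2))
    (by rw [c1]; exact Fr0.iterate (Q := Q) φ.toRingEquiv.toRingHom hφ.1 hφ.fr0 (m1 * m2))
  obtain ⟨δ, u', d1, d2, d3, d4⟩ := mn_step Φ C hinj hC a0 ha0 ap hap' _ f2 (1 ^ (m1 * m2))
    (by rw [c1]; exact Fr0.iterate (Q := 1) u.toRingEquiv.toRingHom hu.1 hu.fr0 (m1 * m2))
  rw [one_pow] at d4
  obtain ⟨n, ρ, hρ, hρ'⟩ := mv l hl hlp u.toRingEquiv.toRingHom hu.1 hu.fr0 _ hm (Φ.ι X) Φ.ne Φ.lt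
    (by rw [← c1, ← Φ.ev_algebraMap]; exact f2 _) hmv
  rw [← c1] at hρ'
  have hN : l ^ n ≠ 0 := pow_ne_zero _ hl.ne_zero
  set T : Lam Φ.U.W := algebraMap Φ.U.W⟦X⟧ _ X with hT
  have hTu : IsUnit T := IsLocalization.Away.algebraMap_isUnit _
  obtain ⟨c, hc, rfl⟩ := mn_root hC a0 _ (Polynomial.monic_X_pow_sub_C (algebraMap _ C T) hN) ρ
    (by simp [Polynomial.eval₂_sub, hρ, ha0, hT])
  have hc' : c ^ l ^ n = algebraMap _ C T := by simpa [sub_eq_zero] using hc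
  have hlu : IsUnit (((l ^ n : ℕ) : ℤ) : Lam Φ.U.W) := by
    apply mn_unit
    push_cast
    apply IsUnit.pow
    rw [PadicInt.isUnit_iff, PadicInt.norm_natCast_eq_one_iff]
    exact (Nat.coprime_primes Fact.out hl).2 hlp.symm
  rw [Int.cast_natCast] at hlu
  have hun : Algebra.FormallyUnramified (Lam Φ.U.W) (Algebra.adjoin (Lam Φ.U.W) {c}) := by
    refine unr_adjoin c (Polynomial.X ^ l ^ n - Polynomial.C T) (by simp [hc']) ?_
    obtain ⟨e, he⟩ := (hlu.mul hTu).exists_right_inv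
    refine ⟨c * algebraMap _ C e, mul_mem (Algebra.self_mem_adjoin_singleton _ c)
      (Subalgebra.algebraMap_mem _ _), ?_⟩
    have := congrArg (algebraMap _ C) he
    rw [map_mul, map_mul, map_natCast, map_one, ← hc'] at this
    simp only [Polynomial.derivative_sub, Polynomial.derivative_X_pow, Polynomial.derivative_C,
      sub_zero, map_mul, map_pow, Polynomial.aeval_X, map_natCast]
    rw [← this, ← mul_assoc, mul_assoc _ _ c, ← pow_succ,
      Nat.sub_add_cancel (Nat.one_le_iff_ne_zero.2 hN)]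
  have d5 := d3 _ (Algebra.finite_adjoin_simple_of_isIntegral (Algebra.IsIntegral.isIntegral c))
    hun c (Algebra.self_mem_adjoin_singleton _ c)
  have hpc : ap c ^ l ^ n = algebraMap (ZMod p)⟦X⟧ (Omp p) X := by
    have := hap' X
    rw [PowerSeries.map_X, PowerSeries.map_X] at this
    rw [← map_pow, hc', hap, this.symm.trans (hap _)]
  have hmove : u' (ap c) ≠ ap c := by
    intro h
    rw [d5] at h
    have e1 : δ c - c ≠ 0 := fun e => hρ' (by rw [← d1, sub_eq_zero.1 e])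
    have e2 := (Commute.all (δ c) c).geom_sum₂_mul (l ^ n)
    rw [← map_pow δ, hc', AlgHom.commutes, sub_self] at e2
    have e3 := congrArg ap ((mul_eq_zero.1 e2).resolve_right e1)
    simp only [map_sum, map_mul, map_pow, h, map_zero] at e3
    rw [geom_sum₂_self] at e3
    have e4 : IsUnit (ap c ^ l ^ n) := by
      rw [← map_pow, hc']; exact (hTu.map _).map _
    have e5 := (hlu.map (algebraMap _ C)).map ap
    rw [map_natCast, map_natCast] at e5
    exact (e5.mul (((isUnit_pow_iff hN).1 e4).pow _)).ne_zero e3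
  let : Algebra A (Lam Φ.U.W) := x.toAlgebra
  let : Algebra A C := ((algebraMap (Lam Φ.U.W) C).comp x).toAlgebra
  have : IsScalarTower A (Lam Φ.U.W) C := IsScalarTower.of_algebraMap_eq' rfl
  let : Algebra A (Omp p) := (ap.comp (algebraMap A C)).toAlgebra
  let b0 : C →ₐ[A] PadicAlgCl p := { a0 with commutes' := fun r => (ha0 (x r)).trans (hx r) }
  let bp : C →ₐ[A] Omp p := { ap with commutes' := fun _ => rfl }
  let ψ : Omp p ≃ₐ[A] Omp p := { φ' with commutes' := fun r => g2 (x r) }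
  let v : Omp p ≃ₐ[A] Omp p := { u' with commutes' := fun r => d2 (x r) }
  have key := H (fun a => (hap (x a)).symm ▸ al_red Φ.U r hr _ (hal a)) ψ v (Q ^ (m1 * m2)) (Nat.one_lt_pow hm hQ) g4 d4 ⟨n, ap c, X, hpc, hmove⟩
  have key2 := path_pure L hC b0 bp (φ ^ (m1 * m2)) (u ^ (m1 * m2)) ψ v (γ.restrictScalars A)
    (δ.restrictScalars A) g1 d1 (fun S _ _ _ _ s z => by
      obtain ⟨k1, k2⟩ := unr_image (B := Lam Φ.U.W) s
      have hz : s z ∈ Algebra.adjoin (Lam Φ.U.W) (Set.range s) := Algebra.subset_adjoin ⟨z, rfl⟩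
      exact ⟨(g3 _ k1 k2 _ hz).symm, (d3 _ k1 k2 _ hz).symm⟩) _ i key
  rw [rho_pow, rho_pow] at key2
  exact MwPure.of_pow Q hQ i _ _ _ hm key2

theorem main (R : Type) [CommRing R] [Algebra.FiniteType ℤ R] :
    ∃ M : ℕ, M ≠ 0 ∧ ∀ (p l : ℕ) [Fact p.Prime], ¬ p ∣ M → l.Prime → l ≠ p →
      ∀ (A F : Type) [CommRing A] [Algebra R A] [IsLocalization.Away (l : R) A] [Field F]
        [CharZero F] (L : LocSys A F) (i : ℤ),
        (∀ [Algebra A (AlgebraicClosure (FractionRing (ZMod p)⟦X⟧))],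
          (∀ a, IsAlgebraic (Polynomial (ZMod p))
            (algebraMap A (AlgebraicClosure (FractionRing (ZMod p)⟦X⟧)) a)) →
          WM L l i (ZMod p)⟦X⟧ (AlgebraicClosure (FractionRing (ZMod p)⟦X⟧))) →
        ∀ [Algebra A (PadicAlgCl p)], WM L l i ℤ_[p] (PadicAlgCl p) := by
  obtain ⟨M, hM, h⟩ := lifts R
  refine ⟨M, hM, fun p l _ hp hl hlp A F _ _ _ _ _ L i H _ => ?_⟩
  obtain ⟨Φ, x, hx⟩ := h p hp ((algebraMap A (PadicAlgCl p)).comp (algebraMap R A))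
  have hu : IsUnit (x (l : R)) := by
    have := mn_unit Φ.U (l : ℤ) (by
      rw [Int.cast_natCast, PadicInt.isUnit_iff, PadicInt.norm_natCast_eq_one_iff]
      exact (Nat.coprime_primes Fact.out hl).2 hlp.symm)
    rwa [Int.cast_natCast, ← map_natCast x] at this
  have he : Φ.ev.comp (IsLocalization.Away.lift (S := A) (l : R) hu) = algebraMap A _ :=
    IsLocalization.ringHom_ext (Submonoid.powers (l : R)) (RingHom.ext fun r => by
      simp only [RingHom.comp_apply, IsLocalization.Away.lift_eq, (hx r).1])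
  refine mn_core l hl hlp L i H Φ _ (fun r => RingHom.congr_fun he r)
    (al_away Φ.U (l : R) x hu fun r => (hx r).2)
    (integralClosure (Lam Φ.U.W) (AlgebraicClosure (FractionRing (Lam Φ.U.W)))) ?_ (splits_ic _)
  intro a b hab
  have := congrArg Subtype.val hab
  exact IsFractionRing.injective (Lam Φ.U.W) (FractionRing (Lam Φ.U.W))
    ((algebraMap (FractionRing (Lam Φ.U.W))
      (AlgebraicClosure (FractionRing (Lam Φ.U.W)))).injective this)

end Pool.Agent.MP_855f4c_ag.LP
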