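import Mathlib

namespace Pool.Agent.MP_855f4c_ag.LP

open CategoryTheory CommAlgCat

/-- For some `m > 0` the monodromy filtration of `u ^ m - 1` exists, is `φ`-stable, and its `a`-th
graded piece is pure of weight `a + i` for `φ` relative to `q`. -/
def MwPure {F H : Type} [Field F] [CharZero F] [AddCommGroup H] [Module F H] (q : ℕ) (i : ℤ)
    (φ u : Module.End F H) : Prop :=
  ∃ m > 0, ∃ M : ℤ → Submodule F H, Monotone M ∧ (∃ a, M a = ⊥) ∧ (∃ a, M a = ⊤) ∧
    (∀ a, ∀ v ∈ M a, (u ^ m - 1) v ∈ M (a - 2)) ∧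
    (∀ r : ℕ, (∀ v ∈ M r, ((u ^ m - 1) ^ r) v ∈ M (-r - 1) → v ∈ M (r - 1)) ∧
      ∀ w ∈ M (-r), ∃ v ∈ M r, w - ((u ^ m - 1) ^ r) v ∈ M (-r - 1)) ∧
    ∀ a, (∀ v ∈ M a, φ v ∈ M a) ∧ ∃ P : Polynomial ℚ, P ≠ 0 ∧
      (∀ z : ℂ, Polynomial.aeval z P = 0 → ‖z‖ ^ 2 = (q : ℝ) ^ (a + i)) ∧
        ∀ v ∈ M a, Polynomial.aeval φ (P.map (algebraMap ℚ F)) v ∈ M (a - 1)

/-- Local systems on `Spec A`: functors to `F`-vector spaces on the groupoid of functors from finite
etale covers to finite sets, which contains the fundamental groupoid as a full subcategory. -/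
abbrev LocSys (A F : Type) [CommRing A] [Field F] : Type 1 :=
  Core ((FiniteEtale.{0} A)ᵒᵖ ⥤ FintypeCat.{0}) ⥤ ModuleCat.{0} F

section

variable {A Ω : Type} [CommRing A] [Field Ω] [Algebra A Ω]

lemma act_nat (g : Ω ≃ₐ[A] Ω) {S T : (FiniteEtale.{0} A)ᵒᵖ} (f : S ⟶ T) :
    (FiniteEtale.fiber.{0} A Ω).map f ≫
      (FintypeCat.equivEquivIso (AlgEquiv.arrowCongr AlgEquiv.refl g)).hom =
    (FintypeCat.equivEquivIso (AlgEquiv.arrowCongr AlgEquiv.refl g)).hom ≫
      (FiniteEtale.fiber.{0} A Ω).map f := by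
  ext s
  rfl

/-- An automorphism of the geometric point acts on its fibre functor by composition. -/
noncomputable def act (g : Ω ≃ₐ[A] Ω) :
    FiniteEtale.fiber.{0} A Ω ≅ FiniteEtale.fiber.{0} A Ω :=
  NatIso.ofComponents
    (fun _ => FintypeCat.equivEquivIso (AlgEquiv.arrowCongr AlgEquiv.refl g)) (act_nat g)

/-- The Galois action on the stalk of a local system at the geometric point `Ω`. -/
noncomputable def rho {F : Type} [Field F] (L : LocSys A F) (g : Ω ≃ₐ[A] Ω) :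
    Module.End F (L.obj ⟨FiniteEtale.fiber.{0} A Ω⟩) :=
  (L.map ⟨act g⟩).hom

end

/-- `w` lies in the radical of the ideal that the non-units of `O` generate in the integral
closure of `O`. -/
def Small (O : Type) {Ω : Type} [CommRing O] [Field Ω] [Algebra O Ω] (w : Ω) : Prop :=
  ∃ (n : ℕ) (o : O) (c : Ω), ¬ IsUnit o ∧ IsIntegral O c ∧ w ^ n = algebraMap O Ω o * c

/-- `g` fixes `O` and induces the inverse of the `Q`-th power map on the residue field. -/
def Frob (O : Type) {Ω : Type} [CommRing O] [Field Ω] [Algebra O Ω] (Q : ℕ) (g : Ω → Ω) : Prop :=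
  (∀ o : O, g (algebraMap O Ω o) = algebraMap O Ω o) ∧
    ∀ z : Ω, IsIntegral O z → Small O (g z ^ Q - z)

/-- The stalk of `L` at the point `A → Ω` is mw pure of weight `i`: for every lift `φ` of a geometric
Frobenius and every inertia element `u` that moves an `l`-power root of an element of `O`. -/
def WM {A F : Type} [CommRing A] [Field F] [CharZero F] (L : LocSys A F) (l : ℕ) (i : ℤ)
    (O Ω : Type) [CommRing O] [Field Ω] [Algebra O Ω] [Algebra A Ω] : Prop :=
  ∀ (φ u : Ω ≃ₐ[A] Ω) (Q : ℕ), 1 < Q → Frob O Q φ → Frob O 1 u →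
    (∃ (n : ℕ) (r : Ω) (o : O), r ^ l ^ n = algebraMap O Ω o ∧ u r ≠ r) →
      MwPure Q i (rho L φ) (rho L u)

end Pool.Agent.MP_855f4c_ag.LP
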