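import Pool.Agent.MP_855f4c_ag.LP.Alg

namespace Pool.Agent.MP_855f4c_ag.LP

open PowerSeries

/-- A finite etale local `ℤ_[p]`-algebra that is a domain. -/
structure Unr (p : ℕ) [Fact p.Prime] where
  W : Type
  [cr : CommRing W]
  [dom : IsDomain W]
  [loc : IsLocalRing W]
  [alg : Algebra ℤ_[p] W]
  [fin : Module.Finite ℤ_[p] W]
  [et : Algebra.Etale ℤ_[p] W]

attribute [instance] Unr.cr Unr.dom Unr.loc Unr.alg Unr.fin Unr.et

/-- `W[[X]][1/X]`. -/
abbrev Lam (W : Type) [CommRing W] : Type := Localization.Away (X : W⟦X⟧)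

/-- The algebraic closure of `𝔽_p((X))`. -/
abbrev Omp (p : ℕ) [Fact p.Prime] : Type := AlgebraicClosure (FractionRing (ZMod p)⟦X⟧)

/-- A bounded point of `W[[X]]` in the algebraic closure of `ℚ_[p]` with `X` non-zero and small. -/
structure Frame (p : ℕ) [Fact p.Prime] where
  U : Unr p
  ι : U.W⟦X⟧ →+* PadicAlgCl p
  hZ : ∀ z : ℤ_[p], ι (C (algebraMap ℤ_[p] U.W z)) = algebraMap ℤ_[p] (PadicAlgCl p) z
  le : ∀ f, ‖ι f‖ ≤ 1
  lt : ‖ι X‖ < 1
  ne : ι X ≠ 0

variable {p : ℕ} [Fact p.Prime]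

/-- The extension of the point to `W[[X]][1/X]`. -/
noncomputable def Frame.ev (Φ : Frame p) : Lam Φ.U.W →+* PadicAlgCl p :=
  IsLocalization.Away.lift (X : Φ.U.W⟦X⟧) (IsUnit.mk0 _ Φ.ne)

@[simp] lemma Frame.ev_algebraMap (Φ : Frame p) (f : Φ.U.W⟦X⟧) :
    Φ.ev (algebraMap _ (Lam Φ.U.W) f) = Φ.ι f :=
  IsLocalization.Away.lift_eq _ _ _

/-- The norm form of `Frob` on the algebraic closure of `ℚ_[p]`. -/
def Fr0 (Q : ℕ) (g : PadicAlgCl p → PadicAlgCl p) : Prop :=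
  ∀ z, ‖z‖ ≤ 1 → ‖g z ^ Q - z‖ < 1

/-- Algebraic over `ℤ_[p][X]`. -/
abbrev Al (U : Unr p) (a : Lam U.W) : Prop := IsAlgebraic (Polynomial ℤ_[p]) a

/-- Every point of `R` in the algebraic closure of `ℚ_[p]`, `p ∤ M`, lifts to some frame. -/
def Lifts (R : Type) [CommRing R] (M : ℕ) : Prop :=
  ∀ (p : ℕ) [Fact p.Prime], ¬ p ∣ M → ∀ x : R →+* PadicAlgCl p,
    ∃ (Φ : Frame p) (x' : R →+* Lam Φ.U.W), ∀ r, Φ.ev (x' r) = x r ∧ Al Φ.U (x' r)

end Pool.Agent.MP_855f4c_ag.LP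

namespace Pool.Agent.MP_855f4c_ag.LP

variable {p : ℕ} [Fact p.Prime]

lemma Unr.inj (U : Unr p) : Function.Injective (algebraMap ℤ_[p] U.W) :=
  FaithfulSMul.algebraMap_injective ℤ_[p] U.W

lemma un_map_max (U : Unr p) :
    (IsLocalRing.maximalIdeal ℤ_[p]).map (algebraMap ℤ_[p] U.W) =
      IsLocalRing.maximalIdeal U.W :=
  Algebra.FormallyUnramified.map_maximalIdeal

lemma un_map_span {W : Type} [CommRing W] [Algebra ℤ_[p] W] :
    (IsLocalRing.maximalIdeal ℤ_[p]).map (algebraMap ℤ_[p] W) = Ideal.span {(p : W)} := by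
  rw [PadicInt.maximalIdeal_eq_span_p, Ideal.map_span, Set.image_singleton, map_natCast]

lemma Unr.max_eq (U : Unr p) : IsLocalRing.maximalIdeal U.W = Ideal.span {(p : U.W)} := by
  rw [← un_map_max, un_map_span]

instance Unr.charZero (U : Unr p) : CharZero U.W :=
  charZero_of_injective_algebraMap U.inj

instance Unr.dvr (U : Unr p) : IsDiscreteValuationRing U.W := by
  have : IsNoetherianRing U.W := IsNoetherianRing.of_finite ℤ_[p] U.W
  have h : ¬ IsField U.W := by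
    rw [IsLocalRing.isField_iff_maximalIdeal_eq, U.max_eq, Ideal.span_singleton_eq_bot]
    exact Nat.cast_ne_zero.mpr (Fact.out : p.Prime).ne_zero
  have h2 : (IsLocalRing.maximalIdeal U.W).IsPrincipal := ⟨⟨(p : U.W), U.max_eq⟩⟩
  exact ((IsDiscreteValuationRing.TFAE U.W h).out 4 0).mp h2

instance Unr.complete (U : Unr p) : IsAdicComplete (IsLocalRing.maximalIdeal U.W) U.W := by
  rw [← un_map_max]
  exact complete_of_finite _

instance Unr.finRes (U : Unr p) : Finite (IsLocalRing.ResidueField U.W) :=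
  IsLocalRing.ResidueField.finite_of_finite (R := ℤ_[p])
    (Finite.of_equiv _ (PadicInt.residueField (p := p)).symm.toEquiv)

/-- Maps between such rings are injective. -/
lemma Unr.hom_inj (U V : Unr p) (θ : U.W →ₐ[ℤ_[p]] V.W) : Function.Injective θ := by
  rw [RingHom.injective_iff_ker_eq_bot]
  apply Ideal.eq_bot_of_comap_eq_bot (R := ℤ_[p])
  rw [eq_bot_iff]
  intro z hz
  have : algebraMap ℤ_[p] V.W z = algebraMap ℤ_[p] V.W 0 := by
    rw [map_zero, ← θ.commutes]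
    exact hz
  exact V.inj this

open Polynomial in
/-- Every finite field of characteristic `p` is a residue field. -/
lemma exists_unr (k : Type) [Field k] [Finite k] [CharP k p] :
    ∃ (U : Unr p) (r : U.W →+* k), Function.Surjective r := by
  let : Algebra (ZMod p) k := ZMod.algebra k p
  obtain ⟨α, hα⟩ := Field.exists_primitive_element (ZMod p) k
  have hint : IsIntegral (ZMod p) α := Algebra.IsIntegral.isIntegral α
  have hs : Function.Surjective (PadicInt.toZMod (p := p)) := ZMod.ringHom_surjective _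
  obtain ⟨f, hf, -, hm⟩ := lifts_and_natDegree_eq_and_monic
    (mem_lifts_of_surjective hs (minpoly (ZMod p) α)) (minpoly.monic hint)
  have hirr : Irreducible f :=
    hm.irreducible_of_irreducible_map _ f (hf ▸ minpoly.irreducible hint)
  have : IsDomain (AdjoinRoot f) := AdjoinRoot.isDomain_of_prime hirr.prime
  have : Module.Finite ℤ_[p] (AdjoinRoot f) := hm.finite_adjoinRoot
  have : Module.Free ℤ_[p] (AdjoinRoot f) := hm.free_adjoinRoot
  have hev : ∀ g : ℤ_[p][X], g.eval₂ ((algebraMap (ZMod p) k).comp PadicInt.toZMod) α =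
      aeval α (g.map PadicInt.toZMod) := fun g => by rw [aeval_def, eval₂_map]
  let r : AdjoinRoot f →+* k :=
    AdjoinRoot.lift ((algebraMap (ZMod p) k).comp PadicInt.toZMod) α
      (by rw [hev, hf, minpoly.aeval])
  have hr : ∀ g, r (AdjoinRoot.mk f g) = aeval α (g.map PadicInt.toZMod) := fun g => by
    rw [← hev]; exact AdjoinRoot.lift_mk _ _
  have hsurj : Function.Surjective r := by
    intro y
    have hy : y ∈ Algebra.adjoin (ZMod p) {α} := by
      rw [← IntermediateField.adjoin_simple_toSubalgebra_of_isAlgebraic hint.isAlgebraic, hα]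
      trivial
    rw [Algebra.adjoin_singleton_eq_range_aeval] at hy
    obtain ⟨g, rfl⟩ := hy
    obtain ⟨g', rfl⟩ := map_surjective _ hs g
    exact ⟨AdjoinRoot.mk f g', hr g'⟩
  have hker : RingHom.ker r ≤
      (IsLocalRing.maximalIdeal ℤ_[p]).map (algebraMap ℤ_[p] (AdjoinRoot f)) := by
    intro w hw
    obtain ⟨g, rfl⟩ := AdjoinRoot.mk_surjective w
    rw [RingHom.mem_ker, hr] at hw
    obtain ⟨h, hh⟩ := minpoly.dvd _ _ hw
    obtain ⟨h', rfl⟩ := map_surjective _ hs h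
    have h0 : (g - f * h').map PadicInt.toZMod = 0 := by
      rw [Polynomial.map_sub, Polynomial.map_mul, hf, hh, sub_self]
    have h1 : AdjoinRoot.mk f g = aeval (AdjoinRoot.root f) (g - f * h') := by
      rw [AdjoinRoot.aeval_eq, map_sub, map_mul, AdjoinRoot.mk_self, zero_mul, sub_zero]
    rw [h1, aeval_eq_sum_range]
    refine Ideal.sum_mem _ fun i _ => ?_
    rw [Algebra.smul_def]
    refine Ideal.mul_mem_right _ _ (Ideal.mem_map_of_mem _ ?_)
    rw [← PadicInt.ker_toZMod, RingHom.mem_ker, ← coeff_map, h0, coeff_zero]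
  have hmax : (RingHom.ker r).IsMaximal := RingHom.ker_isMaximal_of_surjective r hsurj
  have huniq : ∀ m : Ideal (AdjoinRoot f), m.IsMaximal →
      (IsLocalRing.maximalIdeal ℤ_[p]).map (algebraMap ℤ_[p] (AdjoinRoot f)) ≤ m := by
    intro m hm'
    rw [Ideal.map_le_iff_le_comap]
    exact (IsLocalRing.eq_maximalIdeal
      (Ideal.isMaximal_comap_of_isIntegral_of_isMaximal (R := ℤ_[p]) m)).ge
  have : IsLocalRing (AdjoinRoot f) := IsLocalRing.of_unique_max_ideal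
    ⟨_, hmax, fun m hm' => (hmax.eq_of_le hm'.ne_top (hker.trans (huniq m hm'))).symm⟩
  have hmm : (IsLocalRing.maximalIdeal ℤ_[p]).map (algebraMap ℤ_[p] (AdjoinRoot f)) =
      IsLocalRing.maximalIdeal (AdjoinRoot f) :=
    le_antisymm (huniq _ inferInstance) ((IsLocalRing.eq_maximalIdeal hmax).ge.trans hker)
  have : Finite (IsLocalRing.ResidueField ℤ_[p]) :=
    Finite.of_equiv _ (PadicInt.residueField (p := p)).symm.toEquiv
  have : Algebra.FormallyUnramified ℤ_[p] (AdjoinRoot f) :=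
    Algebra.FormallyUnramified.of_map_maximalIdeal hmm
  have : Algebra.FinitePresentation ℤ_[p] (AdjoinRoot f) :=
    Algebra.FinitePresentation.of_finiteType.mp inferInstance
  have : Algebra.Etale ℤ_[p] (AdjoinRoot f) := Algebra.Etale.of_formallyUnramified_of_flat
  exact ⟨⟨AdjoinRoot f⟩, r, hsurj⟩

/-- Maps to the residue field lift. -/
lemma Unr.lift (U V : Unr p) {k : Type} [Field k] (r : V.W →+* k) (hr : Function.Surjective r)
    (s : U.W →+* k) (hs : ∀ z : ℤ_[p], s (algebraMap _ _ z) = r (algebraMap _ _ z)) :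
    ∃ θ : U.W →ₐ[ℤ_[p]] V.W, ∀ w, r (θ w) = s w := by
  have hk : RingHom.ker r = IsLocalRing.maximalIdeal V.W :=
    IsLocalRing.eq_maximalIdeal (RingHom.ker_isMaximal_of_surjective r hr)
  have : IsAdicComplete (RingHom.ker r) V.W := hk ▸ V.complete
  let e := RingHom.quotientKerEquivOfSurjective hr
  have he : ∀ v, e (Ideal.Quotient.mk _ v) = r v := fun v => rfl
  let f : U.W →ₐ[ℤ_[p]] V.W ⧸ RingHom.ker r :=
    { e.symm.toRingHom.comp s with
      commutes' := fun z => by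
        apply e.injective
        show e (e.symm (s _)) = e (Ideal.Quotient.mk _ (algebraMap _ _ z))
        rw [e.apply_symm_apply, he, hs] }
  obtain ⟨g, hg⟩ := Algebra.FormallySmooth.exists_mkₐ_comp_eq_of_isAdicComplete f
  refine ⟨g, fun w => ?_⟩
  have : Ideal.Quotient.mk (RingHom.ker r) (g w) = e.symm (s w) := AlgHom.congr_fun hg w
  rw [← he, this, e.apply_symm_apply]

end Pool.Agent.MP_855f4c_ag.LP

namespace Pool.Agent.MP_855f4c_ag.LP

open PowerSeries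

variable {p : ℕ} [Fact p.Prime]

lemma ps_dvd (U : Unr p) (w : U.W) (h : ¬ IsUnit w) : ∃ c, w = (p : U.W) * c := by
  have h1 : w ∈ IsLocalRing.maximalIdeal U.W := h
  rw [U.max_eq, Ideal.mem_span_singleton] at h1
  exact h1

lemma Unr.dec (U : Unr p) (f : U.W⟦X⟧) :
    (p : U.W⟦X⟧) ∣ f ∨ ∃ (i : ℕ) (u h : U.W⟦X⟧), IsUnit u ∧ f = X ^ i * u + (p : U.W⟦X⟧) * h := by
  classical
  have hp : (p : U.W⟦X⟧) = C (p : U.W) := (map_natCast (C (R := U.W)) p).symm
  by_cases hex : ∃ i, IsUnit (coeff i f)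
  · right
    have hc : ∀ j, ∃ c, j < Nat.find hex → coeff j f = (p : U.W) * c := by
      intro j
      by_cases hj : j < Nat.find hex
      · obtain ⟨c, hc⟩ := ps_dvd U _ (Nat.find_min hex hj)
        exact ⟨c, fun _ => hc⟩
      · exact ⟨0, fun h => absurd h hj⟩
    choose c hc using hc
    refine ⟨Nat.find hex, PowerSeries.mk fun n => coeff (n + Nat.find hex) f,
      PowerSeries.mk fun n => if n < Nat.find hex then c n else 0, ?_, ?_⟩
    · rw [PowerSeries.isUnit_iff_constantCoeff, ← coeff_zero_eq_constantCoeff_apply, coeff_mk,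
        zero_add]
      exact Nat.find_spec hex
    · ext k
      rw [map_add, hp, coeff_C_mul, coeff_X_pow_mul', coeff_mk, coeff_mk]
      by_cases hk : k < Nat.find hex
      · rw [if_neg (not_le.2 hk), if_pos hk, zero_add, hc k hk]
      · rw [if_pos (not_lt.1 hk), if_neg hk, mul_zero, add_zero, Nat.sub_add_cancel (not_lt.1 hk)]
  · left
    have hc : ∀ j, ∃ c, coeff j f = (p : U.W) * c := fun j => ps_dvd U _ fun h => hex ⟨j, h⟩
    choose c hc using hc
    refine ⟨PowerSeries.mk c, ?_⟩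
    ext k
    rw [hp, coeff_C_mul, coeff_mk, hc]

lemma map_isIntegral {W V : Type*} [CommRing W] [CommRing V] (θ : W →+* V) (h : θ.Finite) :
    (PowerSeries.map θ).IsIntegral := by
  classical
  have hs : ∃ (n : ℕ) (s : Fin n → V), ∀ v : V, ∃ c : Fin n → W, ∑ i, θ (c i) * s i = v := by
    let := θ.toAlgebra
    have : Module.Finite W V := h
    obtain ⟨n, s, hs⟩ := Module.Finite.exists_fin (R := W) (M := V)
    refine ⟨n, s, fun v => ?_⟩
    have hv : v ∈ Submodule.span W (Set.range s) := by rw [hs]; trivial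
    obtain ⟨c, hc⟩ := (Submodule.mem_span_range_iff_exists_fun W).1 hv
    exact ⟨c, hc⟩
  obtain ⟨n, s, hs⟩ := hs
  choose c hc using hs
  apply RingHom.Finite.to_isIntegral
  let := (PowerSeries.map θ).toAlgebra
  refine ⟨Submodule.fg_def.2 ⟨Set.range fun i => C (s i), Set.finite_range _, ?_⟩⟩
  rw [eq_top_iff]
  intro g _
  refine (Submodule.mem_span_range_iff_exists_fun _).2 ⟨fun i => mk fun m => c (coeff m g) i, ?_⟩
  ext m
  rw [map_sum, ← hc (coeff m g)]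
  refine Finset.sum_congr rfl fun i _ => ?_
  change coeff m (PowerSeries.map θ _ * C (s i)) = _
  rw [coeff_mul_C, coeff_map, coeff_mk]

lemma ps_split {W : Type*} [CommRing W] (n : ℕ) (hn : n ≠ 0) (f : W⟦X⟧) :
    f = ∑ i ∈ Finset.range n, X ^ i * expand (R := W) n hn (mk fun m => coeff (n * m + i) f) := by
  ext k
  have hpos : 0 < n := Nat.pos_of_ne_zero hn
  rw [map_sum, Finset.sum_eq_single (k % n)]
  · have h1 : k - k % n = n * (k / n) := by
      have := Nat.div_add_mod k n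
      omega
    rw [coeff_X_pow_mul', if_pos (Nat.mod_le k n), h1, coeff_expand_mul, coeff_mk,
      Nat.div_add_mod]
  · intro i hi hne
    rw [coeff_X_pow_mul']
    split_ifs with hik
    · apply coeff_expand_of_not_dvd
      rintro ⟨m, hm⟩
      apply hne
      have h2 : k = n * m + i := by omega
      rw [h2, Nat.mul_add_mod, Nat.mod_eq_of_lt (Finset.mem_range.1 hi)]
    · rfl
  · intro h
    exact absurd (Finset.mem_range.2 (Nat.mod_lt k hpos)) h

lemma mem_closure_expand {W : Type*} [CommRing W] (n : ℕ) (hn : n ≠ 0) (f : W⟦X⟧) :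
    f ∈ Subring.closure (Set.range (expand (R := W) n hn) ∪ {X}) := by
  rw [ps_split n hn f]
  refine Subring.sum_mem _ fun i _ => Subring.mul_mem _ (Subring.pow_mem _ ?_ _) ?_
  · exact Subring.subset_closure (Or.inr rfl)
  · exact Subring.subset_closure (Or.inl ⟨_, rfl⟩)

lemma expand_isIntegral {W : Type*} [CommRing W] (n : ℕ) (hn : n ≠ 0) :
    (expand (R := W) n hn).toRingHom.IsIntegral := by
  intro f
  have hf := mem_closure_expand n hn f
  induction hf using Subring.closure_induction with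
  | mem x hx =>
    rcases hx with ⟨g, rfl⟩ | hx
    · exact RingHom.isIntegralElem_map (expand (R := W) n hn).toRingHom
    · rw [Set.mem_singleton_iff.1 hx]
      refine ⟨Polynomial.X ^ n - Polynomial.C X, Polynomial.monic_X_pow_sub_C _ hn, ?_⟩
      rw [Polynomial.eval₂_sub, Polynomial.eval₂_X_pow, Polynomial.eval₂_C]
      exact sub_eq_zero.2 (expand_X n hn).symm
  | zero => exact RingHom.isIntegralElem_zero _
  | one => exact RingHom.isIntegralElem_one _
  | add x y _ _ hx hy => exact hx.add _ hy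
  | neg x _ hx => exact hx.neg _
  | mul x y _ _ hx hy => exact hx.mul _ hy

lemma expand_inj {W : Type*} [CommRing W] (n : ℕ) (hn : n ≠ 0) :
    Function.Injective (expand (R := W) n hn) := by
  intro f g h
  ext m
  rw [← coeff_expand_mul n hn f m, ← coeff_expand_mul n hn g m, h]

end Pool.Agent.MP_855f4c_ag.LP

namespace Pool.Agent.MP_855f4c_ag.LP

open PowerSeries

variable {p : ℕ} [Fact p.Prime]

/-- Units of `W[[X]][1/X]`. -/
lemma unit_lam {W : Type} [CommRing W] [IsDomain W] (a : Lam W) (ha : IsUnit a) :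
    ∃ (i j : ℕ) (w : W⟦X⟧), IsUnit w ∧
      a * algebraMap W⟦X⟧ (Lam W) (X ^ j) = algebraMap W⟦X⟧ (Lam W) (w * X ^ i) := by
  obtain ⟨j, f, hf⟩ := IsLocalization.Away.surj (X : W⟦X⟧) a
  have hu : IsUnit (algebraMap W⟦X⟧ (Lam W) f) :=
    hf ▸ ha.mul ((IsLocalization.Away.algebraMap_isUnit (X : W⟦X⟧)).pow j)
  obtain ⟨n, hn⟩ := (IsLocalization.Away.algebraMap_isUnit_iff (X : W⟦X⟧)).1 hu
  obtain ⟨i, -, w, hw⟩ := ((dvd_prime_pow X_prime n).1 hn).imp fun i h => h.imp_right Associated.symm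
  exact ⟨i, j, w, w.isUnit, by rw [map_pow, hf, ← hw, mul_comm]⟩

instance lam_domain {W : Type} [CommRing W] [IsDomain W] : IsDomain (Lam W) :=
  IsLocalization.isDomain_localization (powers_le_nonZeroDivisors_of_noZeroDivisors X_ne_zero)

instance lam_pid {W : Type} [CommRing W] [IsDomain W] [IsPrincipalIdealRing W] :
    IsPrincipalIdealRing (Lam W) := by
  refine IsPrincipalIdealRing.of_prime fun Q hQ => ?_
  have hX : X ∉ Q.under W⟦X⟧ := fun h =>
    hQ.ne_top (Q.eq_top_of_isUnit_mem h (IsLocalization.Away.algebraMap_isUnit (X : W⟦X⟧)))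
  obtain ⟨g, h⟩ := (IsPrincipalIdealRing.principal
    ((Q.under W⟦X⟧).map constantCoeff)).principal
  obtain ⟨T, h1, -, h2⟩ := exist_eq_span_eq_ncard_of_X_notMem hX h.symm (Set.finite_singleton _)
  rw [Set.ncard_singleton, Set.ncard_eq_one] at h2
  obtain ⟨f, rfl⟩ := h2
  refine ⟨algebraMap W⟦X⟧ (Lam W) f, ?_⟩
  rw [← IsLocalization.map_under (Submonoid.powers (X : W⟦X⟧)) (Lam W) Q, h1, Ideal.map_span,
    Set.image_singleton]

/-- Bounded points of `W[[X]]` are determined by their values on constants and on `X`. -/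
lemma hom_ext_norm {W : Type*} [CommRing W] (a b : W⟦X⟧ →+* PadicAlgCl p) (ha : ∀ f, ‖a f‖ ≤ 1)
    (hb : ∀ f, ‖b f‖ ≤ 1) (hX : ‖a X‖ < 1) (h1 : ∀ w, a (C w) = b (C w)) (h2 : a X = b X) :
    a = b := by
  have key : ∀ (n : ℕ) (f : W⟦X⟧), ‖a f - b f‖ ≤ 2 * ‖a X‖ ^ n := fun n => by
    induction n with
    | zero => exact fun f => (norm_sub_le _ _).trans (by linarith [ha f, hb f])
    | succ n ih =>
      intro f
      rw [eq_X_mul_shift_add_const f, map_add, map_add, map_mul, map_mul, h1, ← h2,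
        add_sub_add_right_eq_sub, ← mul_sub, norm_mul, pow_succ', mul_left_comm]
      exact mul_le_mul_of_nonneg_left (ih _) (norm_nonneg _)
  ext1 f
  have h := (tendsto_pow_atTop_nhds_zero_of_lt_one (norm_nonneg _) hX).const_mul 2
  rw [mul_zero] at h
  exact sub_eq_zero.1 (norm_le_zero_iff.1 (ge_of_tendsto' h fun n => key n f))

lemma Frame.norm_lt (Φ : Frame p) (f : Φ.U.W⟦X⟧) (hf : ¬ IsUnit f) : ‖Φ.ι f‖ < 1 := by
  have h1 : constantCoeff f ∈ IsLocalRing.maximalIdeal Φ.U.W :=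
    fun h => hf (isUnit_iff_constantCoeff.2 h)
  rw [Φ.U.max_eq, Ideal.mem_span_singleton] at h1
  obtain ⟨w, hw⟩ := h1
  have hp : ‖(p : PadicAlgCl p)‖ < 1 := by
    rw [← map_natCast (algebraMap ℚ_[p] (PadicAlgCl p))]
    exact (PadicAlgCl.norm_extends p _).trans_lt Padic.norm_p_lt_one
  rw [eq_X_mul_shift_add_const f, hw, map_mul, map_natCast, map_add, map_mul, map_mul, map_natCast]
  refine (IsUltrametricDist.norm_add_le_max _ _).trans_lt (max_lt ?_ ?_) <;> rw [norm_mul]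
  · exact (mul_le_of_le_one_right (norm_nonneg _) (Φ.le _)).trans_lt Φ.lt
  · exact (mul_le_of_le_one_right (norm_nonneg _) (Φ.le _)).trans_lt hp

lemma pt_unit {W : Type} [CommRing W] {c : Lam W} {u : W⟦X⟧} {k m : ℕ} (hu : IsUnit u)
    (h : c * algebraMap W⟦X⟧ (Lam W) (X ^ k) = algebraMap W⟦X⟧ (Lam W) (u * X ^ m)) : IsUnit c := by
  refine isUnit_of_mul_isUnit_left (y := algebraMap W⟦X⟧ (Lam W) (X ^ k)) ?_
  rw [h, map_mul, map_pow]
  exact (hu.map _).mul ((IsLocalization.Away.algebraMap_isUnit (X : W⟦X⟧)).pow m)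

lemma pt_add {W : Type} [CommRing W] {u : W⟦X⟧} (hu : IsUnit u) (f : W⟦X⟧) :
    IsUnit (u + f * X) := by
  rw [isUnit_iff_constantCoeff] at hu ⊢
  simpa using hu

lemma Frame.unit_add (Φ : Frame p) (a b : Lam Φ.U.W) (ha : IsUnit a) (hb : IsUnit b)
    (h : ‖Φ.ev a‖ ≤ ‖Φ.ev (a + b)‖) : IsUnit (a + b) := by
  obtain ⟨i, j, w, hw, e⟩ := unit_lam a ha
  obtain ⟨i', j', w', hw', e'⟩ := unit_lam b hb
  replace e : a * algebraMap _ _ ((X : Φ.U.W⟦X⟧) ^ (j + j')) =
      algebraMap _ (Lam Φ.U.W) (w * X ^ (i + j')) := by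
    rw [pow_add, map_mul, ← mul_assoc, e, ← map_mul, pow_add, mul_assoc]
  replace e' : b * algebraMap _ _ ((X : Φ.U.W⟦X⟧) ^ (j + j')) =
      algebraMap _ (Lam Φ.U.W) (w' * X ^ (i' + j)) := by
    rw [add_comm j, pow_add, map_mul, ← mul_assoc, e', ← map_mul, pow_add, mul_assoc]
  generalize j + j' = k, i + j' = m, i' + j = n at e e'
  have s : (a + b) * algebraMap _ _ ((X : Φ.U.W⟦X⟧) ^ k) =
      algebraMap _ (Lam Φ.U.W) (w * X ^ m + w' * X ^ n) := by rw [add_mul, e, e', map_add]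
  rcases lt_trichotomy m n with hl | rfl | hl
  · obtain ⟨d, rfl⟩ := Nat.exists_eq_add_of_lt hl
    exact pt_unit (pt_add hw (w' * X ^ d)) (s.trans (congrArg _ (by ring)))
  · rw [← add_mul] at s
    by_contra hn
    have h1 := Φ.norm_lt _ fun hu => hn (pt_unit hu s)
    obtain ⟨v, hv⟩ := hw.exists_right_inv
    have h2 : 1 ≤ ‖Φ.ι w‖ := by
      rw [← norm_one (α := PadicAlgCl p), ← map_one Φ.ι, ← hv, map_mul, norm_mul]
      exact mul_le_of_le_one_right (norm_nonneg _) (Φ.le _)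
    have a1 := congrArg (fun z => ‖Φ.ev z‖) e
    have a2 := congrArg (fun z => ‖Φ.ev z‖) s
    simp only [map_mul Φ.ev, Frame.ev_algebraMap, map_mul Φ.ι, norm_mul] at a1 a2
    have a3 := mul_le_mul_of_nonneg_right h (norm_nonneg (Φ.ι (X ^ k)))
    rw [a1, a2] at a3
    have a4 : 0 < ‖Φ.ι (X ^ m)‖ := by
      rw [map_pow]
      exact norm_pos_iff.2 (pow_ne_zero _ Φ.ne)
    linarith [le_of_mul_le_mul_right a3 a4]
  · obtain ⟨d, rfl⟩ := Nat.exists_eq_add_of_lt hl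
    exact pt_unit (pt_add hw' (w * X ^ d)) (s.trans (congrArg _ (by ring)))

end Pool.Agent.MP_855f4c_ag.LP

namespace Pool.Agent.MP_855f4c_ag.LP

open PowerSeries

variable {p : ℕ} [Fact p.Prime]

lemma al_map (U : Unr p) (q : Polynomial ℤ_[p]) : algebraMap (Polynomial ℤ_[p]) (Lam U.W) q =
    algebraMap U.W⟦X⟧ (Lam U.W) (PowerSeries.map (algebraMap ℤ_[p] U.W) (q : ℤ_[p]⟦X⟧)) := rfl

lemma al_aeval (U : Unr p) (q : Polynomial ℤ_[p]) : algebraMap (Polynomial ℤ_[p]) (Lam U.W) q =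
    q.eval₂ ((algebraMap U.W⟦X⟧ (Lam U.W)).comp (C.comp (algebraMap ℤ_[p] U.W)))
      (algebraMap U.W⟦X⟧ (Lam U.W) X) := by
  rw [← Polynomial.coe_eval₂RingHom]
  refine RingHom.congr_fun (Polynomial.ringHom_ext (fun a => ?_) ?_) q
  · simp [al_map]
  · simp [al_map]

lemma al_poly (U : Unr p) (q : Polynomial U.W) :
    Al U (algebraMap U.W⟦X⟧ (Lam U.W) (q : U.W⟦X⟧)) := by
  induction q using Polynomial.induction_on' with
  | add a b ha hb => rw [Polynomial.coe_add, map_add]; exact ha.add hb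
  | monomial n w =>
    rw [← Polynomial.C_mul_X_pow_eq_monomial, Polynomial.coe_mul, Polynomial.coe_pow,
      Polynomial.coe_C, Polynomial.coe_X, map_mul, map_pow]
    refine IsAlgebraic.mul ?_ (IsAlgebraic.pow ?_ n)
    · obtain ⟨P, hP, h⟩ := Algebra.IsIntegral.isIntegral (R := ℤ_[p]) w
      refine IsIntegral.isAlgebraic ⟨P.map Polynomial.C, hP.map _, ?_⟩
      have := congrArg ((algebraMap U.W⟦X⟧ (Lam U.W)).comp C) h
      rw [Polynomial.hom_eval₂, map_zero] at this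
      rw [Polynomial.eval₂_map, ← this]
      congr 1
      ext z
      simp [al_map]
    · have := isAlgebraic_algebraMap (R := Polynomial ℤ_[p]) (A := Lam U.W) Polynomial.X
      simpa [al_map] using this

lemma al_transc (U : Unr p) (f : U.W⟦X⟧) (h0 : f ≠ 0) (h1 : constantCoeff f = 0)
    (q : Polynomial ℤ_[p]) (hq : q ≠ 0) : q.eval₂ (C.comp (algebraMap ℤ_[p] U.W)) f ≠ 0 := by
  obtain ⟨r, hr, hd⟩ := Polynomial.exists_eq_pow_rootMultiplicity_mul_and_not_dvd q hq 0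
  rw [hr, Polynomial.eval₂_mul, Polynomial.eval₂_pow]
  refine mul_ne_zero (pow_ne_zero _ (by simpa using h0)) fun h => hd ?_
  have := congrArg constantCoeff h
  rw [Polynomial.hom_eval₂, h1, map_zero, Polynomial.eval₂_at_zero] at this
  rw [Polynomial.dvd_iff_isRoot, Polynomial.IsRoot, ← Polynomial.coeff_zero_eq_eval_zero]
  exact U.inj (by simpa using this)

/-- Refinements keep algebraic elements algebraic. -/
lemma al_sigma (U V : Unr p) (σ : Lam U.W →+* Lam V.W)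
    (hC : ∀ z : ℤ_[p], σ (algebraMap _ _ (C (algebraMap ℤ_[p] U.W z) : U.W⟦X⟧)) =
      algebraMap V.W⟦X⟧ _ (C (algebraMap ℤ_[p] V.W z)))
    (q : Polynomial V.W) (h0 : q ≠ 0) (h1 : q.coeff 0 = 0)
    (hX : σ (algebraMap U.W⟦X⟧ _ X) = algebraMap V.W⟦X⟧ _ (q : V.W⟦X⟧)) (a : Lam U.W)
    (ha : Al U a) : Al V (σ a) := by
  obtain ⟨P, hP, h⟩ := ha
  let S := Subalgebra.algebraicClosure (Polynomial ℤ_[p]) (Lam V.W)
  have e : ∀ c : Polynomial ℤ_[p], σ (algebraMap _ (Lam U.W) c) = algebraMap V.W⟦X⟧ _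
      (c.eval₂ (C.comp (algebraMap ℤ_[p] V.W)) (q : V.W⟦X⟧)) := fun c => by
    rw [al_aeval, Polynomial.hom_eval₂, Polynomial.hom_eval₂, hX]
    congr 1
    exact RingHom.ext hC
  have hm : ∀ c : Polynomial ℤ_[p], (σ.comp (algebraMap _ (Lam U.W))) c ∈ S := fun c => by
    have e2 : c.eval₂ (C.comp (algebraMap ℤ_[p] V.W)) (q : V.W⟦X⟧) =
        ((c.map (algebraMap ℤ_[p] V.W)).comp q : Polynomial V.W) := by
      rw [Polynomial.comp, ← Polynomial.coeToPowerSeries.ringHom_apply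
        (φ := Polynomial.eval₂ _ _ _), Polynomial.hom_eval₂, Polynomial.eval₂_map]
      congr 1
      ext z : 1
      simp
    rw [RingHom.comp_apply, e, e2]
    exact al_poly V _
  let τ : Polynomial ℤ_[p] →+* S := (σ.comp (algebraMap _ (Lam U.W))).codRestrict S hm
  have hτ : Function.Injective τ := (injective_iff_map_eq_zero τ).2 fun c hc => by
    by_contra hc0
    have h2 : σ (algebraMap _ (Lam U.W) c) = 0 := congrArg Subtype.val hc
    rw [e] at h2
    refine al_transc V q (by simpa using h0) (by simpa using h1) c hc0 ?_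
    exact IsLocalization.injective (Lam V.W)
      (powers_le_nonZeroDivisors_of_noZeroDivisors X_ne_zero) (h2.trans (map_zero _).symm)
  have h3 : IsAlgebraic S (σ a) := by
    refine ⟨P.map τ, (Polynomial.map_ne_zero_iff hτ).2 hP, ?_⟩
    have := congrArg σ h
    rw [Polynomial.aeval_def, Polynomial.hom_eval₂, map_zero] at this
    rw [Polynomial.aeval_def, Polynomial.eval₂_map]
    exact this
  exact h3.restrictScalars _

lemma al_int (V : Unr p) {T : Type*} [CommRing T] (τ : T →+* Lam V.W) (h : ∀ c, Al V (τ c))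
    (z : Lam V.W) (hz : τ.IsIntegralElem z) : Al V z := by
  obtain ⟨Q, h1, h2⟩ := hz
  let S := Subalgebra.algebraicClosure (Polynomial ℤ_[p]) (Lam V.W)
  have h3 : IsIntegral S z := ⟨Q.map (τ.codRestrict S h), h1.map _, by
    rw [Polynomial.eval₂_map]; exact h2⟩
  exact h3.isAlgebraic.restrictScalars _

lemma al_div (V : Unr p) {a b c : Lam V.W} (ha : IsUnit a) (h1 : Al V a) (h2 : Al V c)
    (h : a * b = c) : Al V b :=
  IsAlgebraic.of_mul ha.mem_nonZeroDivisors h1 (h ▸ h2)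

lemma al_away (V : Unr p) {P A : Type*} [CommRing P] [CommRing A] [Algebra P A] (g : P)
    [IsLocalization.Away g A] (ψ : P →+* Lam V.W) (hψ : IsUnit (ψ g)) (h : ∀ a, Al V (ψ a))
    (c : A) : Al V (IsLocalization.Away.lift g hψ c) := by
  obtain ⟨⟨a, x, k, rfl⟩, hc⟩ := IsLocalization.surj (Submonoid.powers g) c
  have := congrArg (IsLocalization.Away.lift (S := A) g hψ) hc
  simp only [map_mul, IsLocalization.Away.lift_eq] at this
  exact al_div V (by rw [map_pow]; exact hψ.pow k) (h _) (h a) ((mul_comm _ _).trans this)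

/-- Reductions of algebraic elements are algebraic. -/
lemma al_red (U : Unr p) (r : Lam U.W →+* Omp p) (hr : ∀ f : ℤ_[p]⟦X⟧,
    r (algebraMap U.W⟦X⟧ _ (PowerSeries.map (algebraMap ℤ_[p] U.W) f)) =
      algebraMap (ZMod p)⟦X⟧ (Omp p) (PowerSeries.map PadicInt.toZMod f)) (a : Lam U.W)
    (ha : Al U a) : IsAlgebraic (Polynomial (ZMod p)) (r a) := by
  obtain ⟨P, hP, h⟩ := ha
  have hp : ¬ IsUnit (p : Polynomial (Polynomial ℤ_[p])) := fun hu => by
    have := (hu.map (Polynomial.evalRingHom 0)).map (Polynomial.evalRingHom 0)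
    rw [map_natCast, map_natCast] at this
    exact PadicInt.irreducible_p.not_isUnit this
  obtain ⟨k, Q, hQ, rfl⟩ := WfDvdMonoid.max_power_factor' hP hp
  have hinj : Function.Injective (algebraMap U.W⟦X⟧ (Lam U.W)) :=
    IsLocalization.injective (Lam U.W) (powers_le_nonZeroDivisors_of_noZeroDivisors X_ne_zero)
  have hp0 : (p : Lam U.W) ≠ 0 := fun h0 => (Fact.out : p.Prime).ne_zero (by
    have : algebraMap U.W⟦X⟧ (Lam U.W) p = algebraMap U.W⟦X⟧ (Lam U.W) (0 : U.W⟦X⟧) := by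
      rw [map_natCast, h0, map_zero]
    have := congrArg constantCoeff (hinj this)
    rw [map_natCast, map_zero] at this
    exact_mod_cast this)
  rw [map_mul, map_pow, map_natCast] at h
  have h1 := (mul_eq_zero.1 h).resolve_left (pow_ne_zero _ hp0)
  refine ⟨Q.map (Polynomial.mapRingHom PadicInt.toZMod), fun h0 => hQ ?_, ?_⟩
  · rw [← map_natCast Polynomial.C, Polynomial.C_dvd_iff_dvd_coeff]
    intro i
    rw [← map_natCast Polynomial.C, Polynomial.C_dvd_iff_dvd_coeff]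
    intro j
    have := congrArg (fun q => (Polynomial.coeff q i).coeff j) h0
    simp only [Polynomial.coeff_map, Polynomial.coe_mapRingHom, Polynomial.coeff_zero] at this
    rw [← RingHom.mem_ker, PadicInt.ker_toZMod, PadicInt.maximalIdeal_eq_span_p,
      Ideal.mem_span_singleton] at this
    exact this
  · have := congrArg r h1
    rw [Polynomial.aeval_def, Polynomial.hom_eval₂, map_zero] at this
    rw [Polynomial.aeval_def, Polynomial.eval₂_map, ← this]
    congr 1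
    refine RingHom.ext fun c => ?_
    rw [RingHom.comp_apply, RingHom.comp_apply, al_map, hr, ← Polynomial.polynomial_map_coe]
    rfl

/-- Values of a frame are values of polynomials. -/
lemma Frame.poly (Φ : Frame p) (f : Φ.U.W⟦X⟧) :
    ∃ q : Polynomial Φ.U.W, Φ.ι (q : Φ.U.W⟦X⟧) = Φ.ι f := by
  have hz : IsIntegral ℚ_[p] (Φ.ι X) := (Algebra.IsAlgebraic.isAlgebraic _).isIntegral
  have hm := minpoly.monic hz
  have hc : ∀ n < (minpoly ℚ_[p] (Φ.ι X)).natDegree, ‖(minpoly ℚ_[p] (Φ.ι X)).coeff n‖ < 1 := by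
    intro n hn
    have h1 : spectralValueTerms (minpoly ℚ_[p] (Φ.ι X)) n < 1 :=
      (le_ciSup (spectralValueTerms_bddAbove _) n).trans_lt Φ.lt
    rw [spectralValueTerms_of_lt_natDegree _ hn] at h1
    by_contra h2
    refine absurd h1 (not_lt.2 (Real.one_le_rpow (not_lt.1 h2) ?_))
    have : (n : ℝ) < (minpoly ℚ_[p] (Φ.ι X)).natDegree := by exact_mod_cast hn
    have := sub_pos.2 this
    positivity
  have hl : minpoly ℚ_[p] (Φ.ι X) ∈ Polynomial.lifts (algebraMap ℤ_[p] ℚ_[p]) := by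
    rw [Polynomial.lifts_iff_coeff_lifts]
    intro n
    have h5 : ‖(minpoly ℚ_[p] (Φ.ι X)).coeff n‖ ≤ 1 := by
      rcases lt_trichotomy n (minpoly ℚ_[p] (Φ.ι X)).natDegree with h | h | h
      · exact (hc n h).le
      · rw [h, hm.coeff_natDegree, norm_one]
      · rw [Polynomial.coeff_eq_zero_of_natDegree_lt h, norm_zero]; exact zero_le_one
    exact ⟨⟨_, h5⟩, rfl⟩
  obtain ⟨E, hE, hd, hE1⟩ := Polynomial.lifts_and_natDegree_eq_and_monic hl hm
  have hD : (E.map (algebraMap ℤ_[p] Φ.U.W)).IsDistinguishedAt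
      (IsLocalRing.maximalIdeal Φ.U.W) := by
    refine ⟨⟨fun {n} hn => ?_⟩, hE1.map _⟩
    rw [hE1.natDegree_map, hd] at hn
    have h1 := hc n hn
    rw [← hE, Polynomial.coeff_map] at h1
    have h2 : E.coeff n ∈ IsLocalRing.maximalIdeal ℤ_[p] := PadicInt.mem_nonunits.2 h1
    rw [PadicInt.maximalIdeal_eq_span_p, Ideal.mem_span_singleton] at h2
    rw [Polynomial.coeff_map, Φ.U.max_eq, Ideal.mem_span_singleton,
      ← map_natCast (algebraMap ℤ_[p] Φ.U.W)]
    exact map_dvd _ h2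
  have h0 : Φ.ι (E.map (algebraMap ℤ_[p] Φ.U.W) : Polynomial Φ.U.W) = 0 := by
    have h1 := minpoly.aeval ℚ_[p] (Φ.ι X)
    rw [← hE, Polynomial.aeval_map_algebraMap, Polynomial.aeval_def] at h1
    rw [← h1, ← Polynomial.coeToPowerSeries.ringHom_apply, ← RingHom.comp_apply,
      ← Polynomial.coe_mapRingHom, ← RingHom.comp_apply, ← Polynomial.coe_eval₂RingHom]
    refine RingHom.congr_fun (Polynomial.ringHom_ext (fun a => ?_) ?_) E
    · simp [Φ.hZ]
    · simp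
  obtain ⟨q, hq⟩ := (hD.algEquivQuotient.surjective.comp Ideal.Quotient.mk_surjective)
    (Ideal.Quotient.mk _ f)
  have hq' : Ideal.Quotient.mk (Ideal.span {((E.map (algebraMap ℤ_[p] Φ.U.W) :
      Polynomial Φ.U.W) : Φ.U.W⟦X⟧)}) (q : Φ.U.W⟦X⟧) = Ideal.Quotient.mk _ f := hq
  obtain ⟨c, hc⟩ := Ideal.mem_span_singleton'.1 (Ideal.Quotient.eq.1 hq')
  refine ⟨q, sub_eq_zero.1 ?_⟩
  rw [← map_sub, ← hc, map_mul, h0, mul_zero]

end Pool.Agent.MP_855f4c_ag.LP

namespace Pool.Agent.MP_855f4c_ag.LP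

open PowerSeries

variable {p : ℕ} [Fact p.Prime]

/-- Lifting along a surjection with complete source. -/
lemma em_lift {A B S T : Type} [CommRing A] [CommRing B] [CommRing S] [CommRing T] [Algebra A B]
    [Algebra.FormallySmooth A B] (a : A →+* S) (q : S →+* T) (hq : Function.Surjective q)
    (I : Ideal S) [IsAdicComplete I S] (hI : RingHom.ker q = I) (g : B →+* T)
    (hg : ∀ x, g (algebraMap A B x) = q (a x)) :
    ∃ b : B →+* S, (∀ x, b (algebraMap A B x) = a x) ∧ ∀ z, q (b z) = g z := by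
  subst hI
  let := a.toAlgebra
  let e := RingHom.quotientKerEquivOfSurjective hq
  have he : ∀ s, e (Ideal.Quotient.mk _ s) = q s := fun _ => rfl
  obtain ⟨b, hb⟩ := Algebra.FormallySmooth.exists_mkₐ_comp_eq_of_isAdicComplete
    (I := RingHom.ker q) (⟨e.symm.toRingHom.comp g, fun x => e.symm_apply_eq.2 (hg x)⟩ :
      B →ₐ[A] S ⧸ RingHom.ker q)
  refine ⟨b.toRingHom, b.commutes, fun z => ?_⟩
  exact (he _).symm.trans (e.eq_symm_apply.1 (AlgHom.congr_fun hb z))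

lemma em_zp {k : Type} [Field k] [CharP k p] (a b : ℤ_[p] →+* k) (z : ℤ_[p]) : a z = b z := by
  have h := PadicInt.sub_zmodRepr_mem z
  rw [PadicInt.maximalIdeal_eq_span_p, Ideal.mem_span_singleton] at h
  obtain ⟨c, hc⟩ := h
  rw [eq_add_of_sub_eq hc]
  simp

/-- A finite etale domain over `W[[X]]` embeds into some `W'[[X]]`. -/
lemma emb (U : Unr p) (B : Type) [CommRing B] [IsDomain B] [Algebra U.W⟦X⟧ B]
    [Module.Finite U.W⟦X⟧ B] [Algebra.Etale U.W⟦X⟧ B] :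
    ∃ (V : Unr p) (θ : U.W →ₐ[ℤ_[p]] V.W) (β : B →+* V.W⟦X⟧), Function.Injective β ∧
      ∀ f, β (algebraMap U.W⟦X⟧ B f) = PowerSeries.map θ.toRingHom f := by
  obtain ⟨n, hn⟩ := Ideal.exists_maximal B
  let := Ideal.Quotient.field n
  let φ : U.W⟦X⟧ →+* B ⧸ n := (Ideal.Quotient.mk n).comp (algebraMap _ B)
  have h0 : ∀ f, ¬ IsUnit (constantCoeff f) → φ f = 0 := fun f hf => by
    have h := IsLocalRing.eq_maximalIdeal
      (Ideal.isMaximal_comap_of_isIntegral_of_isMaximal (R := U.W⟦X⟧) n)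
    refine Ideal.Quotient.eq_zero_iff_mem.2 (Ideal.mem_comap.1 (h.ge ?_))
    exact fun u => hf (u.map constantCoeff)
  have h1 : ∀ f, φ (C (constantCoeff f)) = φ f := fun f => by
    rw [← sub_eq_zero, ← map_sub]
    exact h0 _ (by simp)
  let s : IsLocalRing.ResidueField U.W →+* B ⧸ n :=
    Ideal.Quotient.lift _ (φ.comp C) fun w hw => h0 _ (by simpa using hw)
  have hs : s.Finite := by
    refine RingHom.Finite.of_comp_finite
      (f := (IsLocalRing.residue U.W).comp (constantCoeff (R := U.W))) ?_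
    have e : s.comp ((IsLocalRing.residue U.W).comp (constantCoeff (R := U.W))) = φ :=
      RingHom.ext h1
    rw [e]
    exact (RingHom.Finite.of_surjective _ Ideal.Quotient.mk_surjective).comp
      (RingHom.finite_algebraMap.2 inferInstance)
  have : Finite (B ⧸ n) := by
    let := s.toAlgebra
    have : Module.Finite (IsLocalRing.ResidueField U.W) (B ⧸ n) := hs
    exact Module.finite_of_finite (IsLocalRing.ResidueField U.W)
  have : CharP (B ⧸ n) p := by
    rw [CharP.charP_iff_prime_eq_zero Fact.out, ← map_natCast φ]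
    refine h0 _ ?_
    rw [map_natCast, ← mem_nonunits_iff, ← IsLocalRing.mem_maximalIdeal, U.max_eq]
    exact Ideal.mem_span_singleton_self _
  obtain ⟨V, r, hr⟩ := exists_unr (p := p) (B ⧸ n)
  obtain ⟨θ, hθ⟩ := Unr.lift U V r hr (φ.comp C) fun z =>
    em_zp ((φ.comp C).comp (algebraMap _ _)) (r.comp (algebraMap _ _)) z
  obtain ⟨b, hb, -⟩ := em_lift (θ.toRingHom.comp (constantCoeff (R := U.W))) r hr _
    (IsLocalRing.eq_maximalIdeal (RingHom.ker_isMaximal_of_surjective r hr))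
    (Ideal.Quotient.mk n) fun f => (h1 f).symm.trans (hθ _).symm
  obtain ⟨β, hβ, -⟩ := em_lift (PowerSeries.map θ.toRingHom) (constantCoeff (R := V.W))
    (fun w => ⟨C w, constantCoeff_C w⟩) (Ideal.span {X})
    (Ideal.ext fun f => by rw [RingHom.mem_ker, Ideal.mem_span_singleton, X_dvd_iff]) b
    fun f => (hb f).trans rfl
  refine ⟨V, θ, β, ?_, hβ⟩
  rw [RingHom.injective_iff_ker_eq_bot]
  refine Ideal.eq_bot_of_comap_eq_bot (R := U.W⟦X⟧) (eq_bot_iff.2 fun f hf => ?_)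
  have h2 : PowerSeries.map θ.toRingHom f = 0 := (hβ f).symm.trans hf
  exact (injective_iff_map_eq_zero _).1
    (PowerSeries.map_injective θ.toRingHom (Unr.hom_inj U V θ)) f h2

end Pool.Agent.MP_855f4c_ag.LP

namespace Pool.Agent.MP_855f4c_ag.LP

open PowerSeries

variable {p : ℕ} [Fact p.Prime]

lemma pp_pid {W : Type} [CommRing W] [IsPrincipalIdealRing W] :
    IsPrincipalIdealRing (W⟦X⟧ ⧸ Ideal.span {(X : W⟦X⟧)}) := by
  refine IsPrincipalIdealRing.of_surjective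
    ((Ideal.Quotient.mk (Ideal.span {(X : W⟦X⟧)})).comp (PowerSeries.C (R := W))) ?_
  intro y
  obtain ⟨f, rfl⟩ := Ideal.Quotient.mk_surjective y
  refine ⟨constantCoeff f, ?_⟩
  rw [RingHom.comp_apply, Ideal.Quotient.eq, Ideal.mem_span_singleton, X_dvd_iff]
  simp

lemma pp_dec {W : Type} [CommRing W] (n : ℕ) (hn : n ≠ 0) (f : W⟦X⟧) (hf : f ≠ 0) :
    ∃ (i : ℕ) (f' : W⟦X⟧), f = X ^ i * f' ∧ ¬ (X : W⟦X⟧) ∣ expand n hn f' := by
  refine ⟨f.order.toNat, divXPowOrder f, X_pow_order_mul_divXPowOrder.symm, ?_⟩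
  rw [X_dvd_iff, constantCoeff_expand, constantCoeff_divXPowOrder_eq_zero_iff]
  exact hf

lemma pp_loc {W V : Type} [CommRing W] [CommRing V] [IsDomain V] (ψ : W⟦X⟧ →+* V⟦X⟧) (n : ℕ)
    (hn : n ≠ 0) (hX : ψ X = X ^ n) (hi : ψ.IsIntegral) (hj : Function.Injective ψ)
    (φ : Lam W →+* Lam V)
    (h : ∀ f, φ (algebraMap W⟦X⟧ (Lam W) f) = algebraMap V⟦X⟧ (Lam V) (ψ f)) :
    φ.IsIntegral ∧ Function.Injective φ := by
  have hc : φ.comp (algebraMap W⟦X⟧ (Lam W)) = (algebraMap V⟦X⟧ (Lam V)).comp ψ :=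
    RingHom.ext h
  constructor
  · intro z
    obtain ⟨k, g, hg⟩ := IsLocalization.Away.surj (X : V⟦X⟧) z
    obtain ⟨m, rfl⟩ := Nat.exists_eq_succ_of_ne_zero hn
    have h1 : φ.IsIntegralElem (algebraMap V⟦X⟧ (Lam V) (g * X ^ (m * k))) := by
      obtain ⟨q, hq, hq0⟩ := hi (g * X ^ (m * k))
      refine ⟨q.map (algebraMap W⟦X⟧ (Lam W)), hq.map _, ?_⟩
      rw [Polynomial.eval₂_map, hc, ← Polynomial.hom_eval₂, hq0, map_zero]
    have h2 : z = algebraMap V⟦X⟧ (Lam V) (g * X ^ (m * k)) *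
        φ (IsLocalization.Away.invSelf (X : W⟦X⟧) ^ k) := by
      have h3 : algebraMap V⟦X⟧ (Lam V) (X ^ (m + 1)) *
          φ (IsLocalization.Away.invSelf (X : W⟦X⟧)) = 1 := by
        rw [← hX, ← h, ← map_mul, IsLocalization.Away.mul_invSelf, map_one]
      rw [map_mul, ← hg, map_pow, map_pow]
      rw [map_pow] at h3
      have h4 := congrArg (· ^ k) h3
      simp only [one_pow, mul_pow] at h4
      calc z = z * 1 := (mul_one z).symm
        _ = _ := by rw [← h4]; ring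
    rw [h2]
    exact h1.mul φ (φ.isIntegralElem_map)
  · rw [injective_iff_map_eq_zero]
    intro z hz
    obtain ⟨k, g, hg⟩ := IsLocalization.Away.surj (X : W⟦X⟧) z
    have h1 : algebraMap V⟦X⟧ (Lam V) (ψ g) = 0 := by
      rw [← h, ← hg, map_mul, hz, zero_mul]
    have h2 : ψ g = 0 :=
      (IsLocalization.injective (Lam V)
        (powers_le_nonZeroDivisors_of_noZeroDivisors (X_ne_zero (R := V))))
        (h1.trans (map_zero _).symm)
    have h3 : g = 0 := hj (h2.trans (map_zero _).symm)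
    rw [h3, map_zero] at hg
    exact ((IsLocalization.Away.algebraMap_isUnit (S := Lam W) (X : W⟦X⟧)).pow k).mul_left_eq_zero.mp hg

/-- Finite unramified domains over `W[[X]][1/X]` embed into some `W'[[X^(1/n)]][1/X]`. -/
lemma pur_ps (U : Unr p) (C : Type) [CommRing C] [IsDomain C] [Algebra (Lam U.W) C]
    [Module.Finite (Lam U.W) C] [Algebra.FormallyUnramified (Lam U.W) C]
    (hinj : Function.Injective (algebraMap (Lam U.W) C)) :
    ∃ (V : Unr p) (θ : U.W →ₐ[ℤ_[p]] V.W) (n : ℕ) (hn : n ≠ 0) (j : C →+* Lam V.W),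
      Function.Injective j ∧ j.IsIntegral ∧ ∀ f : U.W⟦X⟧,
        j (algebraMap (Lam U.W) C (algebraMap U.W⟦X⟧ (Lam U.W) f)) =
          algebraMap V.W⟦X⟧ (Lam V.W) (expand n hn (PowerSeries.map θ.toRingHom f)) := by
  obtain ⟨n, hn, H⟩ := pur (S := U.W⟦X⟧) (Λ := Lam U.W) (C := C) X X_ne_zero hinj
  obtain ⟨B, _, _, _, _, _, j, -, hj⟩ := H U.W⟦X⟧ (expand (R := U.W) n hn).toRingHom X
    (expand_inj n hn) X_prime (expand_X n hn) (mem_closure_expand n hn) (pp_dec n hn)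
    (fun i hi => by
      rw [X_dvd_iff, map_natCast]
      exact Nat.cast_ne_zero.mpr hi) pp_pid
  obtain ⟨V, θ, β, -, hβ⟩ := emb U B
  have hu : IsUnit (((algebraMap V.W⟦X⟧ (Lam V.W)).comp β) (algebraMap U.W⟦X⟧ B X)) := by
    rw [RingHom.comp_apply, hβ, map_X]
    exact IsLocalization.Away.algebraMap_isUnit (X : V.W⟦X⟧)
  let l : Localization.Away (algebraMap U.W⟦X⟧ B X) →+* Lam V.W :=
    IsLocalization.Away.lift (algebraMap U.W⟦X⟧ B X) hu
  have hf : ∀ f : U.W⟦X⟧, (l.comp j) (algebraMap (Lam U.W) C (algebraMap U.W⟦X⟧ (Lam U.W) f)) =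
      algebraMap V.W⟦X⟧ (Lam V.W) (expand n hn (PowerSeries.map θ.toRingHom f)) := by
    intro f
    rw [RingHom.comp_apply, hj, IsLocalization.Away.lift_eq, RingHom.comp_apply, hβ]
    exact congrArg _ (map_expand _ _ _ _)
  have hθ : θ.toRingHom.Finite := by
    refine RingHom.Finite.of_comp_finite (f := algebraMap ℤ_[p] U.W) ?_
    rw [show θ.toRingHom.comp (algebraMap ℤ_[p] U.W) = algebraMap ℤ_[p] V.W from
      θ.comp_algebraMap]
    exact RingHom.finite_algebraMap.mpr inferInstance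
  obtain ⟨h1, h2⟩ := pp_loc ((expand (R := V.W) n hn).toRingHom.comp
      (PowerSeries.map θ.toRingHom)) n hn
    (by rw [RingHom.comp_apply, map_X]; exact expand_X n hn)
    ((map_isIntegral _ hθ).trans _ _ (expand_isIntegral n hn))
    ((expand_inj n hn).comp (PowerSeries.map_injective _ (Unr.hom_inj U V θ)))
    ((l.comp j).comp (algebraMap (Lam U.W) C)) hf
  refine ⟨V, θ, n, hn, l.comp j, ?_, RingHom.IsIntegral.tower_top _ _ h1, hf⟩
  rw [RingHom.injective_iff_ker_eq_bot]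
  refine Ideal.eq_bot_of_comap_eq_bot (R := Lam U.W) ?_
  rw [RingHom.comap_ker]
  exact (RingHom.injective_iff_ker_eq_bot _).mp h2

end Pool.Agent.MP_855f4c_ag.LP

namespace Pool.Agent.MP_855f4c_ag.LP

open PowerSeries

variable {p : ℕ} [Fact p.Prime]

lemma rl_ker (V : Unr p) {Ω : Type} [Field Ω] [CharP Ω p] (y y' : Lam V.W →+* Ω) (a : Lam V.W)
    (h : y a = 0) : y' a = 0 := by
  obtain ⟨⟨f, x, k, rfl⟩, hf⟩ := IsLocalization.surj (Submonoid.powers (X : V.W⟦X⟧)) a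
  have hX : IsUnit (algebraMap V.W⟦X⟧ (Lam V.W) X) := IsLocalization.Away.algebraMap_isUnit X
  simp only at hf
  rcases V.dec f with ⟨g, rfl⟩ | ⟨i, u, g, hu, rfl⟩
  · have h1 := congrArg y' hf
    simp only [map_mul, map_pow, map_natCast, CharP.cast_eq_zero, zero_mul] at h1
    exact (mul_eq_zero.1 h1).resolve_right (pow_ne_zero _ (hX.map y').ne_zero)
  · have h1 := congrArg y hf
    simp only [map_mul, map_add, map_pow, map_natCast, CharP.cast_eq_zero, zero_mul, h,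
      add_zero] at h1
    exact absurd h1.symm (mul_ne_zero (pow_ne_zero _ (hX.map y).ne_zero)
      ((hu.map (algebraMap V.W⟦X⟧ (Lam V.W))).map y).ne_zero)

/-- The prime `p` does not split. -/
lemma ns (U : Unr p) (C : Type) [CommRing C] [IsDomain C] [Algebra (Lam U.W) C]
    [Module.Finite (Lam U.W) C] [Algebra.FormallyUnramified (Lam U.W) C]
    (hinj : Function.Injective (algebraMap (Lam U.W) C)) {Ω : Type} [Field Ω] [IsAlgClosed Ω]
    [CharP Ω p] (b b' : C →+* Ω) (c : C) (h : b c = 0) : b' c = 0 := by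
  obtain ⟨V, θ, n, hn, j, hji, hjint, -⟩ := pur_ps U C hinj
  have hk : RingHom.ker j = ⊥ := (RingHom.injective_iff_ker_eq_bot j).1 hji
  obtain ⟨y, hy⟩ := ext_int j hjint b (hk ▸ bot_le)
  obtain ⟨y', hy'⟩ := ext_int j hjint b' (hk ▸ bot_le)
  rw [← hy']
  exact rl_ker V y y' _ (by rw [hy, h])

lemma rl_norm {A B : Type*} [CommRing A] [CommRing B] (σ : A →+* B) (hσ : σ.IsIntegral)
    (ι : B →+* PadicAlgCl p) (h : ∀ a, ‖ι (σ a)‖ ≤ 1) (f : B) : ‖ι f‖ ≤ 1 := by
  obtain ⟨P, hP, hf⟩ := hσ f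
  let v := (PadicAlgCl.valued p).v
  have hv : ∀ z : PadicAlgCl p, z ∈ v.integer ↔ ‖z‖ ≤ 1 := fun z => by
    rw [Valuation.mem_integer_iff, PadicAlgCl.valuation_def, ← NNReal.coe_le_coe]
    rfl
  let ι0 : A →+* v.integer := (ι.comp σ).codRestrict _ fun a => (hv _).2 (h a)
  refine (hv _).1 ((Valuation.integer.integers v).mem_of_integral ⟨P.map ι0, hP.map _, ?_⟩)
  rw [Polynomial.eval₂_map]
  have h1 := congrArg ι hf
  rw [Polynomial.hom_eval₂, map_zero] at h1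
  exact h1

/-- Points of finite etale covers lift after refining the frame. -/
lemma rl (Φ : Frame p) (B : Type) [CommRing B] [Algebra (Lam Φ.U.W) B]
    [Module.Finite (Lam Φ.U.W) B] [Algebra.Etale (Lam Φ.U.W) B] (b : B →+* PadicAlgCl p)
    (hb : ∀ a, b (algebraMap (Lam Φ.U.W) B a) = Φ.ev a) :
    ∃ (Ψ : Frame p) (s : B →+* Lam Ψ.U.W), (∀ z, Ψ.ev (s z) = b z) ∧
      ∀ a, Al Φ.U a → Al Ψ.U (s (algebraMap _ B a)) := by
  have : (RingHom.ker b).IsPrime := RingHom.ker_isPrime b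
  obtain ⟨P, hPle, hPp, hPo⟩ := Ideal.exists_ideal_le_liesOver_of_le
    (p := (⊥ : Ideal (Lam Φ.U.W))) (q := (RingHom.ker b).under (Lam Φ.U.W)) (RingHom.ker b) bot_le
  have : Algebra.FormallyUnramified (Lam Φ.U.W) (B ⧸ P) :=
    Algebra.FormallyUnramified.of_surjective (Ideal.Quotient.mkₐ (Lam Φ.U.W) P)
      Ideal.Quotient.mk_surjective
  have hinj : Function.Injective (algebraMap (Lam Φ.U.W) (B ⧸ P)) := by
    rw [injective_iff_map_eq_zero]
    intro a ha
    have h1 : algebraMap (Lam Φ.U.W) B a ∈ P := Ideal.Quotient.eq_zero_iff_mem.1 ha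
    have h2 : a ∈ P.under (Lam Φ.U.W) := h1
    rwa [← hPo.over, Ideal.mem_bot] at h2
  obtain ⟨V, θ, n, hn, j, hji, hjint, hj⟩ := pur_ps Φ.U (B ⧸ P) hinj
  have hk : RingHom.ker j = ⊥ := (RingHom.injective_iff_ker_eq_bot j).1 hji
  obtain ⟨y, hy⟩ := ext_int j hjint (Ideal.Quotient.lift P b fun a ha => hPle ha) (hk ▸ bot_le)
  have hι : ∀ f : Φ.U.W⟦X⟧, y (algebraMap V.W⟦X⟧ (Lam V.W)
      (expand n hn (PowerSeries.map θ.toRingHom f))) = Φ.ι f := by
    intro f
    rw [← hj, hy, ← Φ.ev_algebraMap, ← hb]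
    rfl
  have hθ : θ.toRingHom.Finite := by
    refine RingHom.Finite.of_comp_finite (f := algebraMap ℤ_[p] Φ.U.W) ?_
    have : θ.toRingHom.comp (algebraMap ℤ_[p] Φ.U.W) = algebraMap ℤ_[p] V.W := θ.comp_algebraMap
    rw [this]
    exact RingHom.finite_algebraMap.2 inferInstance
  have hX : IsUnit (algebraMap V.W⟦X⟧ (Lam V.W) X) := IsLocalization.Away.algebraMap_isUnit X
  let Ψ : Frame p :=
    { U := V
      ι := y.comp (algebraMap V.W⟦X⟧ (Lam V.W))
      hZ := fun z => by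
        rw [← Φ.hZ, ← hι]
        simp [expand_C]
      le := rl_norm ((expand n hn).toRingHom.comp (PowerSeries.map θ.toRingHom))
        ((map_isIntegral _ hθ).trans _ _ (expand_isIntegral n hn)) _ fun a => by
          have := Φ.le a
          rw [← hι] at this
          exact this
      lt := by
        have h1 := Φ.lt
        rw [← hι, map_X, expand_X, map_pow, map_pow, norm_pow] at h1
        exact (pow_lt_one_iff_of_nonneg (norm_nonneg _) hn).1 h1
      ne := (hX.map y).ne_zero }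
  have hΨ : Ψ.ev = y :=
    IsLocalization.ringHom_ext (Submonoid.powers (X : V.W⟦X⟧)) (RingHom.ext Ψ.ev_algebraMap)
  refine ⟨Ψ, j.comp (Ideal.Quotient.mk P), fun z => ?_, al_sigma Φ.U V
    (j.comp (algebraMap _ (B ⧸ P))) (fun z => ?_) (Polynomial.X ^ n)
    (pow_ne_zero _ Polynomial.X_ne_zero) (by simp [hn.symm]) ?_⟩
  · rw [hΨ]
    exact hy _
  · rw [RingHom.comp_apply, hj]
    simp [expand_C]
  · rw [RingHom.comp_apply, hj, map_X, expand_X]
    simp

end Pool.Agent.MP_855f4c_ag.LP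

namespace Pool.Agent.MP_855f4c_ag.LP

open PowerSeries

variable {p : ℕ} [Fact p.Prime]

section
open Filter Topology

variable {L : Type} [NormedField L] [IsUltrametricDist L] [ProperSpace L]

lemma fk_pi {a : L} (h0 : a ≠ 0) (h1 : ‖a‖ < 1) :
    ∃ π : L, π ≠ 0 ∧ ‖π‖ < 1 ∧ ∀ z : L, ‖z‖ < 1 → ‖z‖ ≤ ‖π‖ := by
  have hc : IsCompact (Metric.ball (0 : L) 1) :=
    (isCompact_closedBall (0 : L) 1).of_isClosed_subset (IsUltrametricDist.isClosed_ball _ _)
      Metric.ball_subset_closedBall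
  obtain ⟨π, hπ, hm⟩ := hc.exists_isMaxOn ⟨a, mem_ball_zero_iff.2 h1⟩ continuous_norm.continuousOn
  refine ⟨π, ?_, mem_ball_zero_iff.1 hπ, fun z hz => hm (mem_ball_zero_iff.2 hz)⟩
  have : ‖a‖ ≤ ‖π‖ := hm (mem_ball_zero_iff.2 h1)
  exact norm_pos_iff.1 ((norm_pos_iff.2 h0).trans_le this)

lemma fk_sum {W : Type} [CommRing W] (θ : W →+* L) (hθ : ∀ w, ‖θ w‖ ≤ 1) {π : L} (hπ : ‖π‖ < 1) :
    ∃ ι : W⟦X⟧ →+* L, (∀ w, ι (C w) = θ w) ∧ ι X = π ∧ (∀ f, ‖ι f‖ ≤ 1) ∧
      ∀ f, HasSum (fun n => θ (coeff n f) * π ^ n) (ι f) := by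
  have hb : ∀ (f : W⟦X⟧) n, ‖θ (coeff n f) * π ^ n‖ ≤ ‖π‖ ^ n := fun f n => by
    rw [norm_mul, norm_pow]
    exact mul_le_of_le_one_left (by positivity) (hθ _)
  have hs : ∀ f : W⟦X⟧, Summable fun n => ‖θ (coeff n f) * π ^ n‖ := fun f =>
    .of_nonneg_of_le (fun _ => norm_nonneg _) (hb f)
      (summable_geometric_of_lt_one (norm_nonneg _) hπ)
  have hC : ∀ w, ∑' n, θ (coeff n (C w : W⟦X⟧)) * π ^ n = θ w := fun w => by
    rw [tsum_eq_single 0 fun n hn => by simp [coeff_C, hn]]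
    simp
  refine ⟨⟨⟨⟨fun f => ∑' n, θ (coeff n f) * π ^ n, ?_⟩, fun f g => ?_⟩, by simp, fun f g => ?_⟩,
    hC, ?_, fun f => ?_, fun f => (hs f).of_norm.hasSum⟩
  · simp
  · rw [tsum_mul_tsum_eq_tsum_sum_antidiagonal_of_summable_norm (hs f) (hs g)]
    refine tsum_congr fun n => ?_
    rw [coeff_mul, map_sum, Finset.sum_mul]
    refine Finset.sum_congr rfl fun q hq => ?_
    rw [← Finset.HasAntidiagonal.mem_antidiagonal.1 hq, map_mul]
    ring
  · simp only [map_add, add_mul]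
    exact (hs f).of_norm.tsum_add (hs g).of_norm
  · change ∑' n, θ (coeff n (X : W⟦X⟧)) * π ^ n = π
    rw [tsum_eq_single 1 fun n hn => by simp [coeff_X, hn]]
    simp
  · refine le_of_tendsto' (hs f).of_norm.hasSum.tendsto_sum_nat.norm fun n => ?_
    exact IsUltrametricDist.norm_sum_le_of_forall_le_of_nonneg zero_le_one fun i _ =>
      (hb f i).trans (pow_le_one₀ (norm_nonneg _) hπ.le)

omit [IsUltrametricDist L] [ProperSpace L] in
lemma fk_surj {W : Type} [CommRing W] (θ : W →+* L) {π : L} (h0 : π ≠ 0) (hπ : ‖π‖ < 1)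
    (ha : ∀ z : L, ‖z‖ ≤ 1 → ∃ w, ‖z - θ w‖ ≤ ‖π‖) (ι : W⟦X⟧ → L)
    (hι : ∀ f, HasSum (fun n => θ (coeff n f) * π ^ n) (ι f)) (z : L) (hz : ‖z‖ ≤ 1) :
    ∃ f, ι f = z := by
  choose! w hw using ha
  let s : ℕ → L := fun n => (fun y => (y - θ (w y)) / π)^[n] z
  have hs : ∀ n, s (n + 1) = (s n - θ (w (s n))) / π := fun n => Function.iterate_succ_apply' _ _ _
  have h1 : ∀ n, ‖s n‖ ≤ 1 := fun n => by
    induction n with
    | zero => exact hz
    | succ n ih => rw [hs, norm_div, div_le_one (norm_pos_iff.2 h0)]; exact hw _ ih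
  have h2 : ∀ n, ∑ i ∈ Finset.range n, θ (w (s i)) * π ^ i = z - π ^ n * s n := fun n => by
    induction n with
    | zero => simp [s]
    | succ n ih => rw [Finset.sum_range_succ, ih, hs]; field_simp; ring
  refine ⟨mk fun n => w (s n), tendsto_nhds_unique (hι _).tendsto_sum_nat ?_⟩
  simp only [coeff_mk, h2]
  have : Tendsto (fun n => π ^ n * s n) atTop (𝓝 0) := by
    refine squeeze_zero_norm (fun n => ?_) (tendsto_pow_atTop_nhds_zero_of_lt_one (norm_nonneg π) hπ)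
    rw [norm_mul, norm_pow]
    exact mul_le_of_le_one_right (by positivity) (h1 n)
  simpa using this.const_sub z

/-- The ring of integers. -/
def fk_O [Algebra ℤ_[p] L] (hn : ∀ z : ℤ_[p], ‖algebraMap ℤ_[p] L z‖ ≤ 1) : Subalgebra ℤ_[p] L where
  carrier := {z | ‖z‖ ≤ 1}
  mul_mem' ha hb := (norm_mul_le _ _).trans (mul_le_one₀ ha (norm_nonneg _) hb)
  add_mem' ha hb := (IsUltrametricDist.norm_add_le_max _ _).trans (max_le ha hb)
  algebraMap_mem' := hn

lemma fk_theta [Algebra ℤ_[p] L] (hn : ∀ z : ℤ_[p], ‖algebraMap ℤ_[p] L z‖ ≤ 1)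
    (hp : ‖(p : L)‖ < 1) {π : L} (h0 : π ≠ 0) (hπ : ‖π‖ < 1)
    (hm : ∀ z : L, ‖z‖ < 1 → ‖z‖ ≤ ‖π‖) :
    ∃ (U : Unr p) (θ : U.W →ₐ[ℤ_[p]] L), (∀ w, ‖θ w‖ ≤ 1) ∧
      ∀ z : L, ‖z‖ ≤ 1 → ∃ w, ‖z - θ w‖ ≤ ‖π‖ := by
  let O := fk_O hn
  let I : Ideal O := Ideal.span {⟨π, hπ.le⟩}
  have hI : ∀ (n : ℕ) (x : O), x ∈ I ^ n ↔ ‖(x : L)‖ ≤ ‖π‖ ^ n := fun n x => by
    rw [Ideal.span_singleton_pow, Ideal.mem_span_singleton']
    constructor
    · rintro ⟨a, rfl⟩
      change ‖(a : L) * π ^ n‖ ≤ _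
      rw [norm_mul, norm_pow]
      exact mul_le_of_le_one_left (by positivity) a.2
    · intro h
      refine ⟨⟨x / π ^ n, ?_⟩, Subtype.ext ?_⟩
      · change ‖(x : L) / π ^ n‖ ≤ 1
        rwa [norm_div, norm_pow, div_le_one (pow_pos (norm_pos_iff.2 h0) n)]
      · change (x : L) / π ^ n * π ^ n = x
        exact div_mul_cancel₀ _ (pow_ne_zero _ h0)
  have hI1 : ∀ x : O, x ∈ I ↔ ‖(x : L)‖ ≤ ‖π‖ := fun x => by simpa using hI 1 x
  have ht := tendsto_pow_atTop_nhds_zero_of_lt_one (norm_nonneg π) hπ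
  have hS : ∀ (n : ℕ) (x y : O), x ≡ y [SMOD (I ^ n • ⊤ : Submodule O O)] ↔
      ‖(x : L) - y‖ ≤ ‖π‖ ^ n := fun n x y => by
    rw [SModEq.sub_mem, smul_eq_mul, Ideal.mul_top, hI]
    rfl
  have : IsHausdorff I O := ⟨fun x hx => Subtype.ext (norm_le_zero_iff.1
    (ge_of_tendsto' ht fun n => by simpa using (hS n x 0).1 (hx n)))⟩
  have : IsPrecomplete I O := ⟨fun f hf => by
    have hc : CauchySeq fun n => (f n : L) := cauchySeq_of_le_geometric ‖π‖ 1 hπ fun n => by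
      rw [dist_eq_norm, one_mul]
      exact (hS n _ _).1 (hf n.le_succ)
    obtain ⟨y, hy⟩ := cauchySeq_tendsto_of_complete hc
    refine ⟨⟨y, le_of_tendsto' hy.norm fun n => (f n).2⟩, fun n => (hS n _ _).2 ?_⟩
    exact le_of_tendsto (hy.const_sub (f n : L)).norm
      ((eventually_ge_atTop n).mono fun m hm => (hS n _ _).1 (hf hm))⟩
  have : IsAdicComplete I O := {}
  have : I.IsMaximal := by
    refine Ideal.isMaximal_iff.2 ⟨fun h => ?_, fun J x _ hx hxJ => ?_⟩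
    · have := (hI1 1).1 h
      simp only [OneMemClass.coe_one, norm_one] at this
      exact absurd hπ this.not_gt
    · have h1 : 1 ≤ ‖(x : L)‖ := not_lt.1 fun h => hx ((hI1 x).2 (hm _ h))
      have h2 : (x : L) ≠ 0 := norm_pos_iff.1 (one_pos.trans_le h1)
      have h3 : (⟨(x : L)⁻¹, (norm_inv (x : L)).trans_le (inv_le_one_of_one_le₀ h1)⟩ : O) * x = 1 :=
        Subtype.ext (inv_mul_cancel₀ h2)
      exact h3 ▸ J.mul_mem_left _ hxJ
  let := Ideal.Quotient.field I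
  have : Finite (O ⧸ I) := by
    obtain ⟨t, ht1, ht2, ht3⟩ := finite_cover_balls_of_compact (isCompact_closedBall (0 : L) 1) one_pos
    have := ht2.to_subtype
    refine Finite.of_surjective
      (fun x : t => Ideal.Quotient.mk I ⟨x, mem_closedBall_zero_iff.1 (ht1 x.2)⟩) fun y => ?_
    obtain ⟨y, rfl⟩ := Ideal.Quotient.mk_surjective y
    obtain ⟨x, hx, hy⟩ := Set.mem_iUnion₂.1 (ht3 (mem_closedBall_zero_iff.2 y.2))
    refine ⟨⟨x, hx⟩, Ideal.Quotient.eq.2 ((hI1 _).2 (hm _ ?_))⟩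
    exact mem_ball_iff_norm'.1 hy
  have hp0 : (p : O ⧸ I) = 0 := by
    rw [← map_natCast (Ideal.Quotient.mk I), Ideal.Quotient.eq_zero_iff_mem, hI1]
    exact hm _ (by simpa using hp)
  have : CharP (O ⧸ I) p := (CharP.charP_iff_prime_eq_zero Fact.out).2 hp0
  obtain ⟨U, r, hr⟩ := exists_unr (p := p) (O ⧸ I)
  have hz : ∀ z : ℤ_[p], r (algebraMap ℤ_[p] U.W z) = algebraMap ℤ_[p] (O ⧸ I) z := fun z => by
    have h := PadicInt.sub_zmodRepr_mem z
    rw [PadicInt.maximalIdeal_eq_span_p, Ideal.mem_span_singleton'] at h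
    obtain ⟨a, ha⟩ := h
    rw [eq_add_of_sub_eq ha.symm]
    simp
  obtain ⟨θ, hθ⟩ := Algebra.FormallySmooth.exists_mkₐ_comp_eq_of_isAdicComplete (I := I)
    ({ r with commutes' := hz } : U.W →ₐ[ℤ_[p]] O ⧸ I)
  refine ⟨U, O.val.comp θ, fun w => (θ w).2, fun z h => ?_⟩
  obtain ⟨w, hw⟩ := hr (Ideal.Quotient.mk I ⟨z, h⟩)
  have : Ideal.Quotient.mk I ⟨z, h⟩ = Ideal.Quotient.mk I (θ w) :=
    hw.symm.trans (DFunLike.congr_fun hθ w).symm
  exact ⟨w, (hI1 _).1 (Ideal.Quotient.eq.1 this)⟩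

end

/-- The standard frame of a finite extension of `ℚ_[p]`: onto the integers, `X` a uniformiser. -/
lemma fk (K : IntermediateField ℚ_[p] (PadicAlgCl p)) [FiniteDimensional ℚ_[p] K] :
    ∃ Ψ : Frame p, (∀ z ∈ K, ‖z‖ ≤ 1 → ∃ f, Ψ.ι f = z) ∧ (∀ f, Ψ.ι f ∈ K) ∧
      ∀ z ∈ K, ‖z‖ < 1 → ‖z‖ ≤ ‖Ψ.ι X‖ := by
  have : ProperSpace K := FiniteDimensional.proper ℚ_[p] K
  have hn : ∀ z : ℤ_[p], ‖algebraMap ℤ_[p] K z‖ = ‖z‖ := fun z =>
    PadicAlgCl.norm_extends (p := p) (z : ℚ_[p])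
  have hp : ‖(p : K)‖ < 1 := by
    rw [← map_natCast (algebraMap ℤ_[p] K), hn, PadicInt.norm_p]
    exact inv_lt_one_of_one_lt₀ (by exact_mod_cast (Fact.out : p.Prime).one_lt)
  obtain ⟨π, h0, hπ, hm⟩ := fk_pi (Nat.cast_ne_zero.2 (Fact.out : p.Prime).ne_zero) hp
  obtain ⟨U, θ, h1, h2⟩ := fk_theta (fun z => (hn z).trans_le z.norm_le_one) hp h0 hπ hm
  obtain ⟨ι, a1, a2, a3, a4⟩ := fk_sum θ.toRingHom h1 hπ
  refine ⟨⟨U, (algebraMap K (PadicAlgCl p)).comp ι, fun z => ?_, a3, ?_, ?_⟩, fun z hz h => ?_,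
    fun f => (ι f).2, fun z hz h => ?_⟩
  · rw [RingHom.comp_apply, a1]
    exact congrArg Subtype.val (θ.commutes z)
  · rw [RingHom.comp_apply, a2]; exact hπ
  · rw [RingHom.comp_apply, a2]; exact fun h => h0 (Subtype.ext h)
  · obtain ⟨f, hf⟩ := fk_surj θ.toRingHom h0 hπ h2 ι a4 ⟨z, hz⟩ h
    exact ⟨f, congrArg Subtype.val hf⟩
  · change _ ≤ ‖ι X‖
    rw [a2]
    exact hm ⟨z, hz⟩ h

end Pool.Agent.MP_855f4c_ag.LP

namespace Pool.Agent.MP_855f4c_ag.LP

open PowerSeries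

variable {p : ℕ} [Fact p.Prime]

lemma rf_field (Φ : Frame p) (z : PadicAlgCl p) : ∃ K : IntermediateField ℚ_[p] (PadicAlgCl p),
    FiniteDimensional ℚ_[p] K ∧ z ∈ K ∧ Φ.ι X ∈ K ∧ ∀ w, Φ.ι (C w) ∈ K := by
  obtain ⟨s, hs⟩ := Module.Finite.fg_top (R := ℤ_[p]) (M := Φ.U.W)
  have fin : (insert z (insert (Φ.ι X) ((fun w => Φ.ι (C w)) '' s))).Finite :=
    ((s.finite_toSet.image _).insert _).insert _
  have := fin.to_subtype
  refine ⟨IntermediateField.adjoin ℚ_[p] (insert z (insert (Φ.ι X) ((fun w => Φ.ι (C w)) '' s))),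
    IntermediateField.finiteDimensional_adjoin fun x _ =>
      (Algebra.IsAlgebraic.isAlgebraic x).isIntegral,
    IntermediateField.subset_adjoin _ _ (.inl rfl),
    IntermediateField.subset_adjoin _ _ (.inr (.inl rfl)), fun w => ?_⟩
  have hw : w ∈ Submodule.span ℤ_[p] (s : Set Φ.U.W) := hs ▸ Submodule.mem_top
  induction hw using Submodule.span_induction with
  | mem x h => exact IntermediateField.subset_adjoin _ _ (.inr (.inr ⟨x, h, rfl⟩))
  | zero => rw [map_zero, map_zero]; exact zero_mem _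
  | add x y _ _ h g => rw [map_add, map_add]; exact add_mem h g
  | smul c x _ h =>
    rw [Algebra.smul_def, map_mul, map_mul, Φ.hZ,
      IsScalarTower.algebraMap_apply ℤ_[p] ℚ_[p] (PadicAlgCl p)]
    exact mul_mem (IntermediateField.algebraMap_mem _ _) h

lemma rf_unit (Ψ : Frame p) (K : IntermediateField ℚ_[p] (PadicAlgCl p))
    (h1 : ∀ z ∈ K, ‖z‖ ≤ 1 → ∃ f, Ψ.ι f = z) (h2 : ∀ f, Ψ.ι f ∈ K)
    (h3 : ∀ z ∈ K, ‖z‖ < 1 → ‖z‖ ≤ ‖Ψ.ι X‖) {y : PadicAlgCl p} (hy : y ∈ K) (y0 : y ≠ 0)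
    (y1 : ‖y‖ ≤ 1) : ∃ (k : ℕ) (u : Polynomial Ψ.U.W), IsUnit (u : Ψ.U.W⟦X⟧) ∧
      Ψ.ι ((u : Ψ.U.W⟦X⟧) * X ^ k) = y := by
  have π0 := norm_pos_iff.2 Ψ.ne
  obtain ⟨k, k1, k2⟩ := exists_nat_pow_near_of_lt_one (norm_pos_iff.2 y0) y1 π0 Ψ.lt
  have m : y / Ψ.ι X ^ k ∈ K := div_mem hy (pow_mem (h2 X) k)
  have e : ‖y / Ψ.ι X ^ k‖ = ‖y‖ / ‖Ψ.ι X‖ ^ k := by rw [norm_div, norm_pow]
  obtain ⟨u0, hu0⟩ := h1 _ m (e ▸ (div_le_one (pow_pos π0 k)).2 k2)
  obtain ⟨u, hu⟩ := Ψ.poly u0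
  rw [hu0] at hu
  refine ⟨k, u, by_contra fun g => ?_, by
    rw [map_mul, map_pow, hu, div_mul_cancel₀ _ (pow_ne_zero k Ψ.ne)]⟩
  have := h3 _ m (hu ▸ Ψ.norm_lt _ g)
  rw [e, div_le_iff₀ (pow_pos π0 k), ← pow_succ'] at this
  exact absurd this k1.not_ge

lemma rf_theta (Φ Ψ : Frame p) (h : ∀ w, ∃ f, Ψ.ι f = Φ.ι (C w)) :
    ∃ θ : Φ.U.W →+* Ψ.U.W, (∀ w, Ψ.ι (C (θ w)) = Φ.ι (C w)) ∧
      ∀ z : ℤ_[p], θ (algebraMap _ _ z) = algebraMap _ _ z := by
  let ρ := (IsLocalRing.residue Ψ.U.W).comp (constantCoeff (R := Ψ.U.W))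
  have hk : RingHom.ker Ψ.ι.rangeRestrict ≤ RingHom.ker ρ := fun f hf => by
    refine (IsLocalRing.residue_eq_zero_iff _).2 fun g => ?_
    exact ((isUnit_iff_constantCoeff.2 g).map Ψ.ι.rangeRestrict).ne_zero hf
  let a := Ψ.ι.rangeRestrict.liftOfSurjective Ψ.ι.rangeRestrict_surjective ⟨ρ, hk⟩
  have ha : ∀ w, a (Ψ.ι.rangeRestrict (C w)) = IsLocalRing.residue Ψ.U.W w := fun w =>
    (RingHom.liftOfSurjective_comp_apply _ _ _ _).trans (by simp [ρ])
  let s : Φ.U.W →+* Ψ.ι.range := (Φ.ι.comp C).codRestrict Ψ.ι.range h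
  have hs : ∀ c : ℤ_[p], s (algebraMap _ _ c) = Ψ.ι.rangeRestrict (C (algebraMap _ _ c)) :=
    fun c => Subtype.ext ((Φ.hZ c).trans (Ψ.hZ c).symm)
  obtain ⟨θ, hθ⟩ := Φ.U.lift Ψ.U (IsLocalRing.residue Ψ.U.W) IsLocalRing.residue_surjective
    (a.comp s) fun c => by rw [RingHom.comp_apply, hs, ha]
  let _ : Algebra ℤ_[p] Ψ.ι.range := (s.comp (algebraMap ℤ_[p] Φ.U.W)).toAlgebra
  have := uq (A := ℤ_[p]) (⟨s, fun _ => rfl⟩ : Φ.U.W →ₐ[ℤ_[p]] Ψ.ι.range)
    ⟨(Ψ.ι.rangeRestrict.comp C).comp θ.toRingHom, fun c =>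
      (congrArg (fun w => Ψ.ι.rangeRestrict (C w)) (θ.commutes c)).trans (hs c).symm⟩ a
    fun w => ((ha _).trans (hθ w)).symm
  exact ⟨θ.toRingHom, fun w => (congrArg Subtype.val (DFunLike.congr_fun this w)).symm,
    θ.commutes⟩

/-- Every non-zero element is the image of a unit after refining the frame. -/
lemma rf (Φ : Frame p) (z : PadicAlgCl p) (hz : z ≠ 0) :
    ∃ (Ψ : Frame p) (σ : Lam Φ.U.W →+* Lam Ψ.U.W) (a : Lam Ψ.U.W),
      IsUnit a ∧ Ψ.ev a = z ∧ (∀ b, Ψ.ev (σ b) = Φ.ev b) ∧ Al Ψ.U a ∧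
        ∀ b, Al Φ.U b → Al Ψ.U (σ b) := by
  obtain ⟨K, fd, zK, xK, cK⟩ := rf_field Φ z
  obtain ⟨Ψ, h1, h2, h3⟩ := fk K
  obtain ⟨θ, hθ, hθ'⟩ := rf_theta Φ Ψ fun w => h1 _ (cK w) (Φ.le _)
  have π0 := norm_pos_iff.2 Ψ.ne
  have uX : IsUnit (algebraMap Ψ.U.W⟦X⟧ (Lam Ψ.U.W) X) :=
    IsLocalization.Away.algebraMap_isUnit _
  have un : ∀ (k : ℕ) (u : Ψ.U.W⟦X⟧), IsUnit u →
      IsUnit (algebraMap Ψ.U.W⟦X⟧ (Lam Ψ.U.W) (u * X ^ k)) := fun k u hu => by
    rw [map_mul, map_pow]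
    exact (hu.map _).mul (uX.pow k)
  obtain ⟨k, u, hu, e⟩ := rf_unit Ψ K h1 h2 h3 (div_mem xK (h2 X)) (div_ne_zero Φ.ne Ψ.ne)
    (by rw [norm_div]; exact (div_le_one π0).2 (h3 _ xK Φ.lt))
  have e' : Ψ.ι ((u : Ψ.U.W⟦X⟧) * X ^ (k + 1)) = Φ.ι X := by
    rw [pow_succ, ← mul_assoc, map_mul, e, div_mul_cancel₀ _ Ψ.ne]
  have hs : HasSubst ((u : Ψ.U.W⟦X⟧) * X ^ (k + 1)) := HasSubst.of_constantCoeff_zero' (by simp)
  let τ : Ψ.U.W⟦X⟧ →ₐ[Ψ.U.W] Ψ.U.W⟦X⟧ := substAlgHom hs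
  let σ : Φ.U.W⟦X⟧ →+* Ψ.U.W⟦X⟧ := τ.toRingHom.comp (PowerSeries.map θ)
  have σX : σ X = (u : Ψ.U.W⟦X⟧) * X ^ (k + 1) :=
    (congrArg τ (PowerSeries.map_X θ)).trans (substAlgHom_X hs)
  have σC : ∀ w, σ (C w) = C (θ w) := fun w =>
    (congrArg τ (PowerSeries.map_C θ w)).trans (τ.commutes (θ w))
  have hσ : Φ.ι = Ψ.ι.comp σ := hom_ext_norm _ _ Φ.le (fun _ => Ψ.le _) Φ.lt
    (fun w => by rw [RingHom.comp_apply, σC, hθ]) (by rw [RingHom.comp_apply, σX, e'])
  obtain ⟨m, hm⟩ := exists_pow_lt_of_lt_one (inv_pos.2 (norm_pos_iff.2 hz)) Ψ.lt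
  obtain ⟨j, v, hv, ev⟩ := rf_unit Ψ K h1 h2 h3 (mul_mem zK (pow_mem (h2 X) m))
    (mul_ne_zero hz (pow_ne_zero m Ψ.ne)) (by
      rw [norm_mul, norm_pow, ← le_inv_mul_iff₀ (norm_pos_iff.2 hz), mul_one]; exact hm.le)
  obtain ⟨t, ht⟩ := uX.exists_right_inv
  have ht' : Ψ.ι X * Ψ.ev t = 1 := by rw [← Ψ.ev_algebraMap, ← map_mul, ht, map_one]
  refine ⟨Ψ, IsLocalization.Away.lift (g := (algebraMap _ (Lam Ψ.U.W)).comp σ) (X : Φ.U.W⟦X⟧)
    (by rw [RingHom.comp_apply, σX]; exact un _ _ hu),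
    algebraMap _ _ ((v : Ψ.U.W⟦X⟧) * X ^ j) * t ^ m,
    (un _ _ hv).mul ((IsUnit.of_mul_eq_one_right _ ht).pow m), ?_, fun b => ?_, ?_,
    al_sigma _ _ _ (fun z => ?_) (u * Polynomial.X ^ (k + 1)) ?_ (by simp) ?_⟩
  · rw [map_mul, map_pow, Ψ.ev_algebraMap, ev, mul_assoc, ← mul_pow, ht', one_pow, mul_one]
  · refine DFunLike.congr_fun (IsLocalization.ringHom_ext (Submonoid.powers (X : Φ.U.W⟦X⟧))
      (j := Ψ.ev.comp _) (k := Φ.ev) (RingHom.ext fun f => ?_)) b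
    simp only [RingHom.comp_apply, IsLocalization.Away.lift_eq, Frame.ev_algebraMap]
    exact (DFunLike.congr_fun hσ f).symm
  · have hX : Al Ψ.U (algebraMap Ψ.U.W⟦X⟧ _ X) := by simpa using al_poly Ψ.U Polynomial.X
    rw [map_mul, map_pow]
    exact ((al_poly _ v).mul (hX.pow j)).mul ((al_div _ uX hX isAlgebraic_one ht).pow m)
  · rw [IsLocalization.Away.lift_eq, RingHom.comp_apply, σC, hθ']
  · exact mul_ne_zero (fun h => hu.ne_zero (by simp [h])) (pow_ne_zero _ Polynomial.X_ne_zero)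
  · rw [IsLocalization.Away.lift_eq, RingHom.comp_apply, σX]
    simp

end Pool.Agent.MP_855f4c_ag.LP

namespace Pool.Agent.MP_855f4c_ag.LP

open Polynomial

variable {p : ℕ} [Fact p.Prime]

lemma st_eval {P R S : Type} [CommRing P] [CommRing R] [CommRing S] (g : P[X]) (j : P →+* R)
    {N : ℕ} (α : Fin N → R) (c : R) (hg : g.map j = C c * ∏ i, (X - C (α i))) (x : R →+* S)
    (y : S) : g.eval₂ (x.comp j) y = x c * ∏ i, (y - x (α i)) := by
  rw [← eval₂_map, hg, ← coe_eval₂RingHom, map_mul, map_prod]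
  simp

/-- One more coordinate. -/
lemma lift_step {P R : Type} [CommRing P] [CommRing R] (g : P[X]) (j : P →+* R) {N : ℕ}
    (hN : N ≠ 0) (α : Fin N → R) (c : R) (hc : IsUnit c)
    (hg : g.map j = C c * ∏ i, (X - C (α i))) (hα : ∀ i k, α i = α k ∨ IsUnit (α i - α k))
    (Φ : Frame p) (x : R →+* Lam Φ.U.W) (hx : ∀ r, Al Φ.U (x r)) (y : PadicAlgCl p)
    (hy : g.eval₂ (Φ.ev.comp (x.comp j)) y ≠ 0) :
    ∃ (Ψ : Frame p) (ψ : P[X] →+* Lam Ψ.U.W), IsUnit (ψ g) ∧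
      (∀ a, Ψ.ev (ψ (C a)) = Φ.ev (x (j a))) ∧ Ψ.ev (ψ X) = y ∧ ∀ a, Al Ψ.U (ψ a) := by
  have : Nonempty (Fin N) := ⟨⟨0, Nat.pos_of_ne_zero hN⟩⟩
  obtain ⟨k, hk⟩ := Finite.exists_min (fun i : Fin N => ‖y - Φ.ev (x (α i))‖)
  have hz : y - Φ.ev (x (α k)) ≠ 0 := by
    intro h0
    apply hy
    rw [← RingHom.comp_assoc, st_eval g j α c hg]
    exact mul_eq_zero_of_right _ (Finset.prod_eq_zero (Finset.mem_univ k) h0)
  obtain ⟨Ψ, σ, a, ha, haz, hσ, ha', hσ'⟩ := rf Φ _ hz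
  refine ⟨Ψ, eval₂RingHom ((σ.comp x).comp j) (σ (x (α k)) + a), ?_, ?_, ?_, fun b => ?_⟩
  · rw [coe_eval₂RingHom, st_eval g j α c hg]
    refine (hc.map _).mul (IsUnit.prod_univ_iff.2 fun i => ?_)
    rcases hα k i with h | h
    · rw [h]
      simpa using ha
    · have e : σ (x (α k)) + a - (σ.comp x) (α i) = a + (σ.comp x) (α k - α i) := by
        simp only [RingHom.comp_apply, map_sub]
        ring
      rw [e]
      refine Ψ.unit_add _ _ ha (h.map _) ?_
      have e2 : Ψ.ev (a + (σ.comp x) (α k - α i)) = y - Φ.ev (x (α i)) := by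
        simp only [RingHom.comp_apply, map_sub, map_add, haz, hσ]
        ring
      rw [e2, haz]
      exact hk i
  · intro b
    simp [hσ]
  · simp [hσ, haz]
  · induction b using Polynomial.induction_on' with
    | add b c hb hc => rw [map_add]; exact hb.add hc
    | monomial n w =>
      rw [coe_eval₂RingHom, eval₂_monomial]
      exact (hσ' _ (hx _)).mul (((hσ' _ (hx _)).add ha').pow n)

/-- A generically finite etale extension. -/
lemma lift_etale {P D : Type} [CommRing P] [CommRing D] [Algebra P D] (g : P)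
    (h1 : (Localization.awayMap (algebraMap P D) g).Finite)
    (h2 : (Localization.awayMap (algebraMap P D) g).Etale) (Φ : Frame p) (ψ : P →+* Lam Φ.U.W)
    (hψ : IsUnit (ψ g)) (x : D →+* PadicAlgCl p) (hx : ∀ a, Φ.ev (ψ a) = x (algebraMap P D a))
    (hal : ∀ a, Al Φ.U (ψ a)) :
    ∃ (Ψ : Frame p) (x' : D →+* Lam Ψ.U.W), ∀ r, Ψ.ev (x' r) = x r ∧ Al Ψ.U (x' r) := by
  have hxg : IsUnit (x (algebraMap P D g)) := by
    rw [← hx]
    exact hψ.map _
  let ψ' : Localization.Away g →+* Lam Φ.U.W := IsLocalization.Away.lift g hψ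
  let x1 : Localization.Away (algebraMap P D g) →+* PadicAlgCl p :=
    IsLocalization.Away.lift (algebraMap P D g) hxg
  have hcomp : x1.comp (Localization.awayMap (algebraMap P D) g) = Φ.ev.comp ψ' := by
    refine IsLocalization.ringHom_ext (Submonoid.powers g) (RingHom.ext fun a => ?_)
    simp only [RingHom.comp_apply, x1, ψ', IsLocalization.Away.lift_eq, Localization.awayMap,
      IsLocalization.Away.map, IsLocalization.map_eq, hx]
  let : Algebra (Localization.Away g) (Localization.Away (algebraMap P D g)) :=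
    (Localization.awayMap (algebraMap P D) g).toAlgebra
  let : Algebra (Localization.Away g) (Lam Φ.U.W) := ψ'.toAlgebra
  let : Algebra (Localization.Away g) (PadicAlgCl p) := (Φ.ev.comp ψ').toAlgebra
  have : Module.Finite (Localization.Away g) (Localization.Away (algebraMap P D g)) := h1
  have : Algebra.Etale (Localization.Away g) (Localization.Away (algebraMap P D g)) := h2
  let f1 : Lam Φ.U.W →ₐ[Localization.Away g] PadicAlgCl p := ⟨Φ.ev, fun _ => rfl⟩
  let f2 : Localization.Away (algebraMap P D g) →ₐ[Localization.Away g] PadicAlgCl p :=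
    ⟨x1, fun a => RingHom.congr_fun hcomp a⟩
  obtain ⟨Ψ, s, hs, hs'⟩ := rl Φ
    (TensorProduct (Localization.Away g) (Lam Φ.U.W) (Localization.Away (algebraMap P D g)))
    (Algebra.TensorProduct.productMap f1 f2).toRingHom (fun a => by
      simp [Algebra.TensorProduct.algebraMap_apply, f1])
  refine ⟨Ψ, s.comp ((Algebra.TensorProduct.includeRight (R := Localization.Away g)
    (A := Lam Φ.U.W)).toRingHom.comp (algebraMap D (Localization.Away (algebraMap P D g)))),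
    fun r => ⟨?_, ?_⟩⟩
  · rw [RingHom.comp_apply, hs]
    simp [f2, x1]
  · obtain ⟨q, q1, q2⟩ := Algebra.IsIntegral.isIntegral (R := Localization.Away g)
      (algebraMap D (Localization.Away (algebraMap P D g)) r)
    let t := s.comp (Algebra.TensorProduct.includeRight (R := Localization.Away g)
      (A := Lam Φ.U.W) (B := Localization.Away (algebraMap P D g))).toRingHom
    refine al_int Ψ.U (t.comp (algebraMap (Localization.Away g) _)) (fun c => ?_) _ ⟨q, q1, ?_⟩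
    · have := hs' _ (al_away Φ.U g ψ hψ hal c)
      convert this using 1
      refine congrArg s ((AlgHom.commutes _ c).trans ?_)
      rfl
    · have := congrArg t q2
      rwa [hom_eval₂, map_zero] at this

end Pool.Agent.MP_855f4c_ag.LP

namespace Pool.Agent.MP_855f4c_ag.LP

open Polynomial

/-- All domain quotients have transcendence degree at most `d`. -/
def li_Bd (d : ℕ) (R : Type) [CommRing R] : Prop :=
  ∀ (D : Type) [CommRing D] [IsDomain D] (x : R →+* D), Function.Surjective x →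
    Algebra.trdeg ℤ D ≤ d

/-- Generic points lift and a given non-zero element becomes a unit. -/
def li_GL (P : Type) [CommRing P] : Prop :=
  ∀ g : P, g ≠ 0 → ∃ h : P, h ≠ 0 ∧ ∃ M : ℕ, M ≠ 0 ∧ ∀ (p : ℕ) [Fact p.Prime], ¬ p ∣ M →
    ∀ x : P →+* PadicAlgCl p, x h ≠ 0 →
      ∃ (Φ : Frame p) (ψ : P →+* Lam Φ.U.W), IsUnit (ψ g) ∧
        ∀ a, Φ.ev (ψ a) = x a ∧ Al Φ.U (ψ a)

lemma li_trdeg {s : ℕ} {D : Type} [CommRing D] [IsDomain D] (φ : MvPolynomial (Fin s) ℤ →+* D)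
    (h : ∀ z : D, ∃ m, φ m ≠ 0 ∧ φ.IsIntegralElem (φ m * z)) : Algebra.trdeg ℤ D ≤ s := by
  have hm : ∀ a, φ a ∈ Algebra.adjoin ℤ (Set.range fun i => φ (MvPolynomial.X i)) := fun a => by
    induction a using MvPolynomial.induction_on with
    | C a => rw [eq_intCast MvPolynomial.C, map_intCast]; exact intCast_mem _ a
    | add a b ha hb => rw [map_add]; exact add_mem ha hb
    | mul_X a i ha => rw [map_mul]; exact mul_mem ha (Algebra.subset_adjoin ⟨i, rfl⟩)
  have : Algebra.IsAlgebraic (Algebra.adjoin ℤ (Set.range fun i => φ (MvPolynomial.X i))) D := by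
    refine ⟨fun z => ?_⟩
    obtain ⟨m, m0, q, q1, q2⟩ := h z
    refine IsAlgebraic.of_mul (mem_nonZeroDivisors_of_ne_zero m0)
      (isAlgebraic_algebraMap (⟨φ m, hm m⟩ : Algebra.adjoin ℤ _))
      (IsIntegral.isAlgebraic ⟨q.map (φ.codRestrict _ hm), q1.map _, ?_⟩)
    rw [eval₂_map]
    exact q2
  exact (Algebra.IsAlgebraic.trdeg_le_cardinalMk ℤ _ (alg := this)).trans
    (Cardinal.mk_range_le.trans_eq (Cardinal.mk_fin s))

lemma li_equiv {P Q : Type} [CommRing P] [CommRing Q] (e : P ≃+* Q) (h : li_GL Q) : li_GL P := by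
  intro g hg
  obtain ⟨f, f0, M, M0, H⟩ := h (e g) (by simpa using hg)
  refine ⟨e.symm f, by simpa using f0, M, M0, fun p _ hp x hx => ?_⟩
  obtain ⟨Φ, ψ, h1, h2⟩ := H p hp (x.comp e.symm.toRingHom) hx
  exact ⟨Φ, ψ.comp e.toRingHom, h1, fun a => ⟨(h2 (e a)).1.trans (by simp), (h2 (e a)).2⟩⟩

lemma li_int : li_GL ℤ := by
  intro g hg
  refine ⟨1, one_ne_zero, g.natAbs, Int.natAbs_ne_zero.2 hg, fun p _ hp x _ => ?_⟩
  obtain ⟨Φ, -⟩ := fk (p := p) ⊥
  refine ⟨Φ, Int.castRingHom _, ?_, fun a => ⟨by simp, isAlgebraic_intCast a⟩⟩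
  have h : IsUnit (g : ℤ_[p]) := by
    rw [PadicInt.isUnit_iff]
    exact le_antisymm (PadicInt.norm_le_one _) (not_lt.1 fun h =>
      hp (Int.natCast_dvd.1 ((PadicInt.norm_int_lt_one_iff_dvd g).1 h)))
  simpa using h.map (((algebraMap _ (Lam Φ.U.W)).comp PowerSeries.C).comp
    (algebraMap ℤ_[p] Φ.U.W))

lemma li_step {s : ℕ} (ih : ∀ (R : Type) [CommRing R] [Algebra.FiniteType ℤ R], li_Bd s R →
    ∃ M : ℕ, M ≠ 0 ∧ Lifts R M) : li_GL (MvPolynomial (Fin s) ℤ)[X] := by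
  intro g hg
  have hG : g * X ≠ 0 := mul_ne_zero hg X_ne_zero
  obtain ⟨g0, h0, R, _, j, α, c, j1, j2, hc, hf, hα⟩ := root (g * X) hG
  let _ := j.toAlgebra
  let _ := (j.comp (algebraMap (MvPolynomial (Fin s) ℤ) _)).toAlgebra
  have : IsScalarTower (MvPolynomial (Fin s) ℤ) (Localization.Away g0) R :=
    .of_algebraMap_eq' rfl
  have : Module.Finite (Localization.Away g0) R := j2
  have : Algebra.FiniteType (MvPolynomial (Fin s) ℤ) R :=
    .trans (S := Localization.Away g0) inferInstance inferInstance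
  have : Algebra.FiniteType ℤ R := .trans (S := MvPolynomial (Fin s) ℤ) inferInstance this
  obtain ⟨M, M0, hM⟩ := ih R fun D _ _ x hx => by
    refine li_trdeg (x.comp (algebraMap (MvPolynomial (Fin s) ℤ) R)) fun z => ?_
    obtain ⟨r, rfl⟩ := hx z
    obtain ⟨m, q, q1, q2⟩ := (Algebra.IsIntegral.isIntegral (R := Localization.Away g0)
      r).exists_multiple_integral_of_isLocalization (Submonoid.powers g0)
    refine ⟨m, (((IsLocalization.map_units (Localization.Away g0) m).map j).map x).ne_zero,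
      q, q1, ?_⟩
    rw [RingHom.comp_apply, ← map_mul, ← hom_eval₂, ← Algebra.smul_def, ← map_zero x, ← q2]
    rfl
  refine ⟨g * X * C g0, mul_ne_zero hG (C_ne_zero.2 h0), M, M0, fun p _ hp x hx => ?_⟩
  rw [map_mul] at hx
  obtain ⟨y, hy⟩ := ext_int j j2.to_isIntegral
    (IsLocalization.Away.lift g0 (g := x.comp C) (IsUnit.mk0 _ (right_ne_zero_of_mul hx)))
    (by rw [(RingHom.injective_iff_ker_eq_bot j).1 j1]; exact bot_le)
  obtain ⟨Φ, x', hx'⟩ := hM p hp y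
  have e : Φ.ev.comp (x'.comp (j.comp (algebraMap _ _))) = x.comp C :=
    RingHom.ext fun a => (hx' _).1.trans ((hy _).trans (IsLocalization.Away.lift_eq _ _ _))
  obtain ⟨Ψ, ψ, h1, h2, h3, h4⟩ := lift_step (g * X) (j.comp (algebraMap _ _))
    (by rw [natDegree_mul_X hg]; omega) α c hc hf hα Φ x' (fun r => (hx' r).2) (x X)
    (by rw [e, ← hom_eval₂, eval₂_C_X]; exact left_ne_zero_of_mul hx)
  rw [map_mul] at h1
  exact ⟨Ψ, ψ, isUnit_of_mul_isUnit_left h1, fun a => ⟨RingHom.congr_fun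
    (ringHom_ext (f := Ψ.ev.comp ψ) (g := x)
      (fun a => (h2 a).trans (RingHom.congr_fun e a)) h3) a, h4 a⟩⟩

lemma li_dom {d : ℕ} (ih : ∀ s, s ≤ d → li_GL (MvPolynomial (Fin s) ℤ)) {R D : Type} [CommRing R]
    [Algebra.FiniteType ℤ R] (hR : li_Bd d R) [CommRing D] [IsDomain D] [CharZero D]
    (π : R →+* D) (hπ : Function.Surjective π) :
    ∃ f : D, f ≠ 0 ∧ ∃ M : ℕ, M ≠ 0 ∧ ∀ (p : ℕ) [Fact p.Prime], ¬ p ∣ M →
      ∀ x : D →+* PadicAlgCl p, x f ≠ 0 →
        ∃ (Φ : Frame p) (x' : D →+* Lam Φ.U.W), ∀ r, Φ.ev (x' r) = x r ∧ Al Φ.U (x' r) := by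
  have hd := hR D π hπ
  have : Algebra.FiniteType ℤ D := .of_surjective π.toIntAlgHom hπ
  obtain ⟨ι, w, hw⟩ := exists_isTranscendenceBasis' ℤ D
  rw [← hw.cardinalMk_eq_trdeg] at hd
  have : Finite ι := Cardinal.lt_aleph0_iff_finite.1 (hd.trans_lt Cardinal.natCast_lt_aleph0)
  obtain ⟨s, ⟨e⟩⟩ := Finite.exists_equiv_fin ι
  rw [Cardinal.mk_congr e, Cardinal.mk_fin, Nat.cast_le] at hd
  have hv := hw.comp_equiv e.symm
  let _ := (MvPolynomial.aeval (R := ℤ) (w ∘ e.symm)).toAlgebra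
  have hi : Function.Injective (algebraMap (MvPolynomial (Fin s) ℤ) D) := hv.1
  have : Algebra.FiniteType (MvPolynomial (Fin s) ℤ) D :=
    .of_restrictScalars_finiteType ℤ _ _
  have : Algebra.IsAlgebraic (MvPolynomial (Fin s) ℤ) D := by
    refine ⟨fun z => ?_⟩
    obtain ⟨q, q0, hq⟩ := hv.isAlgebraic.1 z
    refine ⟨q.map hv.1.aevalEquiv.symm.toRingEquiv.toRingHom,
      (Polynomial.map_ne_zero_iff hv.1.aevalEquiv.symm.injective).2 q0, ?_⟩
    rw [aeval_def, eval₂_map, ← hq, aeval_def]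
    congr 1
    refine RingHom.ext fun a => ?_
    obtain ⟨b, rfl⟩ := hv.1.aevalEquiv.surjective a
    exact (congrArg _ (hv.1.aevalEquiv.symm_apply_apply b)).trans
      (hv.1.algebraMap_aevalEquiv b).symm
  obtain ⟨g, g0, hg⟩ := gen hi
  obtain ⟨f, f0, M, M0, H⟩ := ih s hd g g0
  refine ⟨algebraMap _ D f, (map_ne_zero_iff _ hi).2 f0, M, M0, fun p _ hp x hx => ?_⟩
  obtain ⟨Φ, ψ, h1, h2⟩ := H p hp (x.comp (algebraMap _ D)) hx
  exact lift_etale g (hg g dvd_rfl).1 (hg g dvd_rfl).2 Φ ψ h1 x (fun a => (h2 a).1)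
    fun a => (h2 a).2

lemma li_noeth {d : ℕ} (ih : ∀ s, s ≤ d → li_GL (MvPolynomial (Fin s) ℤ)) (R : Type) [CommRing R]
    [Algebra.FiniteType ℤ R] (hd : li_Bd d R) : ∃ M : ℕ, M ≠ 0 ∧ Lifts R M := by
  have := Algebra.FiniteType.isNoetherianRing ℤ R
  have key : ∀ I : Ideal R, ∃ M : ℕ, M ≠ 0 ∧ ∀ (p : ℕ) [Fact p.Prime], ¬ p ∣ M →
      ∀ x : R →+* PadicAlgCl p, I ≤ RingHom.ker x →
        ∃ (Φ : Frame p) (x' : R →+* Lam Φ.U.W), ∀ r, Φ.ev (x' r) = x r ∧ Al Φ.U (x' r) := by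
    intro I
    induction I using IsNoetherian.induction with
    | hgt I hI =>
    have lt : ∀ a ∉ I, I < I ⊔ Ideal.span {a} := fun a ha =>
      left_lt_sup.2 fun h => ha ((Ideal.span_singleton_le_iff_mem I).1 h)
    have le : ∀ {K : Type} [Field K] (x : R →+* K) (a : R), I ≤ RingHom.ker x → x a = 0 →
        I ⊔ Ideal.span {a} ≤ RingHom.ker x := fun x a h1 h2 =>
      sup_le h1 ((Ideal.span_singleton_le_iff_mem _).2 h2)
    by_cases hn : ∃ n : ℕ, n ≠ 0 ∧ (n : R) ∈ I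
    · obtain ⟨n, n0, hn⟩ := hn
      exact ⟨1, one_ne_zero, fun p _ _ x hx => absurd (hx hn) (by simpa using n0)⟩
    by_cases hp : Ideal.IsPrime I
    · have : CharZero (R ⧸ I) := charZero_of_inj_zero fun n h => by_contra fun n0 =>
        hn ⟨n, n0, Ideal.Quotient.eq_zero_iff_mem.1 (by rwa [map_natCast])⟩
      obtain ⟨f, f0, M, M0, H⟩ := li_dom ih hd (Ideal.Quotient.mk I) Ideal.Quotient.mk_surjective
      obtain ⟨a, rfl⟩ := Ideal.Quotient.mk_surjective f
      obtain ⟨N, N0, H'⟩ := hI _ (lt a fun h => f0 (Ideal.Quotient.eq_zero_iff_mem.2 h))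
      refine ⟨M * N, mul_ne_zero M0 N0, fun p _ h x hx => ?_⟩
      by_cases ha : x a = 0
      · exact H' p (fun g => h (g.mul_left M)) x (le x a hx ha)
      obtain ⟨Φ, x', hx'⟩ := H p (fun g => h (g.mul_right N)) (Ideal.Quotient.lift I x hx) ha
      exact ⟨Φ, x'.comp (Ideal.Quotient.mk I), fun r => hx' _⟩
    rcases Ideal.not_isPrime_iff.1 hp with rfl | ⟨a, ha, b, hb, hab⟩
    · exact absurd ⟨1, one_ne_zero, trivial⟩ hn
    obtain ⟨M, M0, H⟩ := hI _ (lt a ha)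
    obtain ⟨N, N0, H'⟩ := hI _ (lt b hb)
    refine ⟨M * N, mul_ne_zero M0 N0, fun p _ h x hx => ?_⟩
    rcases mul_eq_zero.1 ((map_mul x a b).symm.trans (hx hab)) with g | g
    · exact H p (fun g => h (g.mul_right N)) x (le x a hx g)
    · exact H' p (fun g => h (g.mul_left M)) x (le x b hx g)
  obtain ⟨M, M0, H⟩ := key ⊥
  exact ⟨M, M0, fun p _ hp x => H p hp x bot_le⟩

lemma li_all (s : ℕ) : li_GL (MvPolynomial (Fin s) ℤ) := by
  induction s using Nat.strong_induction_on with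
  | _ s ih =>
    cases s with
    | zero => exact li_equiv (MvPolynomial.isEmptyRingEquiv ℤ (Fin 0)) li_int
    | succ s =>
      exact li_equiv (MvPolynomial.finSuccEquiv ℤ s).toRingEquiv
        (li_step (li_noeth fun t ht => ih t (Nat.lt_succ_of_le ht)))

/-- The lifting theorem. -/
theorem lifts (R : Type) [CommRing R] [Algebra.FiniteType ℤ R] : ∃ M : ℕ, M ≠ 0 ∧ Lifts R M := by
  obtain ⟨n, f, hf⟩ := Algebra.FiniteType.iff_quotient_mvPolynomial''.1 ‹Algebra.FiniteType ℤ R›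
  refine li_noeth (d := n) (fun s _ => li_all s) R fun D _ _ x hx =>
    li_trdeg (x.comp f.toRingHom) fun z => ⟨1, by simp, ?_⟩
  obtain ⟨a, rfl⟩ := (hx.comp hf) z
  rw [map_one, one_mul]
  exact RingHom.isIntegralElem_map (x.comp f.toRingHom)

end Pool.Agent.MP_855f4c_ag.LP
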